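import Pool.Agent.PSL3.Defs

/-!
# PSL3 / FacRank: factorisation of `z + u φ` (rank one case)

`a₀ = φ u = z⁻² - z` (det), `a₁ = t' - z s`, `a₂ = s a₁ + z s' - t / z`; `(a₀, a₁, a₂) ≠ 0` by `hnd`. There is an
invertible `P` with first column `u` and `φ P = (a₀, a₁, a₂)`; `B = P C P⁻¹`, `C` the companion matrix of
`X³ - s X² + s' X - 1`. Then `tr (M B) = z s + φ B u = z s + a₁ = t'`, and with `M⁻¹ = z⁻¹ - z u φ`,
`tr (B⁻¹ M⁻¹) = z⁻¹ s' - z φ B⁻¹ u = t`.
-/

set_option autoImplicit false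

namespace Pool.Agent.PSL3

open Matrix

variable {F : Type*} [Field F]

/-- an invertible matrix with a given first column -/
private lemma fr_col (u : Fin 3 → F) (hu : u ≠ 0) :
    ∃ P : M3 F, P.det ≠ 0 ∧ ∀ i, P i 0 = u i := by
  by_cases h0 : u 0 = 0
  · by_cases h1 : u 1 = 0
    · have h2 : u 2 ≠ 0 := by
        intro h2
        apply hu
        funext i
        fin_cases i
        · exact h0
        · exact h1
        · exact h2
      refine ⟨!![u 0, 1, 0; u 1, 0, 1; u 2, 0, 0], ?_, ?_⟩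
      · rw [det_fin_three]
        simpa using h2
      · intro i
        fin_cases i <;> simp
    · refine ⟨!![u 0, 1, 0; u 1, 0, 0; u 2, 0, 1], ?_, ?_⟩
      · rw [det_fin_three]
        simpa using h1
      · intro i
        fin_cases i <;> simp
  · refine ⟨!![u 0, 0, 0; u 1, 1, 0; u 2, 0, 1], ?_, ?_⟩
    · rw [det_fin_three]
      simpa using h0
    · intro i
      fin_cases i <;> simp

/-- an invertible matrix with first column `e₁` that carries the row `b` to the row `a` -/
private lemma fr_row (a b : Fin 3 → F) (ha : a ≠ 0) (hb : b ≠ 0) (h : a 0 = b 0) :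
    ∃ R : M3 F, R.det ≠ 0 ∧ R 0 0 = 1 ∧ R 1 0 = 0 ∧ R 2 0 = 0 ∧ b ᵥ* R = a := by
  by_cases h0 : b 0 = 0
  · have ha0 : a 0 = 0 := h.trans h0
    have ha' : a 1 ≠ 0 ∨ a 2 ≠ 0 := by
      by_contra hcon
      rw [not_or, not_not, not_not] at hcon
      apply ha
      funext i
      fin_cases i
      · exact ha0
      · exact hcon.1
      · exact hcon.2
    have hb' : b 1 ≠ 0 ∨ b 2 ≠ 0 := by
      by_contra hcon
      rw [not_or, not_not, not_not] at hcon
      apply hb
      funext i
      fin_cases i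
      · exact h0
      · exact hcon.1
      · exact hcon.2
    -- a 2 by 2 block `(p q; r s)` of nonzero determinant with `(b1 b2) (p q; r s) = (a1 a2)`
    obtain ⟨p, q, r, s, hd, h1, h2⟩ : ∃ p q r s : F, p * s - q * r ≠ 0 ∧
        b 1 * p + b 2 * r = a 1 ∧ b 1 * q + b 2 * s = a 2 := by
      rcases hb' with hb1 | hb2
      · rcases ha' with ha1 | ha2
        · refine ⟨a 1 / b 1, a 2 / b 1 - b 2 / b 1, 0, 1, ?_, ?_, ?_⟩
          · rw [mul_one, mul_zero, sub_zero]
            exact div_ne_zero ha1 hb1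
          · field_simp
            ring
          · field_simp
            ring
        · refine ⟨a 1 / b 1 - b 2 / b 1, a 2 / b 1, 1, 0, ?_, ?_, ?_⟩
          · rw [mul_zero, mul_one, zero_sub]
            exact neg_ne_zero.2 (div_ne_zero ha2 hb1)
          · field_simp
            ring
          · field_simp
            ring
      · rcases ha' with ha1 | ha2
        · refine ⟨0, 1, a 1 / b 2, a 2 / b 2 - b 1 / b 2, ?_, ?_, ?_⟩
          · rw [zero_mul, one_mul, zero_sub]
            exact neg_ne_zero.2 (div_ne_zero ha1 hb2)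
          · field_simp
            ring
          · field_simp
            ring
        · refine ⟨1, 0, a 1 / b 2 - b 1 / b 2, a 2 / b 2, ?_, ?_, ?_⟩
          · rw [one_mul, zero_mul, sub_zero]
            exact div_ne_zero ha2 hb2
          · field_simp
            ring
          · field_simp
            ring
    refine ⟨!![1, 0, 0; 0, p, q; 0, r, s], ?_, by simp, by simp, by simp, ?_⟩
    · rw [det_fin_three]
      simpa using hd
    · funext i
      fin_cases i
      · simp [vecMul, dotProduct, Fin.sum_univ_three, h]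
      · simp [vecMul, dotProduct, Fin.sum_univ_three, h1]
      · simp [vecMul, dotProduct, Fin.sum_univ_three, h2]
  · refine ⟨!![1, (a 1 - b 1) / b 0, (a 2 - b 2) / b 0; 0, 1, 0; 0, 0, 1], ?_, by simp, by simp,
      by simp, ?_⟩
    · rw [det_fin_three]
      simp
    · funext i
      fin_cases i
      · simp [vecMul, dotProduct, Fin.sum_univ_three, h]
      · simp [vecMul, dotProduct, Fin.sum_univ_three]
        field_simp
        ring
      · simp [vecMul, dotProduct, Fin.sum_univ_three]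
        field_simp
        ring

private lemma fr_basis (u φ a : Fin 3 → F) (hu : u ≠ 0) (hφ : φ ≠ 0) (ha : a ≠ 0)
    (h : a 0 = φ ⬝ᵥ u) : ∃ P : M3 F, P.det ≠ 0 ∧ (∀ i, P i 0 = u i) ∧ φ ᵥ* P = a := by
  obtain ⟨P, hP, hPu⟩ := fr_col u hu
  have hb : φ ᵥ* P ≠ 0 := by
    intro hcon
    apply hφ
    have h1 : IsUnit P.det := isUnit_iff_ne_zero.2 hP
    have h2 : (φ ᵥ* P) ᵥ* P⁻¹ = φ := by
      rw [vecMul_vecMul, mul_nonsing_inv P h1, vecMul_one]
    rw [← h2, hcon, zero_vecMul]
  have hb0 : a 0 = (φ ᵥ* P) 0 := by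
    rw [h]
    simp [vecMul, dotProduct, hPu]
  obtain ⟨R, hR, h1, h2, h3, h4⟩ := fr_row a (φ ᵥ* P) ha hb hb0
  refine ⟨P * R, ?_, ?_, ?_⟩
  · rw [det_mul]
    exact mul_ne_zero hP hR
  · intro i
    rw [mul_apply, Fin.sum_univ_three, h1, h2, h3, hPu]
    ring
  · rw [← vecMul_vecMul, h4]

private lemma fr_trace (X : M3 F) (u φ : Fin 3 → F) :
    (X * vecMulVec u φ).trace = φ ⬝ᵥ (X *ᵥ u) := by
  rw [mul_vecMulVec, trace_vecMulVec, dotProduct_comm]

theorem fac_rank {F : Type*} [Field F] (s s' t t' z : F) (u φ : Fin 3 → F) (hu : u ≠ 0)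
    (hφ : φ ≠ 0) (hdet : (z • (1 : M3 F) + vecMulVec u φ).det = 1)
    (hnd : z ^ 3 = 1 → ¬ (t' = z * s ∧ t = z ^ 2 * s')) :
    ∃ B : M3 F, B.det = 1 ∧ B.trace = s ∧ B.adjugate.trace = s' ∧
      ((z • (1 : M3 F) + vecMulVec u φ) * B).trace = t' ∧
      (B.adjugate * (z • (1 : M3 F) + vecMulVec u φ).adjugate).trace = t := by
  have hd : z ^ 2 * (z + φ ⬝ᵥ u) = 1 := by
    rw [← hdet, det_fin_three]
    simp [vecMulVec_apply, dotProduct, Fin.sum_univ_three, Matrix.one_apply]
    ring
  have hz : z ≠ 0 := by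
    rintro rfl
    norm_num at hd
  set a0 := φ ⬝ᵥ u with ha0
  have ha0' : a0 = (z ^ 2)⁻¹ - z := by
    have h1 : z + a0 = (z ^ 2)⁻¹ := by
      apply eq_inv_of_mul_eq_one_left
      linear_combination hd
    linear_combination h1
  set a1 := t' - z * s with ha1
  set a2 := s * a1 + z * s' - t / z with ha2
  have ha : (![a0, a1, a2] : Fin 3 → F) ≠ 0 := by
    intro h
    have h0 : a0 = 0 := congrFun h 0
    have h1 : a1 = 0 := congrFun h 1
    have h2 : a2 = 0 := congrFun h 2
    have hz3 : z ^ 3 = 1 := by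
      rw [h0] at hd
      linear_combination hd
    refine hnd hz3 ⟨?_, ?_⟩
    · linear_combination h1
    · rw [ha2, h1] at h2
      field_simp at h2
      linear_combination -h2
  obtain ⟨P, hP, hPu, hPa⟩ := fr_basis u φ ![a0, a1, a2] hu hφ ha rfl
  have hPU : IsUnit P.det := isUnit_iff_ne_zero.2 hP
  have hPi : P * P⁻¹ = 1 := mul_nonsing_inv P hPU
  have hiP : P⁻¹ * P = 1 := nonsing_inv_mul P hPU
  set C : M3 F := !![0, 0, 1; 1, 0, -s'; 0, 1, s] with hC
  set D : M3 F := !![s', 1, 0; -s, 0, 1; 1, 0, 0] with hD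
  have hCD : C * D = 1 := by
    ext i j
    fin_cases i <;> fin_cases j <;> simp [hC, hD, mul_apply, Fin.sum_univ_three]
  have hCdet : C.det = 1 := by
    rw [det_fin_three]
    simp [hC]
  have hCtr : C.trace = s := by
    simp [hC, trace_fin_three]
  have hDtr : D.trace = s' := by
    simp [hD, trace_fin_three]
  set B : M3 F := P * C * P⁻¹ with hB
  set B' : M3 F := P * D * P⁻¹ with hB'
  have hBB' : B * B' = 1 := by
    calc B * B' = P * C * (P⁻¹ * P) * D * P⁻¹ := by rw [hB, hB']; noncomm_ring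
      _ = P * (C * D) * P⁻¹ := by rw [hiP]; noncomm_ring
      _ = 1 := by rw [hCD, mul_one, hPi]
  have hBdet : B.det = 1 := by
    rw [hB, det_mul, det_mul, hCdet, mul_one, ← det_mul, hPi, det_one]
  have hBadj : B.adjugate = B' := by
    have h1 : B.adjugate * B = 1 := by rw [adjugate_mul, hBdet, one_smul]
    calc B.adjugate = B.adjugate * (B * B') := by rw [hBB', mul_one]
      _ = B' := by rw [← mul_assoc, h1, one_mul]
  have hconj : ∀ X : M3 F, (P * X * P⁻¹).trace = X.trace := by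
    intro X
    rw [trace_mul_comm, ← mul_assoc, hiP, one_mul]
  -- the inverse of `M`
  set M : M3 F := z • (1 : M3 F) + vecMulVec u φ with hM
  set N : M3 F := z⁻¹ • (1 : M3 F) - z • vecMulVec u φ with hN
  have huu : vecMulVec u φ * vecMulVec u φ = a0 • vecMulVec u φ := by
    rw [vecMulVec_mul_vecMulVec]
    ext i j
    simp only [vecMulVec_apply, Matrix.smul_apply, Pi.smul_apply, smul_eq_mul, ← ha0]
    ring
  have hMN : M * N = 1 := by
    have e : M * N = (z * z⁻¹) • (1 : M3 F) +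
        (z⁻¹ - z ^ 2 - z * a0) • vecMulVec u φ := by
      rw [hM, hN, add_mul, mul_sub, mul_sub, smul_mul_assoc, smul_mul_assoc, one_mul, one_mul,
        mul_smul_comm, mul_smul_comm, mul_one, huu]
      module
    rw [e, mul_inv_cancel₀ hz, one_smul]
    have h1 : z⁻¹ - z ^ 2 - z * a0 = 0 := by
      rw [ha0']
      field_simp
      ring
    rw [h1, zero_smul, add_zero]
  have hMadj : M.adjugate = N := by
    have h1 : M.adjugate * M = 1 := by rw [adjugate_mul, hdet, one_smul]
    calc M.adjugate = M.adjugate * (M * N) := by rw [hMN, mul_one]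
      _ = N := by rw [← mul_assoc, h1, one_mul]
  -- `P⁻¹ u = e₁`
  have hPe : P *ᵥ ![1, 0, 0] = u := by
    funext i
    simp [mulVec, dotProduct, Fin.sum_univ_three, hPu]
  have hPu' : P⁻¹ *ᵥ u = ![1, 0, 0] := by
    rw [← hPe, mulVec_mulVec, hiP, one_mulVec]
  have hval : ∀ X : M3 F, φ ⬝ᵥ ((P * X * P⁻¹) *ᵥ u) = ![a0, a1, a2] ⬝ᵥ (X *ᵥ ![1, 0, 0]) := by
    intro X
    rw [← mulVec_mulVec, hPu', ← mulVec_mulVec, dotProduct_mulVec, hPa]
  refine ⟨B, hBdet, ?_, ?_, ?_, ?_⟩
  · rw [hB, hconj, hCtr]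
  · rw [hBadj, hB', hconj, hDtr]
  · have e : M * B = z • B + vecMulVec u φ * B := by
      rw [hM, add_mul, smul_mul_assoc, one_mul]
    rw [e, trace_add, trace_smul, trace_mul_comm (vecMulVec u φ), fr_trace, hB, hconj, hCtr, hval]
    have h1 : ![a0, a1, a2] ⬝ᵥ (C *ᵥ ![1, 0, 0]) = a1 := by
      simp [hC, mulVec, dotProduct, Fin.sum_univ_three]
    rw [h1, ha1, smul_eq_mul]
    ring
  · rw [hBadj, hMadj]
    have e : B' * N = z⁻¹ • B' - z • (B' * vecMulVec u φ) := by
      rw [hN, mul_sub, mul_smul_comm, mul_smul_comm, mul_one]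
    rw [e, trace_sub, trace_smul, trace_smul, fr_trace, hB', hconj, hDtr, hval]
    have h1 : ![a0, a1, a2] ⬝ᵥ (D *ᵥ ![1, 0, 0]) = s' * a0 - s * a1 + a2 := by
      simp [hD, mulVec, dotProduct, Fin.sum_univ_three]
      ring
    rw [h1, ha2, ha0', smul_eq_mul, smul_eq_mul]
    field_simp
    ring

end Pool.Agent.PSL3
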