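import Pool.Agent.PSL3.FacTwo

/-! The explicit factorisation for the field with three elements (helper87). -/

set_option autoImplicit false

namespace Pool.Agent.PSL3

open Matrix

/-- the pairs of traces used over the field with three elements -/
def Ok3 {F : Type*} [Field F] (s s' : F) : Prop :=
  (s = 2 ∧ s' = 1) ∨ (s = 0 ∧ s' = 2) ∨ (s = 0 ∧ s' = 1) ∨ (s = 1 ∧ s' = 0)

instance {F : Type*} [Field F] [DecidableEq F] (s s' : F) : Decidable (Ok3 s s') := by
  unfold Ok3; infer_instance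

private theorem key : ∀ (s s' x l y z : ZMod 3), Ok3 s s' → z ≠ 0 →
    (z ^ 2 - l * z - (-z) ≠ 0 ∨ x + y * z ≠ 0) →
    ∃ τ u w : ZMod 3, w ≠ 0 ∧
      s = l * z * (s' - τ * (s - τ) + (s' - (-z) - l * u - y * w - z * (s - τ - u)))
      + z * (τ * (s' - τ * (s - τ) + (s' - (-z) - l * u - y * w - z * (s - τ - u))) - 1)
      - (s - τ - u) + w * ((-z) * y - x * l) - x * τ * w
      - (-z) * (τ * u - (s' - (-z) - l * u - y * w - z * (s - τ - u))) := by
  decide

private theorem pz : ∀ p z : ZMod 3, p * z = -1 → p = -z ∧ z ≠ 0 := by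
  decide

private theorem cubic3 : ∀ s s' : ZMod 3, (∀ r : ZMod 3, r ^ 3 - s * r ^ 2 + s' * r - 1 ≠ 0) →
    Ok3 s s' ∨ Ok3 s' s := by
  decide

private theorem sq3 : ∀ g : ZMod 3, g ≠ 0 → g * g = 1 := by
  decide

private theorem b3 : ∀ g m : ZMod 3, g ≠ 0 → g ≠ 1 → m ≠ 0 → Ok3 (g + m) (g + m * g) := by
  decide

/-- a ring isomorphism with `ZMod 3` -/
theorem exists_equiv3 {F : Type*} [Field F] [Finite F] (h3 : Nat.card F = 3) :
    Nonempty (ZMod 3 ≃+* F) := by
  classical
  have := Fintype.ofFinite F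
  rw [Nat.card_eq_fintype_card] at h3
  exact ⟨ZMod.ringEquivOfPrime F (by norm_num) h3⟩

theorem ok3_of_equiv {F : Type*} [Field F] (e : ZMod 3 ≃+* F) {s s' : ZMod 3} :
    Ok3 (e s) (e s') ↔ Ok3 s s' := by
  have h0 : (0 : F) = e 0 := (map_zero e).symm
  have h1 : (1 : F) = e 1 := (map_one e).symm
  have h2 : (2 : F) = e 2 := (map_ofNat e 2).symm
  unfold Ok3
  rw [h0, h1, h2]
  simp only [e.injective.eq_iff]

/-- explicit factorisation with four prescribed traces, invariant plane case, `|F| = 3` -/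
theorem fac_two3 {F : Type*} [Field F] [Finite F] (h3 : Nat.card F = 3) (s s' : F)
    (hs : Ok3 s s') {p x l y z : F} (hpz : p * z = -1)
    (h : z ^ 2 - l * z - p ≠ 0 ∨ x + y * z ≠ 0) :
    ∃ B : M3 F, B.det = 1 ∧ B.trace = s ∧ B.adjugate.trace = s' ∧
      ((!![0, p, x; 1, l, y; 0, 0, z] : M3 F) * B).trace = s' ∧
      (B.adjugate * (!![0, p, x; 1, l, y; 0, 0, z] : M3 F).adjugate).trace = s := by
  obtain ⟨e⟩ := exists_equiv3 h3
  obtain ⟨s, rfl⟩ := e.surjective s
  obtain ⟨s', rfl⟩ := e.surjective s'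
  obtain ⟨p, rfl⟩ := e.surjective p
  obtain ⟨x, rfl⟩ := e.surjective x
  obtain ⟨l, rfl⟩ := e.surjective l
  obtain ⟨y, rfl⟩ := e.surjective y
  obtain ⟨z, rfl⟩ := e.surjective z
  rw [ok3_of_equiv] at hs
  have hpz1 : p * z = -1 := by
    apply e.injective
    rw [map_mul, hpz, map_neg, map_one]
  obtain ⟨rfl, hz⟩ := pz p z hpz1
  have h' : z ^ 2 - l * z - (-z) ≠ 0 ∨ x + y * z ≠ 0 := by
    refine h.imp (fun h h0 => h ?_) (fun h h0 => h ?_)
    · rw [← map_pow, ← map_mul, ← map_sub, ← map_sub, h0, map_zero]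
    · rw [← map_mul, ← map_add, h0, map_zero]
  obtain ⟨τ, u, w, hw, hk⟩ := key s s' x l y z hs hz h'
  have hw' : e w ≠ 0 := fun h0 => hw (e.injective (by rw [h0, map_zero]))
  have hk' := congrArg e hk
  simp only [map_add, map_sub, map_mul, map_neg, map_one] at hk'
  refine build_two (τ := e τ) (u := e u) (w := e w) (v := e s - e τ - e u)
    (b12 := e s' - e (-z) - e l * e u - e y * e w - e z * (e s - e τ - e u))
    (D := e s' - e τ * (e s - e τ) +
      (e s' - e (-z) - e l * e u - e y * e w - e z * (e s - e τ - e u)))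
    (b23 := (e u * (e s - e τ - e u) - (e s' - e τ * (e s - e τ) +
      (e s' - e (-z) - e l * e u - e y * e w - e z * (e s - e τ - e u)))) / e w)
    (b13 := ((e s' - e (-z) - e l * e u - e y * e w - e z * (e s - e τ - e u)) *
      (e s - e τ - e u) - e τ * (e s' - e τ * (e s - e τ) +
      (e s' - e (-z) - e l * e u - e y * e w - e z * (e s - e τ - e u))) + 1) / e w)
    hpz rfl rfl rfl (div_mul_cancel₀ _ hw') (div_mul_cancel₀ _ hw') ?_
  rw [map_neg]
  exact hk'

/-- over the field with three elements a cubic without root has one of four pairs of traces -/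
theorem ok3_of_no_root {F : Type*} [Field F] [Finite F] (h3 : Nat.card F = 3) (s s' : F)
    (hr : ∀ r : F, r ^ 3 - s * r ^ 2 + s' * r - 1 ≠ 0) : Ok3 s s' ∨ Ok3 s' s := by
  obtain ⟨e⟩ := exists_equiv3 h3
  obtain ⟨s, rfl⟩ := e.surjective s
  obtain ⟨s', rfl⟩ := e.surjective s'
  rw [ok3_of_equiv, ok3_of_equiv]
  have hr' : ∀ r : ZMod 3, r ^ 3 - s * r ^ 2 + s' * r - 1 ≠ 0 := by
    intro r h0
    apply hr (e r)
    have := congrArg e h0
    simpa only [map_add, map_sub, map_mul, map_pow, map_one, map_zero] using this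
  exact cubic3 s s' hr'

/-- the traces of type b over the field with three elements -/
theorem ok3_b {F : Type*} [Field F] [Finite F] (h3 : Nat.card F = 3) (γ m : F) (hγ : Gen γ)
    (hm : m ≠ 0) : Ok3 (γ⁻¹ + m) (γ + m * γ⁻¹) := by
  obtain ⟨e⟩ := exists_equiv3 h3
  have hγ2 : γ ≠ 1 := by
    rintro rfl
    obtain ⟨i, hi⟩ := hγ.2 (e 2) (fun h0 => by
      have : (2 : ZMod 3) = 0 := e.injective (by rw [h0, map_zero])
      exact absurd this (by decide))
    rw [one_pow] at hi
    have : (1 : ZMod 3) = 2 := e.injective (by rw [map_one, hi])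
    exact absurd this (by decide)
  have hγ0 := hγ.1
  obtain ⟨γ, rfl⟩ := e.surjective γ
  obtain ⟨m, rfl⟩ := e.surjective m
  have h1 : γ ≠ 1 := fun h => hγ2 (by rw [h, map_one])
  have h0 : γ ≠ 0 := fun h => hγ0 (by rw [h, map_zero])
  have h2 : m ≠ 0 := fun h => hm (by rw [h, map_zero])
  have h4 : (e γ)⁻¹ = e γ := by
    have h5 : γ * γ = 1 := sq3 γ h0
    have h6 : e γ * e γ = 1 := by rw [← map_mul, h5, map_one]
    exact inv_eq_of_mul_eq_one_left h6
  rw [h4, ← map_add, ← map_mul, ← map_add, ok3_of_equiv]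
  exact b3 γ m h0 h1 h2

end Pool.Agent.PSL3
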