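import Pool.Agent.PSL3.Canon
import Pool.Agent.PSL3.FacThree
import Pool.Agent.PSL3.FacRank

/-! Factorisation with prescribed traces of a nonscalar element with an eigenvector (helper87). -/

set_option autoImplicit false

namespace Pool.Agent.PSL3

open Matrix

private theorem of_conj {F : Type*} [Field F] (A : SL3 F) (P N B : M3 F) (hP : P.det ≠ 0)
    (hN : ((A⁻¹ : SL3 F) : M3 F) * P = P * N) {s s' t t' : F} (hB : B.det = 1)
    (h1 : B.trace = s) (h2 : B.adjugate.trace = s') (h3 : (N * B).trace = t')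
    (h4 : (B.adjugate * N.adjugate).trace = t) :
    ∃ x y : SL3 F, Ty s s' x ∧ Ty t t' y ∧ x * y = A := by
  have hPu : IsUnit P.det := isUnit_iff_ne_zero.2 hP
  have hPP : P * P⁻¹ = 1 := Matrix.mul_nonsing_inv P hPu
  have hPP' : P⁻¹ * P = 1 := Matrix.nonsing_inv_mul P hPu
  have hdet : (P * B * P⁻¹).det = 1 := by
    rw [Matrix.det_mul, Matrix.det_mul, hB, mul_one, ← Matrix.det_mul, hPP, Matrix.det_one]
  have hBB : B * B.adjugate = 1 := by rw [Matrix.mul_adjugate, hB, one_smul]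
  have hBB' : B.adjugate * B = 1 := by rw [Matrix.adjugate_mul, hB, one_smul]
  set x : SL3 F := ⟨P * B * P⁻¹, hdet⟩ with hx
  have hxc : (x : M3 F) = P * B * P⁻¹ := rfl
  have hxi : ((x⁻¹ : SL3 F) : M3 F) = P * B.adjugate * P⁻¹ := by
    have e1 : (x : M3 F) * (P * B.adjugate * P⁻¹) = 1 := by
      rw [hxc]
      calc P * B * P⁻¹ * (P * B.adjugate * P⁻¹) = P * B * (P⁻¹ * P) * B.adjugate * P⁻¹ := by
            simp only [Matrix.mul_assoc]
        _ = P * (B * B.adjugate) * P⁻¹ := by rw [hPP', Matrix.mul_one, Matrix.mul_assoc P]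
        _ = 1 := by rw [hBB, Matrix.mul_one, hPP]
    have e2 : ((x⁻¹ : SL3 F) : M3 F) * (x : M3 F) = 1 := by
      rw [← Matrix.SpecialLinearGroup.coe_mul, inv_mul_cancel, Matrix.SpecialLinearGroup.coe_one]
    calc ((x⁻¹ : SL3 F) : M3 F) = ((x⁻¹ : SL3 F) : M3 F) * ((x : M3 F) * (P * B.adjugate * P⁻¹)) := by
          rw [e1, Matrix.mul_one]
      _ = P * B.adjugate * P⁻¹ := by rw [← Matrix.mul_assoc, e2, Matrix.one_mul]
  have hAi : ((A⁻¹ : SL3 F) : M3 F) = P * N * P⁻¹ := by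
    rw [← hN, Matrix.mul_assoc, hPP, Matrix.mul_one]
  have hdN : N.det = 1 := by
    have e := congrArg Matrix.det hAi
    rw [Matrix.SpecialLinearGroup.det_coe, Matrix.det_mul, Matrix.det_mul] at e
    have e2 : P.det * (P⁻¹).det = 1 := by rw [← Matrix.det_mul, hPP, Matrix.det_one]
    calc N.det = (P.det * (P⁻¹).det) * N.det := by rw [e2, one_mul]
      _ = 1 := by rw [e]; ring
  have hNN : N.adjugate * N = 1 := by rw [Matrix.adjugate_mul, hdN, one_smul]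
  have hA : (A : M3 F) = P * N.adjugate * P⁻¹ := by
    have e1 : (P * N.adjugate * P⁻¹) * ((A⁻¹ : SL3 F) : M3 F) = 1 := by
      rw [hAi]
      calc P * N.adjugate * P⁻¹ * (P * N * P⁻¹) = P * N.adjugate * (P⁻¹ * P) * N * P⁻¹ := by
            simp only [Matrix.mul_assoc]
        _ = P * (N.adjugate * N) * P⁻¹ := by rw [hPP', Matrix.mul_one, Matrix.mul_assoc P]
        _ = 1 := by rw [hNN, Matrix.mul_one, hPP]
    have e2 : ((A⁻¹ : SL3 F) : M3 F) * (A : M3 F) = 1 := by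
      rw [← Matrix.SpecialLinearGroup.coe_mul, inv_mul_cancel, Matrix.SpecialLinearGroup.coe_one]
    calc (A : M3 F) = ((P * N.adjugate * P⁻¹) * ((A⁻¹ : SL3 F) : M3 F)) * (A : M3 F) := by
          rw [e1, Matrix.one_mul]
      _ = P * N.adjugate * P⁻¹ := by rw [Matrix.mul_assoc, e2, Matrix.mul_one]
  refine ⟨x, x⁻¹ * A, ⟨?_, ?_⟩, ⟨?_, ?_⟩, by rw [mul_inv_cancel_left]⟩
  · rw [hxc, Matrix.trace_mul_comm, ← Matrix.mul_assoc, hPP', Matrix.one_mul, h1]
  · rw [hxi, Matrix.trace_mul_comm, ← Matrix.mul_assoc, hPP', Matrix.one_mul, h2]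
  · rw [Matrix.SpecialLinearGroup.coe_mul, hxi, hA, ← h4]
    calc (P * B.adjugate * P⁻¹ * (P * N.adjugate * P⁻¹)).trace
        = (P * (B.adjugate * (P⁻¹ * P) * N.adjugate) * P⁻¹).trace := by
          simp only [Matrix.mul_assoc]
      _ = (B.adjugate * N.adjugate).trace := by
          rw [hPP', Matrix.mul_one, Matrix.trace_mul_comm, ← Matrix.mul_assoc, hPP',
            Matrix.one_mul]
  · rw [_root_.mul_inv_rev, inv_inv, Matrix.SpecialLinearGroup.coe_mul, hAi, hxc, ← h3]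
    calc (P * N * P⁻¹ * (P * B * P⁻¹)).trace
        = (P * (N * (P⁻¹ * P) * B) * P⁻¹).trace := by simp only [Matrix.mul_assoc]
      _ = (N * B).trace := by
          rw [hPP', Matrix.mul_one, Matrix.trace_mul_comm, ← Matrix.mul_assoc, hPP',
            Matrix.one_mul]

/-- factorisation with prescribed traces, from the invariant plane case -/
theorem fac_gen {F : Type*} [Field F] (A : SL3 F) (hA : ¬ Sc A)
    (hev : ∃ (r : F) (w : Fin 3 → F), w ≠ 0 ∧ (A : M3 F) *ᵥ w = r • w) (s s' t t' : F)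
    (hnd : ∀ z : F, z ^ 3 = 1 → ¬ (t' = z * s ∧ t = z ^ 2 * s'))
    (htwo : ∀ p x l y z : F, p * z = -1 → (z ^ 2 - l * z - p ≠ 0 ∨ x + y * z ≠ 0) →
      ∃ B : M3 F, B.det = 1 ∧ B.trace = s ∧ B.adjugate.trace = s' ∧
      ((!![0, p, x; 1, l, y; 0, 0, z] : M3 F) * B).trace = t' ∧
      (B.adjugate * (!![0, p, x; 1, l, y; 0, 0, z] : M3 F).adjugate).trace = t) :
    ∃ x y : SL3 F, Ty s s' x ∧ Ty t t' y ∧ x * y = A := by
  have hcan : ((A⁻¹ : SL3 F) : M3 F) * (A : M3 F) = 1 := by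
    rw [← Matrix.SpecialLinearGroup.coe_mul, inv_mul_cancel, Matrix.SpecialLinearGroup.coe_one]
  have hcan' : (A : M3 F) * ((A⁻¹ : SL3 F) : M3 F) = 1 := by
    rw [← Matrix.SpecialLinearGroup.coe_mul, mul_inv_cancel, Matrix.SpecialLinearGroup.coe_one]
  have hM : ¬ Sc A⁻¹ := by
    rintro ⟨r, hr⟩
    apply hA
    have h1 : r • (A : M3 F) = 1 := by
      rw [← hcan, hr, Matrix.smul_mul, Matrix.one_mul]
    have hr0 : r ≠ 0 := by
      rintro rfl
      rw [zero_smul] at h1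
      exact zero_ne_one h1
    refine ⟨r⁻¹, ?_⟩
    rw [← h1, smul_smul, inv_mul_cancel₀ hr0, one_smul]
  rcases canon (A⁻¹) hM with h | ⟨P, p, x, l, y, z, hP, hpz, hor, hMP⟩ | ⟨z, u, φ, hu, hφ, hMe⟩
  · exfalso
    obtain ⟨r, w, hw, hAw⟩ := hev
    have hw1 : w = r • (((A⁻¹ : SL3 F) : M3 F) *ᵥ w) := by
      rw [← Matrix.mulVec_smul, ← hAw, Matrix.mulVec_mulVec, hcan, Matrix.one_mulVec]
    have hr0 : r ≠ 0 := by
      rintro rfl
      rw [zero_smul] at hw1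
      exact hw hw1
    refine hw (h r⁻¹ w ?_)
    conv_rhs => rw [hw1, smul_smul, inv_mul_cancel₀ hr0, one_smul]
  · obtain ⟨B, hB, h1, h2, h3, h4⟩ := htwo p x l y z hpz hor
    exact of_conj A P _ B hP hMP hB h1 h2 h3 h4
  · have hdet : (z • (1 : M3 F) + vecMulVec u φ).det = 1 := by
      rw [← hMe, Matrix.SpecialLinearGroup.det_coe]
    obtain ⟨B, hB, h1, h2, h3, h4⟩ := fac_rank s s' t t' z u φ hu hφ hdet (hnd z)
    refine of_conj A 1 (z • (1 : M3 F) + vecMulVec u φ) B (by simp) ?_ hB h1 h2 h3 h4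
    rw [Matrix.mul_one, Matrix.one_mul, hMe]

/-- factorisation with prescribed traces -/
theorem fac {F : Type*} [Field F] [Finite F] (hF : 5 ≤ Nat.card F) (A : SL3 F) (hA : ¬ Sc A)
    (hev : ∃ (r : F) (w : Fin 3 → F), w ≠ 0 ∧ (A : M3 F) *ᵥ w = r • w) (s s' t t' : F)
    (hnd : ∀ z : F, z ^ 3 = 1 → ¬ (t' = z * s ∧ t = z ^ 2 * s')) :
    ∃ x y : SL3 F, Ty s s' x ∧ Ty t t' y ∧ x * y = A :=
  fac_gen A hA hev s s' t t' hnd fun _ _ _ _ _ hpz hor => fac_two hF s s' t t' hpz hor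

/-- factorisation with prescribed traces, `|F| = 3` -/
theorem fac3 {F : Type*} [Field F] [Finite F] (h3 : Nat.card F = 3) (A : SL3 F) (hA : ¬ Sc A)
    (hev : ∃ (r : F) (w : Fin 3 → F), w ≠ 0 ∧ (A : M3 F) *ᵥ w = r • w) (s s' : F)
    (hs : Ok3 s s') (hnd : ∀ z : F, z ^ 3 = 1 → ¬ (s' = z * s ∧ s = z ^ 2 * s')) :
    ∃ x y : SL3 F, Ty s s' x ∧ Ty s s' y ∧ x * y = A :=
  fac_gen A hA hev s s' s s' hnd fun _ _ _ _ _ hpz hor => fac_two3 h3 s s' hs hpz hor

end Pool.Agent.PSL3
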