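import Pool.Agent.PSL3.Defs

/-! Products of two derangements in `PSL_3(q)`: all transvections with centre `u` (helper99).

`L = {ψ : ψ u = 0, 1 + u ψ ∈ H}` is an additive group; `b⁻¹ (1 + u ψ) b = 1 + γ u (ψ b)`, so `L` is closed under
`D ψ = γ (ψ b)`, and `D^(q+1) ψ = γ^(q+2) ψ = γ³ ψ`. `{a : a L ⊆ L}` is a subfield `K` of `F` which contains `γ³`, so
`q - 1` divides `3 (|K| - 1)`; if `K ≠ F` then `|K|² ≤ q` and `q ≤ 4`. So `L` is a linear subspace, it contains some `ψ₀ ≠ 0`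
and `ψ₀ b`, which is not a multiple of `ψ₀` (`DataB.dual`). -/

set_option autoImplicit false

namespace Pool.Agent.PSL3

open Matrix

section

variable {F : Type*} [Field F]

private theorem coe_mul' (A B : SL3 F) : ((A * B : SL3 F) : M3 F) = (A : M3 F) * (B : M3 F) :=
  Matrix.SpecialLinearGroup.coe_mul A B

private theorem coe_one' : ((1 : SL3 F) : M3 F) = 1 
    := Matrix.SpecialLinearGroup.coe_one

private def InL (H : Subgroup (SL3 F)) (u ψ : Fin 3 → F) : Prop := ψ ⬝ᵥ u = 0 ∧ TvIn H u ψ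

variable {H : Subgroup (SL3 F)} {u ψ ψ' : Fin 3 → F}

private theorem InL.zero : InL H u 0 := by
  refine ⟨zero_dotProduct u, 1, H.one_mem, ?_⟩
  rw [vecMulVec_zero, add_zero, coe_one']

private theorem mul_tv (h : ψ ⬝ᵥ u = 0) : (1 + vecMulVec u ψ) * (1 + vecMulVec u ψ') =
    1 + vecMulVec u (ψ + ψ') := by
  rw [add_mul, mul_add, mul_add, one_mul, one_mul, mul_one, vecMulVec_mul_vecMulVec, h, zero_smul,
    vecMulVec_zero, add_zero, vecMulVec_add]
  abel

private theorem InL.add (h : InL H u ψ) (h' : InL H u ψ') : InL H u (ψ + ψ') := by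
  obtain ⟨h0, A, hA, hA1⟩ := h
  obtain ⟨h0', A', hA', hA1'⟩ := h'
  refine ⟨by rw [add_dotProduct, h0, h0', add_zero], A * A', H.mul_mem hA hA', ?_⟩
  rw [coe_mul', hA1, hA1', mul_tv h0]

private theorem coe_inv_mul (A : SL3 F) : ((A⁻¹ : SL3 F) : M3 F) * (A : M3 F) = 1 := by
  rw [← coe_mul', inv_mul_cancel, coe_one']

private theorem InL.neg (h : InL H u ψ) : InL H u (-ψ) := by
  obtain ⟨h0, A, hA, hA1⟩ := h
  refine ⟨by rw [neg_dotProduct, h0, neg_zero], A⁻¹, H.inv_mem hA, ?_⟩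
  have h1 : (A : M3 F) * (1 + vecMulVec u (-ψ)) = 1 := by
    rw [hA1, mul_tv h0, add_neg_cancel, vecMulVec_zero, add_zero]
  calc ((A⁻¹ : SL3 F) : M3 F) = ((A⁻¹ : SL3 F) : M3 F) * ((A : M3 F) * (1 + vecMulVec u (-ψ))) := by
        rw [h1, mul_one]
    _ = 1 + vecMulVec u (-ψ) := by rw [← mul_assoc, coe_inv_mul, one_mul]

/-- conjugation with `b` -/
private theorem InL.conj {γ : F} {b : SL3 F} (hγ : γ ≠ 0) (hb : b ∈ H)
    (heig : (b : M3 F) *ᵥ u = γ⁻¹ • u) (h : InL H u ψ) : InL H u (γ • (ψ ᵥ* (b : M3 F))) := by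
  obtain ⟨h0, A, hA, hA1⟩ := h
  have h1 : ((b⁻¹ : SL3 F) : M3 F) *ᵥ u = γ • u := by
    have h2 : ((b⁻¹ : SL3 F) : M3 F) *ᵥ ((b : M3 F) *ᵥ u) = u := by
      rw [mulVec_mulVec, coe_inv_mul, one_mulVec]
    rw [heig, mulVec_smul] at h2
    calc ((b⁻¹ : SL3 F) : M3 F) *ᵥ u = γ • (γ⁻¹ • (((b⁻¹ : SL3 F) : M3 F) *ᵥ u)) := by
          rw [smul_smul, mul_inv_cancel₀ hγ, one_smul]
      _ = γ • u := by rw [h2]
  refine ⟨?_, b⁻¹ * A * b, H.mul_mem (H.mul_mem (H.inv_mem hb) hA) hb, ?_⟩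
  · rw [smul_dotProduct, ← dotProduct_mulVec, heig, dotProduct_smul, h0, smul_zero, smul_zero]
  · rw [coe_mul', coe_mul', hA1, mul_add, mul_one, add_mul,
      coe_inv_mul, mul_vecMulVec, h1, vecMulVec_mul, smul_vecMulVec, vecMulVec_smul]

private theorem InL.iter {γ : F} {b : SL3 F} (hγ : γ ≠ 0) (hb : b ∈ H)
    (heig : (b : M3 F) *ᵥ u = γ⁻¹ • u) (h : InL H u ψ) (n : ℕ) :
    InL H u (γ ^ n • (ψ ᵥ* (b : M3 F) ^ n)) := by
  induction n with
  | zero => rwa [pow_zero, pow_zero, one_smul, vecMul_one]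
  | succ n ih =>
    have h1 := ih.conj hγ hb heig
    rwa [smul_vecMul, vecMul_vecMul, smul_smul, ← pow_succ, ← pow_succ'] at h1

/-- the field of the multipliers -/
private def KK (H : Subgroup (SL3 F)) (u : Fin 3 → F) [Finite F] : Subfield F where
  carrier := {a | ∀ ψ, InL H u ψ → InL H u (a • ψ)}
  mul_mem' := by
    intro a c ha hc ψ h
    rw [mul_smul]
    exact ha _ (hc _ h)
  one_mem' := by
    intro ψ h
    rwa [one_smul]
  add_mem' := by
    intro a c ha hc ψ h
    rw [add_smul]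
    exact (ha _ h).add (hc _ h)
  zero_mem' := by
    intro ψ _
    rw [zero_smul]
    exact InL.zero
  neg_mem' := by
    intro a ha ψ h
    rw [neg_smul]
    exact (ha _ h).neg
  inv_mem' := by
    intro a ha ψ h
    have hpow : ∀ n : ℕ, ∀ ψ, InL H u ψ → InL H u (a ^ n • ψ) := by
      intro n
      induction n with
      | zero =>
        intro ψ h
        rwa [pow_zero, one_smul]
      | succ n ih =>
        intro ψ h
        rw [pow_succ, mul_smul]
        exact ih _ (ha _ h)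
    by_cases h0 : a = 0
    · rw [h0, _root_.inv_zero, zero_smul]
      exact InL.zero
    · have : Fintype F := Fintype.ofFinite F
      have h1 := FiniteField.pow_card_sub_one_eq_one a h0
      have h2 : 1 < Fintype.card F := Fintype.one_lt_card
      have h3 : a ^ (Fintype.card F - 2) = a⁻¹ := by
        apply eq_inv_of_mul_eq_one_left
        rw [← pow_succ, show Fintype.card F - 2 + 1 = Fintype.card F - 1 by omega, h1]
      rw [← h3]
      exact hpow _ _ h

private theorem mem_KK [Finite F] {a : F} : a ∈ KK H u ↔ ∀ ψ, InL H u ψ → InL H u (a • ψ) :=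
  Iff.rfl

end

/-- a subfield of a finite field is everything, or its square has at most `q` elements -/
private theorem card_sq_le {F : Type*} [Field F] [Finite F] {K : Subfield F} (hK : K ≠ ⊤) :
    Nat.card K ^ 2 ≤ Nat.card F := by
  have h1 : Nat.card F = Nat.card K ^ Module.finrank K F := Module.natCard_eq_pow_finrank
  have hpos : 0 < Nat.card K := Nat.card_pos
  have h2 : 2 ≤ Module.finrank K F := by
    by_contra hcon
    push Not at hcon
    have h3 : 0 < Module.finrank K F := Module.finrank_pos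
    have h4 : Module.finrank K F = 1 := by omega
    rw [h4, pow_one] at h1
    apply hK
    rw [eq_top_iff]
    intro x _
    have h5 : Function.Surjective (fun y : K => (y : F)) := by
      have := (Nat.bijective_iff_injective_and_card (fun y : K => (y : F))).2
        ⟨Subtype.val_injective, h1.symm⟩
      exact this.2
    obtain ⟨y, hy⟩ := h5 x
    rw [← hy]
    exact y.2
  rw [h1]
  exact Nat.pow_le_pow_right hpos h2

/-- powers of a generator -/
private theorem gen_pow {F : Type*} [Field F] [Finite F] {γ : F} (hγ : Gen γ) {m : ℕ} (hm : 0 < m)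
    (h : γ ^ m = 1) : Nat.card F ≤ m + 1 := by
  classical
  have : Fintype F := Fintype.ofFinite F
  rw [Nat.card_eq_fintype_card]
  have h1 : (Finset.univ : Finset F) ⊆ insert 0 ((Finset.range m).image fun i => γ ^ i) := by
    intro a _
    rw [Finset.mem_insert, Finset.mem_image]
    by_cases ha : a = 0
    · exact Or.inl ha
    · obtain ⟨i, hi⟩ := hγ.2 a ha
      refine Or.inr ⟨i % m, Finset.mem_range.2 (Nat.mod_lt _ hm), ?_⟩
      rw [← hi]
      conv_rhs => rw [← Nat.div_add_mod i m, pow_add, pow_mul, h, one_pow, one_mul]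
  have h2 := (Finset.card_le_card h1).trans (Finset.card_insert_le _ _)
  have h3 := Finset.card_image_le (s := Finset.range m) (f := fun i => γ ^ i)
  rw [Finset.card_range] at h3
  rw [Finset.card_univ] at h2
  omega

/-- module Lam -/
theorem all_tv {F : Type*} [Field F] [Finite F] (h4F : Nat.card F ≠ 4) (γ : F) (hγ : Gen γ)
    (H : Subgroup (SL3 F)) (b : SL3 F) (hb : b ∈ H) (u φ : Fin 3 → F) (hD : DataB γ b u φ)
    (hex : ∃ ψ : Fin 3 → F, ψ ≠ 0 ∧ ψ ⬝ᵥ u = 0 ∧ TvIn H u ψ) (ψ : Fin 3 → F)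
    (hψ : ψ ⬝ᵥ u = 0) : TvIn H u ψ := by
  have hγ0 := hγ.1
  have hu0 : u ≠ 0 := by
    intro h
    have := hD.dot
    rw [h, dotProduct_zero] at this
    exact zero_ne_one this
  -- `γ³` is a multiplier
  have hmem : γ ^ 3 ∈ KK H u := by
    rw [mem_KK]
    intro χ hχ
    have h1 := hχ.iter hγ0 hb hD.eig (Nat.card F + 1)
    have h2 : χ ᵥ* (b : M3 F) ^ (Nat.card F + 1) = γ • χ := by
      rw [hD.hom, vecMul_smul, vecMul_add, vecMul_one, vecMul_smul, vecMul_vecMulVec, hχ.1]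
      simp
    rw [h2, smul_smul, ← pow_succ] at h1
    have h3 : γ ^ (Nat.card F + 1 + 1) = γ ^ 3 := by
      have : Fintype F := Fintype.ofFinite F
      rw [Nat.card_eq_fintype_card, show Fintype.card F + 1 + 1 = Fintype.card F + 2 by ring, pow_add,
        FiniteField.pow_card]
      ring
    rwa [h3] at h1
  have htop : KK H u = ⊤ := by
    by_contra hK
    have h1 := card_sq_le hK
    have hK1 : 1 < Nat.card (KK H u) := Finite.one_lt_card
    have h2 : (γ ^ 3) ^ (Nat.card (KK H u) - 1) = 1 := by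
      have : Fintype (KK H u) := Fintype.ofFinite _
      have h3 := FiniteField.pow_card_sub_one_eq_one (⟨γ ^ 3, hmem⟩ : KK H u) (by
        intro h
        exact pow_ne_zero 3 hγ0 (congrArg Subtype.val h))
      rw [← Nat.card_eq_fintype_card] at h3
      exact congrArg Subtype.val h3
    rw [← pow_mul] at h2
    have h3 := gen_pow hγ (by omega) h2
    obtain ⟨k, hk⟩ : ∃ k, Nat.card (KK H u) = k + 1 := ⟨Nat.card (KK H u) - 1, by omega⟩
    rw [hk] at h1 h3 hK1
    rw [Nat.add_sub_cancel] at h3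
    have h4 : k ≤ 1 := by
      by_contra hcon
      push Not at hcon
      nlinarith
    have h5 : k = 1 := by omega
    subst h5
    omega
  have hsmul : ∀ (a : F) (χ : Fin 3 → F), InL H u χ → InL H u (a • χ) := by
    intro a χ hχ
    have h1 : a ∈ KK H u := by
      rw [htop]
      trivial
    exact mem_KK.1 h1 χ hχ
  obtain ⟨ψ₀, h0, hψ₀, ht⟩ := hex
  have hL0 : InL H u ψ₀ := ⟨hψ₀, ht⟩
  have hL1 : InL H u (ψ₀ ᵥ* (b : M3 F)) := by
    have h1 := hsmul γ⁻¹ _ (hL0.conj hγ0 hb hD.eig)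
    rwa [smul_smul, inv_mul_cancel₀ hγ0, one_smul] at h1
  have hind : ∀ t : F, ψ₀ ᵥ* (b : M3 F) ≠ t • ψ₀ := fun t h => h0 (hD.dual t ψ₀ hψ₀ h)
  -- three vectors of the plane are dependent
  have hdet : (Matrix.of ![ψ, ψ₀, ψ₀ ᵥ* (b : M3 F)] : M3 F).det = 0 := by
    apply exists_mulVec_eq_zero_iff.1
    refine ⟨u, hu0, ?_⟩
    funext i
    fin_cases i
    · exact hψ
    · exact hψ₀
    · exact hL1.1
  obtain ⟨v, hv0, hv⟩ := exists_vecMul_eq_zero_iff.2 hdet
  have hv' : v 0 • ψ + v 1 • ψ₀ + v 2 • (ψ₀ ᵥ* (b : M3 F)) = 0 := by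
    rw [← hv]
    funext j
    simp [vecMul, dotProduct, Fin.sum_univ_three]
  have hne : v 0 ≠ 0 := by
    intro h
    rw [h, zero_smul, zero_add] at hv'
    by_cases h2 : v 2 = 0
    · rw [h2, zero_smul, add_zero] at hv'
      rcases smul_eq_zero.1 hv' with h3 | h3
      · apply hv0
        funext i
        fin_cases i
        · exact h
        · exact h3
        · exact h2
      · exact h0 h3
    · apply hind (-((v 2)⁻¹ * v 1))
      have h3 : v 2 • (ψ₀ ᵥ* (b : M3 F)) = -(v 1 • ψ₀) := by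
        rw [eq_neg_iff_add_eq_zero, add_comm]
        exact hv'
      calc ψ₀ ᵥ* (b : M3 F) = (v 2)⁻¹ • (v 2 • (ψ₀ ᵥ* (b : M3 F))) := by
            rw [smul_smul, inv_mul_cancel₀ h2, one_smul]
        _ = -((v 2)⁻¹ * v 1) • ψ₀ := by rw [h3, smul_neg, smul_smul, neg_smul]
  have hfin : ψ = (-((v 0)⁻¹ * v 1)) • ψ₀ + (-((v 0)⁻¹ * v 2)) • (ψ₀ ᵥ* (b : M3 F)) := by
    have h3 : v 0 • ψ = -(v 1 • ψ₀ + v 2 • (ψ₀ ᵥ* (b : M3 F))) := by
      rw [eq_neg_iff_add_eq_zero, ← add_assoc]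
      exact hv'
    calc ψ = (v 0)⁻¹ • (v 0 • ψ) := by rw [smul_smul, inv_mul_cancel₀ hne, one_smul]
      _ = _ := by
          rw [h3, smul_neg, smul_add, smul_smul, smul_smul, neg_add, neg_smul, neg_smul]
  rw [hfin]
  exact ((hsmul _ _ hL0).add (hsmul _ _ hL1)).2

end Pool.Agent.PSL3
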