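import Pool.Agent.PSL3.Defs

/-! Transvections generate SL_3(F) (helper14 for helper87). -/

set_option autoImplicit false

namespace Pool.Agent.PSL3

open Matrix

variable {F : Type*} [Field F]

/-- the matrix lies in `H` -/
private def InH (H : Subgroup (SL3 F)) (M : M3 F) : Prop := ∃ A ∈ H, ((A : SL3 F) : M3 F) = M

private theorem InH.mul {H : Subgroup (SL3 F)} {M N : M3 F} (h1 : InH H M) (h2 : InH H N) :
    InH H (M * N) := by
  obtain ⟨A, hA, rfl⟩ := h1
  obtain ⟨B, hB, rfl⟩ := h2
  exact ⟨A * B, H.mul_mem hA hB, Matrix.SpecialLinearGroup.coe_mul A B⟩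

private theorem InH.one {H : Subgroup (SL3 F)} : InH H (1 : M3 F) :=
  ⟨1, H.one_mem, Matrix.SpecialLinearGroup.coe_one⟩

private theorem InH.tv {H : Subgroup (SL3 F)}
    (h : ∀ w ψ : Fin 3 → F, ψ ⬝ᵥ w = 0 → TvIn H w ψ) (i j : Fin 3) (hij : i ≠ j) (c : F) :
    InH H (transvection i j c) := by
  obtain ⟨A, hA, e⟩ := h (Pi.single i c) (Pi.single j 1) (by
    rw [single_dotProduct, Pi.single_eq_of_ne hij.symm, mul_zero])
  refine ⟨A, hA, ?_⟩
  rw [e, transvection]
  congr 1
  ext a b
  rw [vecMulVec_apply, Matrix.single_apply]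
  by_cases ha : i = a
  · subst ha
    by_cases hb : j = b
    · subst hb
      simp
    · rw [if_neg (by tauto), Pi.single_eq_of_ne (Ne.symm hb), mul_zero]
  · rw [if_neg (by tauto), Pi.single_eq_of_ne (Ne.symm ha), zero_mul]

private theorem InH.list {H : Subgroup (SL3 F)}
    (h : ∀ w ψ : Fin 3 → F, ψ ⬝ᵥ w = 0 → TvIn H w ψ) (L : List (TransvectionStruct (Fin 3) F)) :
    InH H (L.map TransvectionStruct.toMatrix).prod := by
  induction L with
  | nil => simpa using InH.one
  | cons t L ih =>
    rw [List.map_cons, List.prod_cons]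
    exact (InH.tv h t.i t.j t.hij t.c).mul ih

private theorem diag01 (a : F) (ha : a ≠ 0) :
    (diagonal ![a, a⁻¹, 1] : M3 F) =
      transvection 0 1 a * transvection 1 0 (-a⁻¹) * transvection 0 1 a *
        (transvection 0 1 (-1) * transvection 1 0 1 * transvection 0 1 (-1)) := by
  ext i j
  fin_cases i <;> fin_cases j <;>
    simp [transvection, Matrix.mul_apply, Fin.sum_univ_three, Matrix.single_apply,
      Matrix.one_apply, ha]

private theorem diag12 (a : F) (ha : a ≠ 0) :
    (diagonal ![1, a, a⁻¹] : M3 F) =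
      transvection 1 2 a * transvection 2 1 (-a⁻¹) * transvection 1 2 a *
        (transvection 1 2 (-1) * transvection 2 1 1 * transvection 1 2 (-1)) := by
  ext i j
  fin_cases i <;> fin_cases j <;>
    simp [transvection, Matrix.mul_apply, Fin.sum_univ_three, Matrix.single_apply,
      Matrix.one_apply, ha]

/-- module Top -/
theorem top_of_tv {F : Type*} [Field F] (H : Subgroup (SL3 F))
    (h : ∀ w ψ : Fin 3 → F, ψ ⬝ᵥ w = 0 → TvIn H w ψ) : H = ⊤ := by
  rw [eq_top_iff]
  intro g _
  obtain ⟨L, L', D, hD⟩ :=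
    Pivot.exists_list_transvec_mul_diagonal_mul_list_transvec (g : M3 F)
  have hdet : D 0 * D 1 * D 2 = 1 := by
    have h1 := g.2
    have h2 : (g : M3 F).det = 1 := h1
    rw [hD, det_mul, det_mul, TransvectionStruct.det_toMatrix_prod,
      TransvectionStruct.det_toMatrix_prod, det_diagonal, Fin.prod_univ_three] at h2
    simpa using h2
  have h0 : D 0 ≠ 0 := by
    intro h0
    rw [h0] at hdet
    simp at hdet
  have h1 : D 1 ≠ 0 := by
    intro h1
    rw [h1] at hdet
    simp at hdet
  have hdiag : (diagonal D : M3 F) =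
      diagonal ![D 0, (D 0)⁻¹, 1] * diagonal ![1, D 0 * D 1, (D 0 * D 1)⁻¹] := by
    rw [diagonal_mul_diagonal]
    congr 1
    funext i
    fin_cases i
    · simp
    · simp [h0]
    · have : D 2 = (D 0 * D 1)⁻¹ := eq_inv_of_mul_eq_one_right hdet
      simpa using this
  have hin : InH H (diagonal D : M3 F) := by
    rw [hdiag, diag01 _ h0, diag12 _ (mul_ne_zero h0 h1)]
    have t : ∀ (i j : Fin 3) (hij : i ≠ j) (c : F), InH H (transvection i j c) :=
      fun i j hij c => InH.tv h i j hij c
    refine InH.mul (InH.mul (InH.mul (InH.mul ?_ ?_) ?_) (InH.mul (InH.mul ?_ ?_) ?_))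
      (InH.mul (InH.mul (InH.mul ?_ ?_) ?_) (InH.mul (InH.mul ?_ ?_) ?_))
    all_goals exact t _ _ (by decide) _
  have hg : InH H (g : M3 F) := by
    rw [hD]
    exact ((InH.list h L).mul hin).mul (InH.list h L')
  obtain ⟨A, hA, e⟩ := hg
  have : A = g := Subtype.ext e
  rw [← this]
  exact hA

end Pool.Agent.PSL3
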