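import Pool.Agent.PSL3.Pol

/-! A subgroup which is transitive on the lines and contains a homology contains a transvection
(helper26). -/

set_option autoImplicit false

namespace Pool.Agent.PSL3

open Matrix

private theorem tv_inv_mul {F : Type*} [Field F] (k : SL3 F) :
    ((k⁻¹ : SL3 F) : M3 F) * (k : M3 F) = 1 := by
  rw [← Matrix.SpecialLinearGroup.coe_mul, inv_mul_cancel, Matrix.SpecialLinearGroup.coe_one]

private theorem tv_mul_inv {F : Type*} [Field F] (k : SL3 F) :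
    (k : M3 F) * ((k⁻¹ : SL3 F) : M3 F) = 1 := by
  rw [← Matrix.SpecialLinearGroup.coe_mul, mul_inv_cancel, Matrix.SpecialLinearGroup.coe_one]

/-- conjugation of a rank one matrix -/
private theorem tv_conj {F : Type*} [Field F] (k k' : M3 F) (w φ : Fin 3 → F) :
    k * vecMulVec w φ * k' = vecMulVec (k *ᵥ w) (φ ᵥ* k') := by
  rw [mul_vecMulVec, vecMulVec_mul]

private theorem tv_pair {F : Type*} [Field F] (k : SL3 F) (φ w : Fin 3 → F) :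
    (φ ᵥ* ((k⁻¹ : SL3 F) : M3 F)) ⬝ᵥ ((k : M3 F) *ᵥ w) = φ ⬝ᵥ w := by
  rw [dotProduct_mulVec, vecMul_vecMul, tv_inv_mul, vecMul_one]

/-- conjugation of a homology -/
private theorem hom_conj {F : Type*} [Field F] (γ : F) (H : Subgroup (SL3 F)) (w w' φ : Fin 3 → F)
    (t : F) (k : SL3 F) (hk : k ∈ H) (hw : (k : M3 F) *ᵥ w = t • w') (h : HomIn γ H w φ)
    (h1 : φ ⬝ᵥ w = 1) :
    HomIn γ H w' (t • (φ ᵥ* ((k⁻¹ : SL3 F) : M3 F))) ∧
      (t • (φ ᵥ* ((k⁻¹ : SL3 F) : M3 F))) ⬝ᵥ w' = 1 := by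
  constructor
  · obtain ⟨A, hA, e⟩ := h
    refine ⟨k * A * k⁻¹, H.mul_mem (H.mul_mem hk hA) (H.inv_mem hk), ?_⟩
    rw [Matrix.SpecialLinearGroup.coe_mul, Matrix.SpecialLinearGroup.coe_mul, e, mul_smul_comm,
      smul_mul_assoc, mul_add, add_mul, mul_one, tv_mul_inv, mul_smul_comm, smul_mul_assoc, tv_conj,
      hw, smul_vecMulVec, vecMulVec_smul]
  · rw [smul_dotProduct, ← dotProduct_smul, ← hw, tv_pair, h1]

theorem exists_tv {F : Type*} [Field F] [Finite F] (γ : F) (hγ : γ ≠ 0) (hγ3 : γ ^ 3 ≠ 1)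
    (H : Subgroup (SL3 F)) (u φ : Fin 3 → F) (hu : φ ⬝ᵥ u = 1) (hT : TransFrom H u)
    (hH : HomIn γ H u φ) : ∃ ψ : Fin 3 → F, ψ ≠ 0 ∧ ψ ⬝ᵥ u = 0 ∧ TvIn H u ψ := by
  classical
  have hμ : γ⁻¹ ^ 3 - 1 ≠ 0 := by
    intro h
    apply hγ3
    have h1 : (γ⁻¹) ^ 3 = 1 := sub_eq_zero.1 h
    rw [inv_pow, inv_eq_one] at h1
    exact h1
  by_cases huniq : ∀ w : Fin 3 → F, w ≠ 0 → ∀ φ1 φ2 : Fin 3 → F, HomIn γ H w φ1 → φ1 ⬝ᵥ w = 1 →
      HomIn γ H w φ2 → φ2 ⬝ᵥ w = 1 → φ1 = φ2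
  · exfalso
    have hex : ∀ w : Fin 3 → F, ∃ φ' : Fin 3 → F, w ≠ 0 → (φ' ⬝ᵥ w = 1 ∧ HomIn γ H w φ') := by
      intro w
      by_cases hw : w = 0
      · exact ⟨0, fun h => absurd hw h⟩
      · obtain ⟨k, hk, t, -, e⟩ := hT w hw
        obtain ⟨i1, i2⟩ := hom_conj γ H u w φ t k hk e hH hu
        exact ⟨_, fun _ => ⟨i2, i1⟩⟩
    choose Φ hΦ using hex
    refine no_pol Φ (fun u hu => (hΦ u hu).1) ?_
    intro u w hu hw h0
    obtain ⟨h1, A, hA, e⟩ := hΦ u hu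
    have hAw : (A : M3 F) *ᵥ w = γ • w := by
      rw [e, smul_mulVec, add_mulVec, one_mulVec, smul_mulVec, vecMulVec_mulVec, h0]
      simp
    obtain ⟨i1, i2⟩ := hom_conj γ H w w (Φ w) γ A hA hAw (hΦ w hw).2 (hΦ w hw).1
    have i3 := huniq w hw _ _ i1 i2 (hΦ w hw).2 (hΦ w hw).1
    have i4 : (γ • (Φ w ᵥ* ((A⁻¹ : SL3 F) : M3 F))) ᵥ* (A : M3 F) = Φ w ᵥ* (A : M3 F) := by
      rw [i3]
    rw [smul_vecMul, vecMul_vecMul, tv_inv_mul, vecMul_one, e, vecMul_smul, vecMul_add, vecMul_one,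
      vecMul_smul, vecMul_vecMulVec, smul_add] at i4
    have i5 : γ • ((γ⁻¹ ^ 3 - 1) • (Φ w ⬝ᵥ u) • Φ u) = 0 := by
      have := i4
      simpa using this
    have i6 : (γ * ((γ⁻¹ ^ 3 - 1) * (Φ w ⬝ᵥ u))) = 0 := by
      have := congrArg (fun v => v ⬝ᵥ u) i5
      simp only [smul_dotProduct, h1, zero_dotProduct, smul_eq_mul, mul_one] at this
      exact this
    rcases mul_eq_zero.1 i6 with h | h
    · exact absurd h hγ
    · rcases mul_eq_zero.1 h with h | h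
      · exact absurd h hμ
      · exact h
  · push Not at huniq
    obtain ⟨w, hw, φ1, φ2, ⟨A1, hA1, e1⟩, d1, ⟨A2, hA2, e2⟩, d2, hne⟩ := huniq
    let ψ : Fin 3 → F := (1 - γ ^ 3) • (φ2 - φ1)
    have hc : (1 - γ ^ 3) ≠ 0 := fun h => hγ3 (sub_eq_zero.1 h).symm
    have hψ0 : ψ ≠ 0 := smul_ne_zero hc (sub_ne_zero.2 (Ne.symm hne))
    have hψw : ψ ⬝ᵥ w = 0 := by
      rw [smul_dotProduct, sub_dotProduct, d1, d2, sub_self, smul_zero]
    have hg : ((A1 : SL3 F) : M3 F) * (1 + vecMulVec w ψ) = ((A2 : SL3 F) : M3 F) := by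
      rw [e1, e2, smul_mul_assoc]
      congr 1
      rw [add_mul, one_mul, mul_add, mul_one, smul_mul_assoc, vecMulVec_mul_vecMulVec, d1]
      ext i j
      simp only [Matrix.add_apply, Matrix.smul_apply, vecMulVec_apply, smul_eq_mul, ψ,
        Pi.smul_apply, Pi.sub_apply, one_mul]
      field_simp
      ring
    obtain ⟨k, hk, t, ht, e⟩ := hT w hw
    refine ⟨t⁻¹ • (ψ ᵥ* (k : M3 F)), ?_, ?_, ?_⟩
    · intro h
      have h1 : ψ ᵥ* (k : M3 F) = 0 := by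
        rcases smul_eq_zero.1 h with h | h
        · exact absurd (inv_eq_zero.1 h) ht
        · exact h
      apply hψ0
      have h2 : (ψ ᵥ* (k : M3 F)) ᵥ* ((k⁻¹ : SL3 F) : M3 F) = 0 := by rw [h1, zero_vecMul]
      rwa [vecMul_vecMul, tv_mul_inv, vecMul_one] at h2
    · rw [smul_dotProduct, ← dotProduct_mulVec, e, dotProduct_smul, hψw, smul_zero, smul_zero]
    · refine ⟨k⁻¹ * (A1⁻¹ * A2) * k, H.mul_mem (H.mul_mem (H.inv_mem hk)
        (H.mul_mem (H.inv_mem hA1) hA2)) hk, ?_⟩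
      have h3 : ((A1⁻¹ * A2 : SL3 F) : M3 F) = 1 + vecMulVec w ψ := by
        rw [Matrix.SpecialLinearGroup.coe_mul, ← hg, ← mul_assoc, tv_inv_mul, one_mul]
      have h4 : ((k⁻¹ : SL3 F) : M3 F) *ᵥ w = t⁻¹ • u := by
        have h5 : w = t⁻¹ • ((k : M3 F) *ᵥ u) := by rw [e, smul_smul, inv_mul_cancel₀ ht, one_smul]
        rw [h5, mulVec_smul, mulVec_mulVec, tv_inv_mul, one_mulVec]
      rw [Matrix.SpecialLinearGroup.coe_mul, Matrix.SpecialLinearGroup.coe_mul, h3, mul_add, mul_one,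
        add_mul, tv_inv_mul, tv_conj, h4, smul_vecMulVec, vecMulVec_smul]

end Pool.Agent.PSL3
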