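import Pool.Agent.PSL3.Count
import Pool.Agent.PSL3.Tv
import Pool.Agent.PSL3.Lam
import Pool.Agent.PSL3.Top

/-! A subgroup of `SL_3(q)` with an element of type c and one of type b is everything (helper87). -/

set_option autoImplicit false

namespace Pool.Agent.PSL3

open Matrix

/-- conjugation of transvections -/
private theorem conj_tv {F : Type*} [Field F] {H : Subgroup (SL3 F)} {k : SL3 F} (hk : k ∈ H)
    {u ψ : Fin 3 → F} (h : TvIn H u ψ) :
    TvIn H ((k : M3 F) *ᵥ u) (ψ ᵥ* ((k⁻¹ : SL3 F) : M3 F)) := by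
  obtain ⟨A, hA, hAe⟩ := h
  refine ⟨k * A * k⁻¹, H.mul_mem (H.mul_mem hk hA) (H.inv_mem hk), ?_⟩
  have hkk : (k : M3 F) * ((k⁻¹ : SL3 F) : M3 F) = 1 := by
    rw [← Matrix.SpecialLinearGroup.coe_mul, mul_inv_cancel, Matrix.SpecialLinearGroup.coe_one]
  rw [Matrix.SpecialLinearGroup.coe_mul, Matrix.SpecialLinearGroup.coe_mul, hAe, Matrix.mul_add,
    Matrix.add_mul, Matrix.mul_one, hkk, Matrix.mul_vecMulVec, Matrix.vecMulVec_mul]

private theorem gamma_cube {F : Type*} [Field F] [Finite F] (hF : 3 ≤ Nat.card F)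
    (h4 : Nat.card F ≠ 4) {γ : F} (hγ : Gen γ) : γ ^ 3 ≠ 1 := by
  classical
  intro h3
  have := Fintype.ofFinite F
  have hsub : (Finset.univ : Finset F) ⊆ {0, 1, γ, γ ^ 2} := by
    intro a _
    by_cases ha : a = 0
    · simp [ha]
    obtain ⟨i, rfl⟩ := hγ.2 a ha
    have hi : γ ^ i = γ ^ (i % 3) := by
      conv_lhs => rw [← Nat.div_add_mod i 3, pow_add, pow_mul, h3, one_pow, one_mul]
    have : i % 3 < 3 := Nat.mod_lt _ (by norm_num)
    rw [hi]
    interval_cases (i % 3) <;> simp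
  have hc : (Finset.univ : Finset F).card ≤ 4 :=
    (Finset.card_le_card hsub).trans Finset.card_le_four
  rw [Finset.card_univ, ← Nat.card_eq_fintype_card] at hc
  have h5 : Fintype.card F = 3 := by
    rw [← Nat.card_eq_fintype_card]
    omega
  have h6 : γ ^ 2 = 1 := by
    have := FiniteField.pow_card_sub_one_eq_one γ hγ.1
    rwa [h5] at this
  have h7 : γ = 1 := by
    have : γ ^ 3 = γ ^ 2 * γ := pow_succ γ 2
    rw [h3, h6, one_mul] at this
    exact this.symm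
  have hsub2 : (Finset.univ : Finset F) ⊆ {0, 1} := by
    intro a _
    by_cases ha : a = 0
    · simp [ha]
    obtain ⟨i, rfl⟩ := hγ.2 a ha
    rw [h7, one_pow]
    simp
  have hc2 : (Finset.univ : Finset F).card ≤ 2 :=
    (Finset.card_le_card hsub2).trans Finset.card_le_two
  rw [Finset.card_univ, h5] at hc2
  omega

/-- a subgroup with elements of both types is everything -/
theorem gen {F : Type*} [Field F] [Finite F] (hF : 3 ≤ Nat.card F) (h4 : Nat.card F ≠ 4)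
    (H : Subgroup (SL3 F))
    (γ : F) (hγ : Gen γ) (c b : SL3 F) (hc : c ∈ H) (hb : b ∈ H) (hPc : Pc c)
    (hPb : Pb γ b) : H = ⊤ := by
  obtain ⟨u, φ, hD⟩ := hPb
  have hT := transFrom hF H γ hγ.1 c b hc hb hPc u φ hD
  have hH : HomIn γ H u φ :=
    ⟨b ^ (Nat.card F + 1), H.pow_mem hb _, by rw [Matrix.SpecialLinearGroup.coe_pow]; exact hD.hom⟩
  have hex := exists_tv γ hγ.1 (gamma_cube hF h4 hγ) H u φ hD.dot hT hH
  refine top_of_tv H fun w ψ hψ => ?_
  by_cases hw : w = 0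
  · refine ⟨1, H.one_mem, ?_⟩
    rw [hw, Matrix.SpecialLinearGroup.coe_one]
    ext i j
    simp [vecMulVec_apply]
  obtain ⟨k, hk, t, ht, hkt⟩ := hT w hw
  have hkk : (k : M3 F) * ((k⁻¹ : SL3 F) : M3 F) = 1 := by
    rw [← Matrix.SpecialLinearGroup.coe_mul, mul_inv_cancel, Matrix.SpecialLinearGroup.coe_one]
  have h0 : (t⁻¹ • (ψ ᵥ* (k : M3 F))) ⬝ᵥ u = 0 := by
    rw [smul_dotProduct, ← Matrix.dotProduct_mulVec, hkt, dotProduct_smul, hψ, smul_zero,
      smul_zero]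
  have h1 := conj_tv hk (all_tv h4 γ hγ H b hb u φ hD hex _ h0)
  rw [hkt, Matrix.smul_vecMul, Matrix.vecMul_vecMul, hkk, Matrix.vecMul_one] at h1
  obtain ⟨A, hA, hAe⟩ := h1
  refine ⟨A, hA, ?_⟩
  rw [hAe]
  congr 1
  ext i j
  simp only [vecMulVec_apply, Pi.smul_apply, smul_eq_mul]
  field_simp

end Pool.Agent.PSL3
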