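import Pool.Agent.PSL3.Defs

/-! # PSL3 / IrrB: matrices without eigenvectors are products of two matrices of type b

`β = γ⁻¹`, `X = [β 0 0; 1 0 -γ; 0 1 m]`, `Y = [β r₁ r₂; 0 0 -γ; 0 1 m]`: `r₁, r₂` can be solved so that
`X Y` has the traces of `A` and `A⁻¹`. Both `X Y` and `A` are conjugate to the companion matrix of their
common characteristic polynomial, with the basis `e, N e, N² e`, `e = (1, 0, 0)`. -/

set_option autoImplicit false

namespace Pool.Agent.PSL3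

open Matrix

/-- the sum of the principal minors -/
private def ib_e2 {F : Type*} [Field F] (N : M3 F) : F :=
  N 0 0 * N 1 1 - N 0 1 * N 1 0 + (N 0 0 * N 2 2 - N 0 2 * N 2 0) +
    (N 1 1 * N 2 2 - N 1 2 * N 2 1)

private theorem ib_tr_inv {F : Type*} [Field F] (x : SL3 F) :
    Matrix.trace ((x⁻¹ : SL3 F) : M3 F) = ib_e2 (x : M3 F) := by
  rw [Matrix.SpecialLinearGroup.coe_inv, Matrix.adjugate_fin_three, Matrix.trace_fin_three]
  unfold ib_e2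
  simp
  ring

private def ib_kr {F : Type*} [Field F] (N : M3 F) : M3 F :=
  !![1, N 0 0, N 0 0 * N 0 0 + N 0 1 * N 1 0 + N 0 2 * N 2 0;
    0, N 1 0, N 1 0 * N 0 0 + N 1 1 * N 1 0 + N 1 2 * N 2 0;
    0, N 2 0, N 2 0 * N 0 0 + N 2 1 * N 1 0 + N 2 2 * N 2 0]

private def ib_co {F : Type*} [Field F] (s s' : F) : M3 F := !![0, 0, 1; 1, 0, -s'; 0, 1, s]

private theorem ib_ch {F : Type*} [Field F] (N : M3 F) (hN : N.det = 1) :
    N * ib_kr N = ib_kr N * ib_co (Matrix.trace N) (ib_e2 N) := by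
  rw [Matrix.det_fin_three] at hN
  rw [Matrix.trace_fin_three]
  unfold ib_kr ib_co ib_e2
  ext i j
  fin_cases i <;> fin_cases j <;> simp [Matrix.mul_apply, Fin.sum_univ_three]
  · linear_combination hN
  · ring
  · ring

private theorem ib_kr_det {F : Type*} [Field F] (N : M3 F) : (ib_kr N).det =
    N 2 1 * N 1 0 ^ 2 + (N 2 2 - N 1 1) * N 1 0 * N 2 0 - N 1 2 * N 2 0 ^ 2 := by
  rw [Matrix.det_fin_three]
  unfold ib_kr
  simp
  ring

private theorem ib_kr_ne {F : Type*} [Field F] (N : M3 F)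
    (hN : ∀ (t : F) (w : Fin 3 → F), N *ᵥ w = t • w → w = 0) : (ib_kr N).det ≠ 0 := by
  intro h0
  rw [ib_kr_det] at h0
  -- the first basis vector is not an eigenvector
  have h1 : ¬ (N 1 0 = 0 ∧ N 2 0 = 0) := by
    rintro ⟨h1, h2⟩
    have h3 := hN (N 0 0) ![1, 0, 0] (by
      ext i
      fin_cases i <;> simp [Matrix.mulVec, dotProduct, Fin.sum_univ_three, h1, h2])
    have h4 := congrFun h3 0
    simp at h4
  -- the left eigenvector
  have h2 : ∃ t : F, -N 2 0 * N 1 1 + N 1 0 * N 2 1 = t * -N 2 0 ∧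
      -N 2 0 * N 1 2 + N 1 0 * N 2 2 = t * N 1 0 := by
    by_cases hp : N 1 0 = 0
    · have hq : N 2 0 ≠ 0 := fun h => h1 ⟨hp, h⟩
      refine ⟨(-N 2 0 * N 1 1 + N 1 0 * N 2 1) / -N 2 0, ?_, ?_⟩
      · rw [div_mul_cancel₀ _ (neg_ne_zero.2 hq)]
      · rw [hp] at h0 ⊢
        have h3 : N 1 2 * N 2 0 ^ 2 = 0 := by linear_combination (-1 : F) * h0
        have h4 : N 1 2 = 0 := (mul_eq_zero.1 h3).resolve_right (pow_ne_zero 2 hq)
        rw [h4]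
        ring
    · refine ⟨(-N 2 0 * N 1 2 + N 1 0 * N 2 2) / N 1 0, ?_, ?_⟩
      · field_simp
        linear_combination h0
      · rw [div_mul_cancel₀ _ hp]
  obtain ⟨t, ht1, ht2⟩ := h2
  have h3 : ∃ v : Fin 3 → F, v ≠ 0 ∧ v ᵥ* (N - t • (1 : M3 F)) = 0 := by
    refine ⟨![0, -N 2 0, N 1 0], ?_, ?_⟩
    · intro h
      apply h1
      have h4 := congrFun h 1
      have h5 := congrFun h 2
      simp at h4 h5
      exact ⟨h5, h4⟩
    · ext i
      fin_cases i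
      · simp [Matrix.vecMul, dotProduct, Fin.sum_univ_three]
        ring
      · simp [Matrix.vecMul, dotProduct, Fin.sum_univ_three]
        linear_combination ht1
      · simp [Matrix.vecMul, dotProduct, Fin.sum_univ_three]
        linear_combination ht2
  rw [Matrix.exists_vecMul_eq_zero_iff, ← Matrix.exists_mulVec_eq_zero_iff] at h3
  obtain ⟨w, hw, hw0⟩ := h3
  apply hw
  apply hN t w
  rw [Matrix.sub_mulVec, Matrix.smul_mulVec, Matrix.one_mulVec, sub_eq_zero] at hw0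
  exact hw0

private theorem ib_conj {F : Type*} [Field F] (P Q : M3 F) (hPQ : P * Q = 1) (X : SL3 F)
    (s s' : F) (h : Ty s s' X) : ∃ x : SL3 F, (x : M3 F) = P * (X : M3 F) * Q ∧ Ty s s' x := by
  have hQP : Q * P = 1 := mul_eq_one_comm.1 hPQ
  have hd : ∀ Z : SL3 F, (P * (Z : M3 F) * Q).det = 1 := by
    intro Z
    have h1 : P.det * Q.det = 1 := by rw [← Matrix.det_mul, hPQ, Matrix.det_one]
    rw [Matrix.det_mul, Matrix.det_mul, Z.2, mul_one, h1]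
  have htr : ∀ Z : M3 F, Matrix.trace (P * Z * Q) = Matrix.trace Z := by
    intro Z
    rw [Matrix.trace_mul_comm, ← Matrix.mul_assoc, hQP, Matrix.one_mul]
  obtain ⟨x, hx⟩ : ∃ x : SL3 F, (x : M3 F) = P * (X : M3 F) * Q := ⟨⟨_, hd X⟩, rfl⟩
  obtain ⟨y, hy⟩ : ∃ y : SL3 F, (y : M3 F) = P * ((X⁻¹ : SL3 F) : M3 F) * Q :=
    ⟨⟨_, hd X⁻¹⟩, rfl⟩
  have hinv : x⁻¹ = y := by
    apply inv_eq_of_mul_eq_one_right
    apply Subtype.ext
    show (x : M3 F) * (y : M3 F) = 1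
    rw [hx, hy]
    have h1 : (X : M3 F) * ((X⁻¹ : SL3 F) : M3 F) = 1 := by
      rw [← Matrix.SpecialLinearGroup.coe_mul, mul_inv_cancel, Matrix.SpecialLinearGroup.coe_one]
    calc P * (X : M3 F) * Q * (P * ((X⁻¹ : SL3 F) : M3 F) * Q)
        = P * (X : M3 F) * (Q * P) * ((X⁻¹ : SL3 F) : M3 F) * Q := by
          simp only [Matrix.mul_assoc]
      _ = P * ((X : M3 F) * ((X⁻¹ : SL3 F) : M3 F)) * Q := by
          rw [hQP, Matrix.mul_one]
          simp only [Matrix.mul_assoc]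
      _ = 1 := by rw [h1, Matrix.mul_one, hPQ]
  refine ⟨x, hx, ?_, ?_⟩
  · rw [hx, htr]
    exact h.1
  · rw [hinv, hy, htr]
    exact h.2

/-- module IrrB: block form -/
theorem irr_b {F : Type*} [Field F] (A : SL3 F)
    (hA : ∀ (t : F) (w : Fin 3 → F), (A : M3 F) *ᵥ w = t • w → w = 0) (γ m : F) (hγ : γ ≠ 0)
    (hm : m ≠ 0) :
    ∃ x y : SL3 F, Ty (γ⁻¹ + m) (γ + m * γ⁻¹) x ∧ Ty (γ⁻¹ + m) (γ + m * γ⁻¹) y ∧
      x * y = A := by
  obtain ⟨β, hβ⟩ : ∃ β : F, β = γ⁻¹ := ⟨_, rfl⟩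
  have hβγ : β * γ = 1 := by rw [hβ, inv_mul_cancel₀ hγ]
  have hβ0 : β ≠ 0 := by rw [hβ]; exact inv_ne_zero hγ
  obtain ⟨e, he⟩ : ∃ e : F, e = ib_e2 (A : M3 F) := ⟨_, rfl⟩
  obtain ⟨r1, hr1⟩ : ∃ r1 : F, r1 = Matrix.trace (A : M3 F) - β ^ 2 - m ^ 2 + 2 * γ := ⟨_, rfl⟩
  obtain ⟨r2, hr2⟩ : ∃ r2 : F, r2 * m = -2 * β + β ^ 2 * m ^ 2 + r1 * (m ^ 2 - γ) + γ ^ 2 - e :=
    ⟨(-2 * β + β ^ 2 * m ^ 2 + r1 * (m ^ 2 - γ) + γ ^ 2 - e) / m, div_mul_cancel₀ _ hm⟩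
  rw [← hβ]
  obtain ⟨X, hX⟩ : ∃ X : SL3 F, (X : M3 F) = !![β, 0, 0; 1, 0, -γ; 0, 1, m] :=
    ⟨⟨!![β, 0, 0; 1, 0, -γ; 0, 1, m], by
      rw [Matrix.det_fin_three]
      simp
      linear_combination hβγ⟩, rfl⟩
  obtain ⟨Y, hY⟩ : ∃ Y : SL3 F, (Y : M3 F) = !![β, r1, r2; 0, 0, -γ; 0, 1, m] :=
    ⟨⟨!![β, r1, r2; 0, 0, -γ; 0, 1, m], by
      rw [Matrix.det_fin_three]
      simp
      linear_combination hβγ⟩, rfl⟩
  have hXT : Ty (β + m) (γ + m * β) X := by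
    constructor
    · rw [hX, Matrix.trace_fin_three]
      simp
    · rw [ib_tr_inv, hX]
      unfold ib_e2
      simp
      ring
  have hYT : Ty (β + m) (γ + m * β) Y := by
    constructor
    · rw [hY, Matrix.trace_fin_three]
      simp
    · rw [ib_tr_inv, hY]
      unfold ib_e2
      simp
      ring
  obtain ⟨M, hM⟩ : ∃ M : M3 F, M = (X : M3 F) * (Y : M3 F) := ⟨_, rfl⟩
  have hMe : M = !![β ^ 2, β * r1, β * r2; β, r1 - γ, r2 - γ * m; 0, m, m ^ 2 - γ] := by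
    rw [hM, hX, hY]
    ext i j
    fin_cases i <;> fin_cases j <;> simp [Matrix.mul_apply, Fin.sum_univ_three] <;> ring
  have hMd : M.det = 1 := by rw [hM, Matrix.det_mul, X.2, Y.2, mul_one]
  have hMt : Matrix.trace M = Matrix.trace (A : M3 F) := by
    rw [hMe, Matrix.trace_fin_three]
    simp
    linear_combination hr1
  have hM2 : ib_e2 M = ib_e2 (A : M3 F) := by
    rw [hMe, ← he]
    unfold ib_e2
    simp
    linear_combination (-1 : F) * hr2 - 2 * β * hβγ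
  have hMk : (ib_kr M).det ≠ 0 := by
    rw [ib_kr_det, hMe]
    simp
    exact ⟨hm, hβ0⟩
  have hAk : (ib_kr (A : M3 F)).det ≠ 0 := ib_kr_ne _ hA
  have c1 := ib_ch M hMd
  have c2 := ib_ch (A : M3 F) A.2
  rw [hMt, hM2] at c1
  set C := ib_co (Matrix.trace (A : M3 F)) (ib_e2 (A : M3 F))
  set R := ib_kr M
  set S := ib_kr (A : M3 F)
  have hRu : IsUnit R.det := isUnit_iff_ne_zero.2 hMk
  have hSu : IsUnit S.det := isUnit_iff_ne_zero.2 hAk
  have hRi : R⁻¹ * R = 1 := Matrix.nonsing_inv_mul R hRu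
  have hRi' : R * R⁻¹ = 1 := Matrix.mul_nonsing_inv R hRu
  have hSi' : S * S⁻¹ = 1 := Matrix.mul_nonsing_inv S hSu
  have hPQ : (S * R⁻¹) * (R * S⁻¹) = 1 := by
    calc (S * R⁻¹) * (R * S⁻¹) = S * (R⁻¹ * R) * S⁻¹ := by simp only [Matrix.mul_assoc]
      _ = 1 := by rw [hRi, Matrix.mul_one, hSi']
  have hQP : (R * S⁻¹) * (S * R⁻¹) = 1 := mul_eq_one_comm.1 hPQ
  obtain ⟨x, hx, hxT⟩ := ib_conj (S * R⁻¹) (R * S⁻¹) hPQ X _ _ hXT
  obtain ⟨y, hy, hyT⟩ := ib_conj (S * R⁻¹) (R * S⁻¹) hPQ Y _ _ hYT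
  refine ⟨x, y, hxT, hyT, ?_⟩
  apply Subtype.ext
  show (x : M3 F) * (y : M3 F) = (A : M3 F)
  rw [hx, hy]
  calc (S * R⁻¹) * (X : M3 F) * (R * S⁻¹) * ((S * R⁻¹) * (Y : M3 F) * (R * S⁻¹))
      = (S * R⁻¹) * (X : M3 F) * ((R * S⁻¹) * (S * R⁻¹)) * (Y : M3 F) * (R * S⁻¹) := by
        simp only [Matrix.mul_assoc]
    _ = S * R⁻¹ * (M * R) * S⁻¹ := by
        rw [hQP, Matrix.mul_one, hM]
        simp only [Matrix.mul_assoc]
    _ = S * (R⁻¹ * R) * C * S⁻¹ := by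
        rw [c1]
        simp only [Matrix.mul_assoc]
    _ = (A : M3 F) * (S * S⁻¹) := by
        rw [hRi, Matrix.mul_one, ← c2, Matrix.mul_assoc]
    _ = (A : M3 F) := by rw [hSi', Matrix.mul_one]

end Pool.Agent.PSL3
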