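import Pool.Agent.PSL3.Defs

/-!
# PSL3 / IrrC

`A` without eigenvector: `K = F[X]/(charpoly A)` is a field with `q³` elements acting on `F³`, `K^*` is
cyclic with generator `θ`, `ω = θ^(q-1)` has order `v = q² + q + 1` and determinant `1`; the class `a` of
`X` (acting as `A`) has norm `det A = 1`, so `a ^ v = 1` and `a = ω ^ j`. As `v` is odd, `j` is a sum of
two numbers prime to `v` modulo `v`.
-/

set_option autoImplicit false

namespace Pool.Agent.PSL3

open Matrix Polynomial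

/-- In a finite commutative ring some power of every element is idempotent. -/
private theorem ic_idem {R : Type*} [CommRing R] [Finite R] (r : R) :
    ∃ k : ℕ, 1 ≤ k ∧ r ^ k * r ^ k = r ^ k := by
  obtain ⟨m, n, hmn, h⟩ : ∃ m n : ℕ, m ≠ n ∧ r ^ m = r ^ n :=
    Finite.exists_ne_map_eq_of_infinite (fun n : ℕ => r ^ n)
  wlog hlt : m < n generalizing m n
  · exact this n m hmn.symm h.symm (by omega)
  obtain ⟨d, hd, rfl⟩ : ∃ d, 1 ≤ d ∧ n = m + d := ⟨n - m, by omega, by omega⟩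
  have h1 : ∀ j i : ℕ, r ^ (m + j + d * i) = r ^ (m + j) := by
    intro j i
    induction i with
    | zero => simp
    | succ i ih =>
      have e1 : m + j + d * (i + 1) = (m + d) + (j + d * i) := by ring
      have e2 : m + (j + d * i) = m + j + d * i := by ring
      rw [e1, pow_add, ← h, ← pow_add, e2, ih]
  have hm : m ≤ d * (m + 1) := by nlinarith
  refine ⟨d * (m + 1), by nlinarith, ?_⟩
  obtain ⟨j, hj⟩ : ∃ j, d * (m + 1) = m + j := ⟨d * (m + 1) - m, by omega⟩
  have h2 := h1 j (m + 1)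
  rw [← hj] at h2
  rw [← pow_add]
  exact h2

/-- In a finite commutative ring with `2` invertible every element is a sum of two units. -/
private theorem ic_two {R : Type*} [CommRing R] [Finite R] (h2 : IsUnit (2 : R)) (r : R) :
    ∃ u v : Rˣ, (u : R) + (v : R) = r := by
  obtain ⟨k, hk, hkk⟩ := ic_idem r
  obtain ⟨t, ht⟩ := h2.exists_right_inv
  obtain ⟨e, he⟩ : ∃ e, e = r ^ k := ⟨_, rfl⟩
  rw [← he] at hkk
  obtain ⟨p, hp⟩ : ∃ p, r * p = e := ⟨r ^ (k - 1), by
    rw [he, ← pow_succ']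
    congr 1
    omega⟩
  obtain ⟨S, hS⟩ : ∃ S, (1 - r) * S = 1 - e := ⟨∑ i ∈ Finset.range k, r ^ i, by
    rw [mul_neg_geom_sum, he]⟩
  have e1 : e * (1 - e) = 0 := by linear_combination -hkk
  have e2 : (1 - e) * (1 - e) = 1 - e := by linear_combination hkk
  have u1 : (2 * r * e + (1 - e)) * (t * p * e + (1 - e)) = 1 := by
    calc (2 * r * e + (1 - e)) * (t * p * e + (1 - e)) =
        (2 * t) * (r * p) * (e * e) + (2 * r + t * p) * (e * (1 - e)) + (1 - e) * (1 - e) := by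
          ring
      _ = 1 * e * e + 0 + (1 - e) := by rw [ht, hp, hkk, e1, e2, mul_zero]
      _ = 1 := by linear_combination hkk
  have u2 : (-(r * e + (1 - r) * (1 - e))) * (-(p * e + S * (1 - e))) = 1 := by
    calc (-(r * e + (1 - r) * (1 - e))) * (-(p * e + S * (1 - e))) =
        (r * p) * (e * e) + (r * S + (1 - r) * p) * (e * (1 - e)) +
          ((1 - r) * S) * ((1 - e) * (1 - e)) := by ring
      _ = 1 := by
          rw [hp, hS, e1]
          linear_combination 3 * hkk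
  refine ⟨⟨2 * r * e + (1 - e), _, u1, by rw [mul_comm]; exact u1⟩,
    ⟨-(r * e + (1 - r) * (1 - e)), _, u2, by rw [mul_comm]; exact u2⟩, ?_⟩
  show 2 * r * e + (1 - e) + -(r * e + (1 - r) * (1 - e)) = r
  ring

/-- Every residue modulo an odd number is a sum of two units. -/
private theorem ic_num (v : ℕ) (hv : Odd v) (j : ℕ) :
    ∃ α β : ℕ, α.Coprime v ∧ β.Coprime v ∧ α + β ≡ j [MOD v] := by
  have hv0 : v ≠ 0 := by
    rintro rfl
    exact absurd hv (by decide)
  haveI : NeZero v := ⟨hv0⟩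
  have h2 : IsUnit ((2 : ℕ) : ZMod v) := (ZMod.isUnit_iff_coprime 2 v).2
    (Nat.coprime_two_left.2 hv)
  obtain ⟨u, w, huw⟩ := ic_two (R := ZMod v) (by exact_mod_cast h2) (j : ZMod v)
  refine ⟨(u : ZMod v).val, (w : ZMod v).val, ZMod.val_coe_unit_coprime u,
    ZMod.val_coe_unit_coprime w, ?_⟩
  rw [← ZMod.natCast_eq_natCast_iff]
  push_cast
  rw [ZMod.natCast_zmod_val, ZMod.natCast_zmod_val, huw]

/-- The action of `F[X]/(f)` on `F³`. -/
private theorem ic_hom {F : Type*} [Field F] (M : M3 F) (f : F[X]) (hf : aeval M f = 0) :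
    ∃ φ : AdjoinRoot f →+* M3 F, φ (AdjoinRoot.root f) = M ∧
      ∀ t : F, φ (AdjoinRoot.of f t) = t • (1 : M3 F) := by
  refine ⟨Ideal.Quotient.lift (Ideal.span {f}) ((aeval M : F[X] →ₐ[F] M3 F) : F[X] →+* M3 F) ?_,
    ?_, ?_⟩
  · intro g hg
    obtain ⟨y, rfl⟩ := Ideal.mem_span_singleton.1 hg
    show aeval M (f * y) = 0
    rw [map_mul, hf, zero_mul]
  · show aeval M (X : F[X]) = M
    exact aeval_X _
  · intro t
    show aeval M (C t : F[X]) = _
    rw [aeval_C, Algebra.algebraMap_eq_smul_one]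

theorem irr_c {F : Type*} [Field F] [Finite F] (A : SL3 F)
    (hA : ∀ (t : F) (w : Fin 3 → F), (A : M3 F) *ᵥ w = t • w → w = 0) :
    ∃ x y : SL3 F, Pc x ∧ Pc y ∧ x * y = A := by
  classical
  haveI : Fintype F := Fintype.ofFinite F
  set M : M3 F := (A : M3 F) with hM
  obtain ⟨f, hfdef⟩ : ∃ f : F[X], f = M.charpoly := ⟨_, rfl⟩
  have hmon : f.Monic := by rw [hfdef]; exact M.charpoly_monic
  have hdeg : f.natDegree = 3 := by
    rw [hfdef, charpoly_natDegree_eq_dim, Fintype.card_fin]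
  have haev : aeval M f = 0 := by rw [hfdef]; exact M.aeval_self_charpoly
  have hroot : ∀ t : F, ¬ f.IsRoot t := by
    intro t ht
    have h1 : (scalar (Fin 3) t - M).det = 0 := by
      rw [← eval_charpoly, ← hfdef]
      exact ht
    obtain ⟨w, hw, hw0⟩ := exists_mulVec_eq_zero_iff.2 h1
    apply hw
    apply hA t w
    rw [sub_mulVec, sub_eq_zero] at hw0
    rw [← hw0]
    ext i
    simp [Matrix.scalar_apply, Matrix.mulVec_diagonal]
  have hirr : Irreducible f := by
    refine irreducible_of_degree_le_three_of_not_isRoot ?_ hroot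
    rw [hdeg]
    decide
  haveI : Fact (Irreducible f) := ⟨hirr⟩
  have hf0 : f ≠ 0 := hmon.ne_zero
  let pb := AdjoinRoot.powerBasis hf0
  haveI : Module.Finite F (AdjoinRoot f) := pb.finite
  haveI : Finite (AdjoinRoot f) := Module.finite_of_finite F
  obtain ⟨φ, hφa, hφt⟩ := ic_hom M f haev
  obtain ⟨a, ha⟩ : ∃ a : AdjoinRoot f, a = AdjoinRoot.root f := ⟨_, rfl⟩
  obtain ⟨q, hq⟩ : ∃ q : ℕ, q = Nat.card F := ⟨_, rfl⟩
  have hq1 : 1 < q := by rw [hq]; exact Finite.one_lt_card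
  obtain ⟨v, hv⟩ : ∃ v : ℕ, v = q ^ 2 + q + 1 := ⟨_, rfl⟩
  have hv0 : 0 < v := by rw [hv]; omega
  have hcard : Nat.card (AdjoinRoot f) = q ^ 3 := by
    have h6 : pb.dim = 3 := by
      show (AdjoinRoot.powerBasis hf0).dim = 3
      rw [AdjoinRoot.powerBasis_dim, hdeg]
    rw [Module.natCard_eq_pow_finrank (K := F), pb.finrank, hq, h6]
  have hqv : q ^ 3 - 1 = (q - 1) * v := by
    obtain ⟨r, rfl⟩ : ∃ r, q = r + 1 := ⟨q - 1, by omega⟩
    rw [hv, Nat.add_sub_cancel]
    have : (r + 1) ^ 3 = r * ((r + 1) ^ 2 + (r + 1) + 1) + 1 := by ring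
    omega
  -- the norm of `a`
  have hav : a ^ v = 1 := by
    have h1 := FiniteField.algebraMap_norm_eq_pow (K := F) (x := a)
    rw [hcard, ← hq, hqv, Nat.mul_div_cancel_left _ (by omega)] at h1
    rw [← h1]
    have h2 : Algebra.norm F a = 1 := by
      have h3 := Algebra.PowerBasis.norm_gen_eq_coeff_zero_minpoly pb
      have h4 : pb.gen = a := by
        rw [ha]
        exact AdjoinRoot.powerBasis_gen hf0
      have h5 : minpoly F pb.gen = f := AdjoinRoot.minpoly_powerBasis_gen_of_monic hmon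
      have h6 : pb.dim = 3 := by
        show (AdjoinRoot.powerBasis hf0).dim = 3
        rw [AdjoinRoot.powerBasis_dim, hdeg]
      rw [h5, h4, h6] at h3
      have h7 := det_eq_sign_charpoly_coeff M
      rw [← hfdef, Fintype.card_fin] at h7
      rw [h3, ← h7]
      exact A.2
    rw [h2, map_one]
  have ha0 : a ≠ 0 := by
    rintro h0
    rw [h0, zero_pow hv0.ne'] at hav
    exact zero_ne_one hav
  -- a generator
  obtain ⟨θ, hθ⟩ := IsCyclic.exists_generator (α := (AdjoinRoot f)ˣ)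
  have hoθ : orderOf θ = (q - 1) * v := by
    rw [orderOf_eq_card_of_forall_mem_zpowers hθ, Nat.card_units, hcard, hqv]
  obtain ⟨ω, hω⟩ : ∃ ω : (AdjoinRoot f)ˣ, ω = θ ^ (q - 1) := ⟨_, rfl⟩
  have hoω : orderOf ω = v := by
    rw [hω, orderOf_pow_of_dvd (by omega) (by rw [hoθ]; exact dvd_mul_right _ _), hoθ,
      Nat.mul_div_cancel_left _ (by omega)]
  obtain ⟨aU, haU⟩ : ∃ aU : (AdjoinRoot f)ˣ, (aU : AdjoinRoot f) = a := ⟨Units.mk0 a ha0, rfl⟩
  have haUv : aU ^ v = 1 := by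
    apply Units.ext
    rw [Units.val_pow_eq_pow_val, haU, hav, Units.val_one]
  obtain ⟨j, hj⟩ : ∃ j : ℕ, ω ^ j = aU := by
    obtain ⟨i, hi⟩ := (mem_powers_iff_mem_zpowers.2 (hθ aU) : aU ∈ Submonoid.powers θ)
    simp only at hi
    have h1 : θ ^ (i * v) = 1 := by rw [pow_mul, hi, haUv]
    have h2 := orderOf_dvd_of_pow_eq_one h1
    rw [hoθ] at h2
    obtain ⟨j, hj⟩ := Nat.dvd_of_mul_dvd_mul_right hv0 h2
    exact ⟨j, by rw [hω, ← pow_mul, ← hj, hi]⟩
  have hodd : Odd v := by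
    rw [hv]
    have : q ^ 2 + q + 1 = q * (q + 1) + 1 := by ring
    rw [this]
    exact Even.add_one (Nat.even_mul_succ_self q)
  obtain ⟨α, β, hα, hβ, hαβ⟩ := ic_num v hodd j
  -- the element of `SL_3`
  have hdetne : ∀ z : (AdjoinRoot f)ˣ, (φ (z : AdjoinRoot f)).det ≠ 0 := by
    intro z hz
    have h1 : φ (z : AdjoinRoot f) * φ ((z⁻¹ : (AdjoinRoot f)ˣ) : AdjoinRoot f) = 1 := by
      rw [← map_mul, Units.mul_inv, map_one]
    have h2 := congrArg Matrix.det h1
    rw [det_mul, hz, zero_mul, det_one] at h2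
    exact zero_ne_one h2
  have hdetω : (φ (ω : AdjoinRoot f)).det = 1 := by
    rw [hω, Units.val_pow_eq_pow_val, map_pow, det_pow, hq, Nat.card_eq_fintype_card]
    exact FiniteField.pow_card_sub_one_eq_one _ (hdetne θ)
  let ωS : SL3 F := ⟨φ (ω : AdjoinRoot f), hdetω⟩
  have hpow : ∀ n : ℕ, ((ωS ^ n : SL3 F) : M3 F) = φ ((ω : AdjoinRoot f) ^ n) := by
    intro n
    exact (Matrix.SpecialLinearGroup.coe_pow ωS n).trans (map_pow φ _ n).symm
  have hPc : ∀ α : ℕ, α.Coprime v → Pc (ωS ^ α) := by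
    intro α hα k t w hw h
    rw [hpow, ← map_pow, ← pow_mul] at h
    have h1 : (ω : AdjoinRoot f) ^ (α * k) = AdjoinRoot.of f t := by
      by_contra hne
      have hz : (ω : AdjoinRoot f) ^ (α * k) - AdjoinRoot.of f t ≠ 0 := sub_ne_zero.2 hne
      have h2 : φ ((ω : AdjoinRoot f) ^ (α * k) - AdjoinRoot.of f t) *ᵥ w = 0 := by
        rw [map_sub, hφt, sub_mulVec, h, smul_mulVec, one_mulVec, sub_self]
      have h3 : φ (((ω : AdjoinRoot f) ^ (α * k) - AdjoinRoot.of f t)⁻¹) *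
          φ ((ω : AdjoinRoot f) ^ (α * k) - AdjoinRoot.of f t) = 1 := by
        rw [← map_mul, inv_mul_cancel₀ hz, map_one]
      apply hw
      rw [← one_mulVec w, ← h3, ← mulVec_mulVec, h2, mulVec_zero]
    have h4 : t ^ 3 = 1 := by
      have h5 : (φ ((ω : AdjoinRoot f) ^ (α * k))).det = (φ (AdjoinRoot.of f t)).det := by
        rw [h1]
      rw [map_pow, det_pow, hdetω, one_pow, hφt, det_smul, det_one, mul_one,
        Fintype.card_fin] at h5
      exact h5.symm
    have h6 : ω ^ (α * k * 3) = 1 := by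
      apply Units.ext
      rw [Units.val_pow_eq_pow_val, pow_mul, h1, ← map_pow, h4, map_one, Units.val_one]
    have h7 := orderOf_dvd_of_pow_eq_one h6
    rw [hoω] at h7
    have h8 : v ∣ α * (3 * k) := by
      have e : α * k * 3 = α * (3 * k) := by ring
      rwa [e] at h7
    have h9 := (Nat.Coprime.symm hα).dvd_of_dvd_mul_left h8
    rw [hv, hq] at h9
    exact h9
  refine ⟨ωS ^ α, ωS ^ β, hPc α hα, hPc β hβ, ?_⟩
  apply Subtype.ext
  rw [← pow_add]
  have h1 : ω ^ (α + β) = ω ^ j := by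
    rw [pow_eq_pow_iff_modEq, hoω]
    exact hαβ
  have h2 : ((ωS ^ (α + β) : SL3 F) : M3 F) = M := by
    rw [hpow, ← Units.val_pow_eq_pow_val, h1, hj, haU, ha, hφa]
  exact h2

end Pool.Agent.PSL3
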