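import Pool.Agent.PSL3.Defs

/-!
# PSL3 / TypesC: existence of the traces of type c (helper42)
-/

set_option autoImplicit false

namespace Pool.Agent.PSL3

open Matrix Polynomial

/-- the elements fixed by `a ↦ a ^ q` come from `F` -/
private theorem mem_base {F E : Type*} [Field F] [Finite F] [Field E] [Algebra F E] {a : E}
    (ha : a ^ Nat.card F = a) : ∃ b : F, algebraMap F E b = a := by
  classical
  have := Fintype.ofFinite F
  have hq : 1 < Nat.card F := Finite.one_lt_card
  have hne : (X ^ Nat.card F - X : E[X]) ≠ 0 := FiniteField.X_pow_card_sub_X_ne_zero E hq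
  have hdeg : (X ^ Nat.card F - X : E[X]).natDegree = Nat.card F :=
    FiniteField.X_pow_card_sub_X_natDegree_eq E hq
  by_contra hcon
  push Not at hcon
  have hnot : a ∉ Finset.univ.image (algebraMap F E) := by
    intro h
    obtain ⟨b, -, hb⟩ := Finset.mem_image.1 h
    exact hcon b hb
  have hS : (insert a (Finset.univ.image (algebraMap F E))).card = Nat.card F + 1 := by
    rw [Finset.card_insert_of_notMem hnot,
      Finset.card_image_of_injective _ (algebraMap F E).injective, Finset.card_univ,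
      Nat.card_eq_fintype_card]
  have hsub : insert a (Finset.univ.image (algebraMap F E)) ⊆
      (X ^ Nat.card F - X : E[X]).roots.toFinset := by
    intro b hb
    rw [Multiset.mem_toFinset, mem_roots hne, IsRoot, eval_sub, eval_pow, eval_X]
    rcases Finset.mem_insert.1 hb with rfl | hb
    · rw [ha, sub_self]
    · obtain ⟨c, -, rfl⟩ := Finset.mem_image.1 hb
      rw [← map_pow, Nat.card_eq_fintype_card, FiniteField.pow_card, sub_self]
  have h1 := Finset.card_le_card hsub
  have h2 := Multiset.toFinset_card_le (X ^ Nat.card F - X : E[X]).roots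
  have h3 := card_roots' (X ^ Nat.card F - X : E[X])
  omega

/-- Cayley and Hamilton in `SL_3` -/
private theorem ch {F : Type*} [Field F] (x : SL3 F) {s s' : F} (h : Ty s s' x) :
    (x : M3 F) ^ 3 - s • (x : M3 F) ^ 2 + s' • (x : M3 F) - 1 = 0 := by
  obtain ⟨h1, h2⟩ := h
  have hd : (x : M3 F).det = 1 := x.2
  rw [Matrix.SpecialLinearGroup.coe_inv, Matrix.adjugate_fin_three, Matrix.trace_fin_three] at h2
  rw [Matrix.trace_fin_three] at h1
  rw [Matrix.det_fin_three] at hd
  subst h1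
  subst h2
  generalize (x : M3 F) = M at *
  ext i j
  fin_cases i <;> fin_cases j <;>
    simp [pow_succ, Matrix.mul_apply, Fin.sum_univ_three] <;>
    first
      | linear_combination hd
      | ring

/-- a vector killed by two coprime polynomials is zero -/
private theorem cop {F : Type*} [Field F] {M : M3 F} {f : F[X]} (hf : aeval M f = 0) {k : ℕ}
    {t : F} (hc : IsCoprime f (X ^ k - C t)) {w : Fin 3 → F} (hw : (M ^ k) *ᵥ w = t • w) :
    w = 0 := by
  obtain ⟨a, b, hab⟩ := hc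
  have h1 := congrArg (aeval M) hab
  rw [map_add, map_mul, map_mul, hf, mul_zero, zero_add, map_one, map_sub, map_pow, aeval_X,
    aeval_C] at h1
  have h2 : (M ^ k - algebraMap F (M3 F) t) *ᵥ w = 0 := by
    rw [Matrix.sub_mulVec, hw, Algebra.algebraMap_eq_smul_one, Matrix.smul_mulVec,
      Matrix.one_mulVec, sub_self]
  calc w = (1 : M3 F) *ᵥ w := (Matrix.one_mulVec w).symm
    _ = 0 := by rw [← h1, ← Matrix.mulVec_mulVec, h2, Matrix.mulVec_zero]

/-- the arithmetic of `v = q ^ 2 + q + 1` -/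
private theorem dvd3 {q k : ℕ} (hq : 1 ≤ q) (h : (q ^ 2 + q + 1) ∣ k * (q - 1)) :
    (q ^ 2 + q + 1) ∣ 3 * k := by
  obtain ⟨r, rfl⟩ : ∃ r, q = r + 1 := ⟨q - 1, by omega⟩
  rw [Nat.add_sub_cancel] at h
  have h1 : ((r + 1) ^ 2 + (r + 1) + 1) ∣ k * r * (r + 3) + 3 * k := by
    refine ⟨k, ?_⟩
    ring
  exact (Nat.dvd_add_right (Dvd.dvd.mul_right h (r + 3))).1 h1

private theorem cub {E : Type*} [Field E] {a b c : E} (h : a * b * c = 1) (y : E) :
    y ^ 3 - (a + b + c) * y ^ 2 + (a⁻¹ + b⁻¹ + c⁻¹) * y - 1 = (y - a) * (y - b) * (y - c) := by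
  have h1 : a⁻¹ = b * c := by
    apply inv_eq_of_mul_eq_one_right
    rw [← h]
    ring
  have h2 : b⁻¹ = a * c := by
    apply inv_eq_of_mul_eq_one_right
    rw [← h]
    ring
  have h3 : c⁻¹ = a * b := by
    apply inv_eq_of_mul_eq_one_right
    rw [← h]
    ring
  rw [h1, h2, h3]
  linear_combination h

theorem exists_c {F : Type*} [Field F] [Finite F] (hF : 3 ≤ Nat.card F) :
    ∃ s s' : F, (∀ x : SL3 F, Ty s s' x → Pc x) ∧
      ∀ z : F, z ^ 3 = 1 → ¬ (s' = z * s ∧ s = z ^ 2 * s') := by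
  classical
  have := Fintype.ofFinite F
  obtain ⟨p, hp⟩ := CharP.exists F
  obtain ⟨n, hpp, hcard⟩ := FiniteField.card F p
  have : Fact p.Prime := ⟨hpp⟩
  let E := AlgebraicClosure F
  have : CharP E p := charP_of_injective_algebraMap (algebraMap F E).injective p
  set q := Nat.card F with hqdef
  have hqp : q = p ^ (n : ℕ) := by rw [hqdef, Nat.card_eq_fintype_card, hcard]
  have hfr : ∀ a b : E, (a + b) ^ q = a ^ q + b ^ q := by
    intro a b
    rw [hqp]
    exact add_pow_char_pow a b p n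
  have hqE : (q : E) = 0 := by
    rw [hqp, Nat.cast_pow, CharP.cast_eq_zero, zero_pow n.pos.ne']
  have hvE : ((q ^ 2 + q + 1 : ℕ) : E) ≠ 0 := by
    push_cast
    rw [hqE]
    simp
  have : NeZero ((q ^ 2 + q + 1 : ℕ) : E) := ⟨hvE⟩
  obtain ⟨ζ, hζ⟩ := HasEnoughRootsOfUnity.exists_primitiveRoot E (q ^ 2 + q + 1)
  have hζ0 : ζ ≠ 0 := hζ.ne_zero (by omega)
  have hζ1 : ζ ^ (q ^ 2 + q + 1) = 1 := hζ.pow_eq_one
  have hprod : ζ * ζ ^ q * ζ ^ (q ^ 2) = 1 := by
    rw [← hζ1]
    ring
  have hcube : (ζ ^ (q ^ 2)) ^ q = ζ := by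
    have h1 : q ^ 2 * q = (q ^ 2 + q + 1) * (q - 1) + 1 := by
      obtain ⟨r, hr⟩ : ∃ r, q = r + 1 := ⟨q - 1, by omega⟩
      rw [hr, Nat.add_sub_cancel]
      ring
    rw [← pow_mul, h1, pow_add, pow_mul, hζ1, one_pow, one_mul, pow_one]
  have hsq : (ζ ^ q) ^ q = ζ ^ (q ^ 2) := by
    rw [← pow_mul, sq]
  obtain ⟨s, hs⟩ : ∃ b : F, algebraMap F E b = ζ + ζ ^ q + ζ ^ (q ^ 2) := by
    apply mem_base
    rw [← hqdef, hfr, hfr, hsq, hcube]
    ring
  obtain ⟨s', hs'⟩ : ∃ b : F, algebraMap F E b = ζ⁻¹ + (ζ ^ q)⁻¹ + (ζ ^ (q ^ 2))⁻¹ := by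
    apply mem_base
    rw [← hqdef, hfr, hfr, inv_pow, inv_pow, inv_pow, hsq, hcube]
    ring
  have hz1 : ζ ^ q ≠ 0 := pow_ne_zero _ hζ0
  have hz2 : ζ ^ (q ^ 2) ≠ 0 := pow_ne_zero _ hζ0
  -- the values of the two cubics
  have hfE : ∀ y : E, y ^ 3 - algebraMap F E s * y ^ 2 + algebraMap F E s' * y - 1 =
      (y - ζ) * (y - ζ ^ q) * (y - ζ ^ (q ^ 2)) := by
    intro y
    rw [hs, hs']
    exact cub hprod y
  have hhE : ∀ y : E, y ^ 3 - algebraMap F E s' * y ^ 2 + algebraMap F E s * y - 1 =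
      (y - ζ⁻¹) * (y - (ζ ^ q)⁻¹) * (y - (ζ ^ (q ^ 2))⁻¹) := by
    intro y
    have h1 : ζ⁻¹ * (ζ ^ q)⁻¹ * (ζ ^ (q ^ 2))⁻¹ = 1 := by
      rw [← mul_inv, ← mul_inv, hprod, inv_one]
    have h2 := cub h1 y
    rw [inv_inv, inv_inv, inv_inv] at h2
    rw [hs, hs']
    exact h2
  -- powers of `ζ` in the base field
  have hbase : ∀ (k : ℕ) (t : F), ζ ^ k = algebraMap F E t → (q ^ 2 + q + 1) ∣ k * (q - 1) := by
    intro k t hk
    have ht : t ≠ 0 := by
      rintro rfl
      rw [map_zero] at hk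
      exact pow_ne_zero k hζ0 hk
    apply hζ.dvd_of_pow_eq_one
    rw [pow_mul, hk, ← map_pow, hqdef, Nat.card_eq_fintype_card,
      FiniteField.pow_card_sub_one_eq_one t ht, map_one]
  have hsmall : ∀ m : ℕ, m < q ^ 2 + q + 1 → m ≠ 0 → ¬ (q ^ 2 + q + 1) ∣ m :=
    fun m h1 h2 h3 => h2 (Nat.eq_zero_of_dvd_of_lt h3 h1)
  have hroot : ∀ t : F, t ^ 3 - s * t ^ 2 + s' * t - 1 ≠ 0 := by
    intro t ht
    have h1 := hfE (algebraMap F E t)
    rw [← map_pow, ← map_pow, ← map_mul, ← map_mul, ← map_sub, ← map_add,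
      ← map_one (algebraMap F E), ← map_sub, ht, map_zero, eq_comm, mul_eq_zero, mul_eq_zero,
      sub_eq_zero, sub_eq_zero, sub_eq_zero] at h1
    rcases h1 with (h1 | h1) | h1
    · have h2 := hbase 1 t (by rw [pow_one, h1])
      refine hsmall _ ?_ ?_ h2
      · have : q - 1 ≤ q := Nat.sub_le _ _
        nlinarith
      · omega
    · have h2 := hbase q t h1.symm
      refine hsmall _ ?_ ?_ h2
      · have : q - 1 ≤ q := Nat.sub_le _ _
        nlinarith
      · exact Nat.mul_ne_zero (by omega) (by omega)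
    · have h2 := hbase (q ^ 2) t h1.symm
      obtain ⟨r, hr⟩ : ∃ r, q = r + 1 := ⟨q - 1, by omega⟩
      have h3 : (q ^ 2 + q + 1) ∣ q ^ 2 * (q - 1) + (q ^ 2 - 1) := by
        refine ⟨q - 1, ?_⟩
        rw [hr, Nat.add_sub_cancel]
        have : (r + 1) ^ 2 - 1 = r ^ 2 + 2 * r := by
          have : (r + 1) ^ 2 = r ^ 2 + 2 * r + 1 := by ring
          omega
        rw [this]
        ring
      have h4 := (Nat.dvd_add_right h2).1 h3
      refine hsmall _ ?_ ?_ h4
      · have : q ^ 2 - 1 ≤ q ^ 2 := Nat.sub_le _ _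
        omega
      · have : 3 * 3 ≤ q ^ 2 := by
          rw [sq]
          exact Nat.mul_le_mul hF hF
        omega
  refine ⟨s, s', ?_, ?_⟩
  · intro x hx k t w hw0 hw
    -- the cubic over `F`
    have hfdeg : (X ^ 3 - C s * X ^ 2 + C s' * X - C 1 : F[X]).natDegree = 3 := by
      compute_degree!
    have hfm : (X ^ 3 - C s * X ^ 2 + C s' * X - C 1 : F[X]).Monic := by
      monicity!
    have hirr : Irreducible (X ^ 3 - C s * X ^ 2 + C s' * X - C 1 : F[X]) := by
      rw [hfm.irreducible_iff_roots_eq_zero_of_degree_le_three (by omega) (by omega)]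
      rw [Multiset.eq_zero_iff_forall_notMem]
      intro a ha
      rw [mem_roots hfm.ne_zero, IsRoot, eval_sub, eval_add, eval_sub, eval_mul, eval_mul,
        eval_pow, eval_pow, eval_X, eval_C, eval_C, eval_C] at ha
      exact hroot a ha
    have hM : aeval (x : M3 F) (X ^ 3 - C s * X ^ 2 + C s' * X - C 1 : F[X]) = 0 := by
      have h1 := ch x hx
      rw [map_sub, map_add, map_sub, map_mul, map_mul, map_pow, map_pow, aeval_X, aeval_C,
        aeval_C, aeval_C, Algebra.algebraMap_eq_smul_one, Algebra.algebraMap_eq_smul_one,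
        Algebra.algebraMap_eq_smul_one, one_smul, smul_mul_assoc, smul_mul_assoc, one_mul, one_mul]
      exact h1
    have hnc : ¬ IsCoprime (X ^ 3 - C s * X ^ 2 + C s' * X - C 1 : F[X]) (X ^ k - C t) :=
      fun hc => hw0 (cop hM hc hw)
    have hdvd : (X ^ 3 - C s * X ^ 2 + C s' * X - C 1 : F[X]) ∣ X ^ k - C t := by
      by_contra h
      exact hnc (hirr.coprime_iff_not_dvd.2 h)
    obtain ⟨g, hg⟩ := hdvd
    have h1 := congrArg (aeval ζ) hg
    rw [map_mul, map_sub, map_pow, aeval_X, aeval_C, map_sub, map_add, map_sub, map_mul, map_mul,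
      map_pow, map_pow, aeval_X, aeval_C, aeval_C, aeval_C, map_one] at h1
    have h2 := hfE ζ
    rw [sub_self, zero_mul, zero_mul] at h2
    have h3 : ζ ^ k = algebraMap F E t := by
      rw [← sub_eq_zero]
      refine h1.trans ?_
      rw [h2, zero_mul]
    exact dvd3 (by omega) (hbase k t h3)
  · rintro z hz ⟨h1, h2⟩
    have hzE : algebraMap F E z ^ 3 = 1 := by rw [← map_pow, hz, map_one]
    have h1E : algebraMap F E s' = algebraMap F E z * algebraMap F E s := by
      rw [← map_mul, ← h1]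
    have h2E : algebraMap F E s = algebraMap F E z ^ 2 * algebraMap F E s' := by
      rw [← map_pow, ← map_mul, ← h2]
    have h3 := hhE (algebraMap F E z * ζ)
    have h4 := hfE ζ
    rw [sub_self, zero_mul, zero_mul] at h4
    have h5 : (algebraMap F E z * ζ) ^ 3 - algebraMap F E s' * (algebraMap F E z * ζ) ^ 2 +
        algebraMap F E s * (algebraMap F E z * ζ) - 1 = 0 := by
      have e1 : algebraMap F E s' * (algebraMap F E z * ζ) ^ 2 = algebraMap F E s * ζ ^ 2 := by
        rw [h1E]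
        linear_combination (algebraMap F E s * ζ ^ 2) * hzE
      have e2 : algebraMap F E s * (algebraMap F E z * ζ) = algebraMap F E s' * ζ := by
        have : algebraMap F E s * (algebraMap F E z * ζ) =
            algebraMap F E z ^ 2 * algebraMap F E s' * (algebraMap F E z * ζ) := by
          rw [← h2E]
        rw [this]
        linear_combination (algebraMap F E s' * ζ) * hzE
      rw [e1, e2, mul_pow, hzE, one_mul]
      exact h4
    rw [h5, eq_comm, mul_eq_zero, mul_eq_zero, sub_eq_zero, sub_eq_zero, sub_eq_zero] at h3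
    have key : ∀ m : ℕ, algebraMap F E z * ζ = (ζ ^ m)⁻¹ → (q ^ 2 + q + 1) ∣ 3 * (m + 1) := by
      intro m hm
      apply hζ.dvd_of_pow_eq_one
      have e1 : algebraMap F E z * ζ ^ (m + 1) = 1 := by
        rw [pow_succ', ← mul_assoc, hm]
        exact inv_mul_cancel₀ (pow_ne_zero m hζ0)
      have e2 := congrArg (fun y => y ^ 3) e1
      simp only [mul_pow, hzE, one_mul, one_pow, ← pow_mul] at e2
      rw [mul_comm 3 (m + 1)]
      exact e2
    have hqq : 3 * q ≤ q ^ 2 := by
      rw [sq]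
      exact Nat.mul_le_mul_right q hF
    rcases h3 with (h3 | h3) | h3
    · have h6 := key 1 (by rw [pow_one, h3])
      exact hsmall _ (by omega) (by omega) h6
    · have h6 := key q h3
      exact hsmall _ (by omega) (by omega) h6
    · have h6 := key (q ^ 2) h3
      have h7 : 3 * (q ^ 2 + 1) + 3 * q = 3 * (q ^ 2 + q + 1) := by ring
      have h8 : (q ^ 2 + q + 1) ∣ 3 * (q ^ 2 + 1) + 3 * q := h7 ▸ Dvd.intro_left 3 rfl
      have h9 := (Nat.dvd_add_right h6).1 h8
      exact hsmall _ (by omega) (by omega) h9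

end Pool.Agent.PSL3
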