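import Pool.Agent.PSL3.TypesB
import Pool.Agent.PSL3.TypesC
import Pool.Agent.PSL3.Fac
import Pool.Agent.PSL3.IrrB
import Pool.Agent.PSL3.IrrC
import Pool.Agent.PSL3.Gen

/-! Every nonscalar element of `SL_3(q)`, `q ≥ 5`, is a product of two elements without conjugates
in a given proper subgroup (helper87). -/

set_option autoImplicit false

namespace Pool.Agent.PSL3

open Matrix

private theorem ty_conj {F : Type*} [Field F] {s s' : F} {x : SL3 F} (hx : Ty s s' x) (h : SL3 F) :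
    Ty s s' (h⁻¹ * x * h) := by
  have hh : (h : M3 F) * ((h⁻¹ : SL3 F) : M3 F) = 1 := by
    rw [← Matrix.SpecialLinearGroup.coe_mul, mul_inv_cancel, Matrix.SpecialLinearGroup.coe_one]
  refine ⟨?_, ?_⟩
  · rw [Matrix.SpecialLinearGroup.coe_mul, Matrix.trace_mul_comm,
      Matrix.SpecialLinearGroup.coe_mul, ← Matrix.mul_assoc, hh, Matrix.one_mul]
    exact hx.1
  · have : (h⁻¹ * x * h)⁻¹ = h⁻¹ * x⁻¹ * h := by group
    rw [this, Matrix.SpecialLinearGroup.coe_mul, Matrix.trace_mul_comm,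
      Matrix.SpecialLinearGroup.coe_mul, ← Matrix.mul_assoc, hh, Matrix.one_mul]
    exact hx.2

private theorem pc_conj {F : Type*} [Field F] {x : SL3 F} (hx : Pc x) (h : SL3 F) :
    Pc (h⁻¹ * x * h) := by
  intro k t w hw hk
  have hh : (h : M3 F) * ((h⁻¹ : SL3 F) : M3 F) = 1 := by
    rw [← Matrix.SpecialLinearGroup.coe_mul, mul_inv_cancel, Matrix.SpecialLinearGroup.coe_one]
  have hh' : ((h⁻¹ : SL3 F) : M3 F) * (h : M3 F) = 1 := by
    rw [← Matrix.SpecialLinearGroup.coe_mul, inv_mul_cancel, Matrix.SpecialLinearGroup.coe_one]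
  refine hx k t ((h : M3 F) *ᵥ w) ?_ ?_
  · intro h0
    apply hw
    have : ((h⁻¹ : SL3 F) : M3 F) *ᵥ ((h : M3 F) *ᵥ w) = 0 := by rw [h0, Matrix.mulVec_zero]
    rwa [Matrix.mulVec_mulVec, hh', Matrix.one_mulVec] at this
  · have e1 : (h⁻¹ * x * h) ^ k = h⁻¹ * x ^ k * h := by
      have := conj_pow (i := k) (a := h⁻¹) (b := x)
      rw [inv_inv] at this
      exact this
    rw [← Matrix.SpecialLinearGroup.coe_pow, e1] at hk
    have e2 : (x : M3 F) ^ k *ᵥ ((h : M3 F) *ᵥ w)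
        = (h : M3 F) *ᵥ (((h⁻¹ * x ^ k * h : SL3 F) : M3 F) *ᵥ w) := by
      rw [Matrix.mulVec_mulVec, Matrix.mulVec_mulVec, Matrix.SpecialLinearGroup.coe_mul,
        Matrix.SpecialLinearGroup.coe_mul, ← Matrix.mul_assoc, ← Matrix.mul_assoc, hh,
        Matrix.one_mul, Matrix.SpecialLinearGroup.coe_pow]
    rw [e2, hk, Matrix.mulVec_smul]

private theorem pc_inv {F : Type*} [Field F] {x : SL3 F} (hx : Pc x⁻¹) : Pc x := by
  intro k t w hw hk
  have hcan : ((x⁻¹ : SL3 F) : M3 F) * (x : M3 F) = 1 := by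
    rw [← Matrix.SpecialLinearGroup.coe_mul, inv_mul_cancel, Matrix.SpecialLinearGroup.coe_one]
  have hcomm : Commute ((x⁻¹ : SL3 F) : M3 F) (x : M3 F) := by
    have hcan' : (x : M3 F) * ((x⁻¹ : SL3 F) : M3 F) = 1 := by
      rw [← Matrix.SpecialLinearGroup.coe_mul, mul_inv_cancel, Matrix.SpecialLinearGroup.coe_one]
    exact hcan.trans hcan'.symm
  have h1 : ((x⁻¹ : SL3 F) : M3 F) ^ k * (x : M3 F) ^ k = 1 := by
    rw [← hcomm.mul_pow, hcan, one_pow]
  have h2 : w = t • (((x⁻¹ : SL3 F) : M3 F) ^ k *ᵥ w) := by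
    rw [← Matrix.mulVec_smul, ← hk, Matrix.mulVec_mulVec, h1, Matrix.one_mulVec]
  have ht : t ≠ 0 := by
    rintro rfl
    rw [zero_smul] at h2
    exact hw h2
  refine hx k t⁻¹ w hw ?_
  conv_rhs => rw [h2, smul_smul, inv_mul_cancel₀ ht, one_smul]

/-- an element with given traces -/
private theorem comp_ty {F : Type*} [Field F] (s s' : F) :
    ∃ x : SL3 F, (x : M3 F) = !![0, 0, 1; 1, 0, -s'; 0, 1, s] ∧ Ty s s' x := by
  have hdet : (!![0, 0, 1; 1, 0, -s'; 0, 1, s] : M3 F).det = 1 := by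
    rw [Matrix.det_fin_three]
    simp
  refine ⟨⟨_, hdet⟩, rfl, ?_, ?_⟩
  · rw [Matrix.trace_fin_three]
    simp
  · rw [Matrix.SpecialLinearGroup.coe_inv, Matrix.trace_fin_three, Matrix.adjugate_fin_three]
    simp

/-- type c for a suitable pair of traces which is allowed when `|F| = 3` -/
private theorem exists_c3 {F : Type*} [Field F] [Finite F] (h3 : Nat.card F = 3) :
    ∃ s s' : F, Ok3 s s' ∧ (∀ x : SL3 F, Ty s s' x → Pc x) ∧
      ∀ z : F, z ^ 3 = 1 → ¬ (s' = z * s ∧ s = z ^ 2 * s') := by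
  obtain ⟨s, s', hC, hn⟩ := exists_c (F := F) h3.ge
  have hroot : ∀ r : F, r ^ 3 - s * r ^ 2 + s' * r - 1 ≠ 0 := by
    intro r hr
    obtain ⟨x, hx, hTy⟩ := comp_ty s s'
    have hw : (![r ^ 2 - s * r + s', r - s, 1] : Fin 3 → F) ≠ 0 := by
      intro h0
      have := congrFun h0 2
      simp at this
    have hk : ((x : M3 F) ^ 1) *ᵥ ![r ^ 2 - s * r + s', r - s, 1]
        = r • ![r ^ 2 - s * r + s', r - s, 1] := by
      rw [pow_one, hx]
      ext i
      fin_cases i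
      · simp [Matrix.mulVec, dotProduct, Fin.sum_univ_three]
        linear_combination (-1 : F) * hr
      · simp [Matrix.mulVec, dotProduct, Fin.sum_univ_three]
        ring
      · simp [Matrix.mulVec, dotProduct, Fin.sum_univ_three]
    have := hC x hTy 1 r _ hw hk
    rw [h3] at this
    exact absurd this (by norm_num)
  rcases ok3_of_no_root h3 s s' hroot with h | h
  · exact ⟨s, s', h, hC, hn⟩
  · refine ⟨s', s, h, fun x hx => pc_inv (hC x⁻¹ ⟨hx.2, ?_⟩), ?_⟩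
    · rw [inv_inv]
      exact hx.1
    · intro z hz hcon
      have hz1 : z ≠ 0 := by
        rintro rfl
        simp at hz
      refine hn (z ^ 2) (by rw [← pow_mul, mul_comm, pow_mul, hz, one_pow]) ⟨?_, ?_⟩
      · exact hcon.2
      · rw [← pow_mul]
        have : z ^ (2 * 2) = z := by
          calc z ^ (2 * 2) = z ^ 3 * z := by ring
            _ = z := by rw [hz, one_mul]
        rw [this]
        exact hcon.1

/-- products of two elements of type b or of two elements of type c -/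
theorem main {F : Type*} [Field F] [Finite F] (hF : 3 ≤ Nat.card F) (h4 : Nat.card F ≠ 4)
    (K : Subgroup (SL3 F)) (hK : K ≠ ⊤) (g : SL3 F) (hg : ¬ Sc g) :
    ∃ x y, Dr K x ∧ Dr K y ∧ x * y = g := by
  by_cases hc : ∃ c ∈ K, Pc c
  · obtain ⟨c, hcK, hPc⟩ := hc
    obtain ⟨γ, m, hγ, hm, hB, hnB⟩ := exists_b (F := F) hF h4
    have hno : ∀ b ∈ K, ¬ Ty (γ⁻¹ + m) (γ + m * γ⁻¹) b := fun b hb hTy =>
      hK (gen hF h4 K γ hγ c b hcK hb hPc (hB b hTy))
    obtain ⟨x, y, hx, hy, hxy⟩ : ∃ x y : SL3 F, Ty (γ⁻¹ + m) (γ + m * γ⁻¹) x ∧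
        Ty (γ⁻¹ + m) (γ + m * γ⁻¹) y ∧ x * y = g := by
      by_cases hev : ∃ (r : F) (w : Fin 3 → F), w ≠ 0 ∧ (g : M3 F) *ᵥ w = r • w
      · by_cases h5 : 5 ≤ Nat.card F
        · exact fac h5 g hg hev _ _ _ _ hnB
        · have h3 : Nat.card F = 3 := by omega
          exact fac3 h3 g hg hev _ _ (ok3_b h3 γ m hγ hm) hnB
      · refine irr_b g (fun t w hw => ?_) γ m hγ.1 hm
        by_contra hw0
        exact hev ⟨t, w, hw0, hw⟩
    exact ⟨x, y, fun h hmem => hno _ hmem (ty_conj hx h), fun h hmem => hno _ hmem (ty_conj hy h),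
      hxy⟩
  · push Not at hc
    obtain ⟨x, y, hx, hy, hxy⟩ : ∃ x y : SL3 F, Pc x ∧ Pc y ∧ x * y = g := by
      by_cases hev : ∃ (r : F) (w : Fin 3 → F), w ≠ 0 ∧ (g : M3 F) *ᵥ w = r • w
      · by_cases h5 : 5 ≤ Nat.card F
        · obtain ⟨s, s', hC, hnC⟩ := exists_c (F := F) hF
          obtain ⟨x, y, hx, hy, hxy⟩ := fac h5 g hg hev s s' s s' hnC
          exact ⟨x, y, hC x hx, hC y hy, hxy⟩
        · have h3 : Nat.card F = 3 := by omega
          obtain ⟨s, s', hs, hC, hnC⟩ := exists_c3 (F := F) h3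
          obtain ⟨x, y, hx, hy, hxy⟩ := fac3 h3 g hg hev s s' hs hnC
          exact ⟨x, y, hC x hx, hC y hy, hxy⟩
      · refine irr_c g (fun t w hw => ?_)
        by_contra hw0
        exact hev ⟨t, w, hw0, hw⟩
    exact ⟨x, y, fun h hmem => hc _ hmem (pc_conj hx h), fun h hmem => hc _ hmem (pc_conj hy h),
      hxy⟩

end Pool.Agent.PSL3
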