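import Pool.Agent.PSL3.Defs

/-!
# PSL3 / Canon: a normal form for the elements of `SL_3(F)` (helper35)
-/

set_option autoImplicit false

namespace Pool.Agent.PSL3

open Matrix

variable {F : Type*} [Field F]

private theorem cn_ker (ρ : Fin 3 → F) : ∃ w : Fin 3 → F, w ≠ 0 ∧ ρ ⬝ᵥ w = 0 := by
  obtain ⟨v, hv, h⟩ := Matrix.exists_mulVec_eq_zero_iff.2
    (Matrix.det_zero_of_row_eq (M := (Matrix.of fun _ => ρ : M3 F)) (i := 0) (j := 1)
      (by decide) rfl)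
  exact ⟨v, hv, congrFun h 0⟩

private theorem cn_one {ρ : Fin 3 → F} (hρ : ρ ≠ 0) : ∃ e : Fin 3 → F, ρ ⬝ᵥ e = 1 := by
  obtain ⟨i, hi⟩ := Function.ne_iff.1 hρ
  exact ⟨Pi.single i (ρ i)⁻¹, by rw [dotProduct_single, mul_inv_cancel₀ hi]⟩

/-- if every vector of the plane `ρ = 0` is an eigenvector then they have a common eigenvalue -/
private theorem cn_common {M : M3 F} {ρ : Fin 3 → F}
    (h : ∀ w, ρ ⬝ᵥ w = 0 → ∃ a : F, M *ᵥ w = a • w) :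
    ∃ a : F, ∀ w, ρ ⬝ᵥ w = 0 → M *ᵥ w = a • w := by
  obtain ⟨w₁, h1, h2⟩ := cn_ker ρ
  obtain ⟨a₁, ha₁⟩ := h w₁ h2
  refine ⟨a₁, fun w hw => ?_⟩
  obtain ⟨a, ha⟩ := h w hw
  obtain ⟨b, hb⟩ := h (w₁ + w) (by rw [dotProduct_add, h2, hw, add_zero])
  rw [mulVec_add, ha₁, ha, smul_add] at hb
  by_cases h3 : b = a₁
  · subst h3
    rw [ha]
    exact add_left_cancel hb
  · have h4 : (a₁ - b) • w₁ = (b - a) • w := by
      rw [sub_smul, sub_smul]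
      have h5 : a₁ • w₁ = b • w₁ + b • w - a • w := by rw [← hb]; abel
      rw [h5]
      abel
    have h5 : a₁ - b ≠ 0 := sub_ne_zero.2 (Ne.symm h3)
    have h6 : w₁ = ((a₁ - b)⁻¹ * (b - a)) • w := by
      rw [mul_smul, ← h4, smul_smul, inv_mul_cancel₀ h5, one_smul]
    have h7 : a₁ • w₁ = a • w₁ := by
      rw [← ha₁, h6, mulVec_smul, ha, smul_comm]
    have h8 : (a₁ - a) • w₁ = 0 := by rw [sub_smul, h7, sub_self]
    rcases smul_eq_zero.1 h8 with h9 | h9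
    · rw [ha, sub_eq_zero.1 h9]
    · exact absurd h9 h1

/-- a matrix which kills the plane `ρ = 0` has rank one -/
private theorem cn_rank {M : M3 F} {ρ : Fin 3 → F} {a : F} {e : Fin 3 → F} (he : ρ ⬝ᵥ e = 1)
    (h : ∀ w, ρ ⬝ᵥ w = 0 → M *ᵥ w = a • w) :
    M = a • (1 : M3 F) + vecMulVec (M *ᵥ e - a • e) ρ := by
  apply Matrix.ext_of_mulVec_single
  intro i
  have h1 : ρ ⬝ᵥ (Pi.single i 1 - (ρ ⬝ᵥ Pi.single i 1) • e) = 0 := by
    rw [dotProduct_sub, dotProduct_smul, he]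
    simp
  have h2 := h _ h1
  rw [mulVec_sub, mulVec_smul] at h2
  rw [add_mulVec, smul_mulVec, one_mulVec, vecMulVec_mulVec]
  have h3 : M *ᵥ Pi.single i 1 = a • (Pi.single i 1 - (ρ ⬝ᵥ Pi.single i 1) • e) +
      (ρ ⬝ᵥ Pi.single i 1) • M *ᵥ e := by
    rw [← h2]
    abel
  rw [h3]
  ext j
  simp
  ring

theorem canon {F : Type*} [Field F] (M : SL3 F) (hM : ¬ Sc M) :
    (∀ (t : F) (w : Fin 3 → F), (M : M3 F) *ᵥ w = t • w → w = 0) ∨
    (∃ (P : M3 F) (p x l y z : F), P.det ≠ 0 ∧ p * z = -1 ∧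
      (z ^ 2 - l * z - p ≠ 0 ∨ x + y * z ≠ 0) ∧
      (M : M3 F) * P = P * !![0, p, x; 1, l, y; 0, 0, z]) ∨
    (∃ (z : F) (u φ : Fin 3 → F), u ≠ 0 ∧ φ ≠ 0 ∧
      (M : M3 F) = z • (1 : M3 F) + vecMulVec u φ) := by
  by_cases hA : ∀ (t : F) (w : Fin 3 → F), (M : M3 F) *ᵥ w = t • w → w = 0
  · exact Or.inl hA
  right
  push Not at hA
  obtain ⟨z, w₀, hw₀, hw₀0⟩ := hA
  have hdet : ((M : M3 F) - z • (1 : M3 F)).det = 0 := by
    refine Matrix.exists_mulVec_eq_zero_iff.1 ⟨w₀, hw₀0, ?_⟩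
    rw [sub_mulVec, smul_mulVec, one_mulVec, hw₀, sub_self]
  obtain ⟨ρ, hρ, hρ'⟩ := Matrix.exists_vecMul_eq_zero_iff.2 hdet
  have hρM : ρ ᵥ* (M : M3 F) = z • ρ := by
    rw [vecMul_sub, vecMul_smul, vecMul_one] at hρ'
    exact sub_eq_zero.1 hρ'
  have hρv : ∀ v, ρ ⬝ᵥ ((M : M3 F) *ᵥ v) = z * (ρ ⬝ᵥ v) := by
    intro v
    rw [dotProduct_mulVec, hρM, smul_dotProduct, smul_eq_mul]
  obtain ⟨e, he⟩ := cn_one hρ
  by_cases hW : ∀ w, ρ ⬝ᵥ w = 0 → ∃ a : F, (M : M3 F) *ᵥ w = a • w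
  · right
    obtain ⟨a, ha⟩ := cn_common hW
    have h1 := cn_rank he ha
    refine ⟨a, (M : M3 F) *ᵥ e - a • e, ρ, ?_, hρ, h1⟩
    intro h2
    refine hM ⟨a, ?_⟩
    rw [h2] at h1
    rw [h1]
    ext i j
    simp [vecMulVec_apply]
  push Not at hW
  obtain ⟨e₁, he₁, hne⟩ := hW
  obtain ⟨e₂, he₂⟩ : ∃ e₂, e₂ = (M : M3 F) *ᵥ e₁ := ⟨_, rfl⟩
  have hρ2 : ρ ⬝ᵥ e₂ = 0 := by rw [he₂, hρv, he₁, mul_zero]
  obtain ⟨P, hP⟩ : ∃ P : M3 F, P = Matrix.of fun i j => ![e₁ i, e₂ i, e i] j := ⟨_, rfl⟩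
  have hPv : ∀ v : Fin 3 → F, P *ᵥ v = v 0 • e₁ + v 1 • e₂ + v 2 • e := by
    intro v
    ext i
    rw [hP]
    simp [mulVec, dotProduct, Fin.sum_univ_three]
    ring
  have hρP : ∀ v : Fin 3 → F, ρ ⬝ᵥ (P *ᵥ v) = v 2 := by
    intro v
    rw [hPv, dotProduct_add, dotProduct_add, dotProduct_smul, dotProduct_smul, dotProduct_smul,
      he₁, hρ2, he]
    simp
  have hPker : ∀ v : Fin 3 → F, P *ᵥ v = 0 → v = 0 := by
    intro v hv
    have h2 : v 2 = 0 := by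
      rw [← hρP v, hv, dotProduct_zero]
    rw [hPv, h2, zero_smul, add_zero] at hv
    have h1 : v 1 = 0 := by
      by_contra h1
      refine hne (-(v 0 / v 1)) ?_
      rw [← he₂]
      have h3 : v 1 • e₂ = -(v 0 • e₁) := by
        rw [eq_neg_iff_add_eq_zero, add_comm]
        exact hv
      have h4 : e₂ = (v 1)⁻¹ • (v 1 • e₂) := by rw [smul_smul, inv_mul_cancel₀ h1, one_smul]
      rw [h4, h3, smul_neg, smul_smul, neg_smul, div_eq_inv_mul]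
    rw [h1, zero_smul, add_zero] at hv
    have h0 : v 0 = 0 := by
      rcases smul_eq_zero.1 hv with h | h
      · exact h
      · exact absurd (by rw [h, mulVec_zero, smul_zero]) (hne 0)
    ext i
    fin_cases i
    · exact h0
    · exact h1
    · exact h2
  have hPdet : P.det ≠ 0 := by
    intro h
    obtain ⟨v, hv, hv'⟩ := Matrix.exists_mulVec_eq_zero_iff.2 h
    exact hv (hPker v hv')
  have hPu : IsUnit P.det := isUnit_iff_ne_zero.2 hPdet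
  obtain ⟨c, hc⟩ : ∃ c, c = P⁻¹ *ᵥ ((M : M3 F) *ᵥ e₂) := ⟨_, rfl⟩
  obtain ⟨d, hd⟩ : ∃ d, d = P⁻¹ *ᵥ ((M : M3 F) *ᵥ e) := ⟨_, rfl⟩
  have hPc : P *ᵥ c = (M : M3 F) *ᵥ e₂ := by
    rw [hc, mulVec_mulVec, Matrix.mul_nonsing_inv _ hPu, one_mulVec]
  have hPd : P *ᵥ d = (M : M3 F) *ᵥ e := by
    rw [hd, mulVec_mulVec, Matrix.mul_nonsing_inv _ hPu, one_mulVec]
  have hc2 : c 2 = 0 := by rw [← hρP c, hPc, hρv, hρ2, mul_zero]
  have hd2 : d 2 = z := by rw [← hρP d, hPd, hρv, he, mul_one]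
  have hMP : (M : M3 F) * P = P * !![0, c 0, d 0; 1, c 1, d 1; 0, 0, z] := by
    apply Matrix.ext_of_mulVec_single
    intro i
    rw [← mulVec_mulVec, ← mulVec_mulVec]
    fin_cases i
    · have h1 : P *ᵥ (Pi.single 0 1) = e₁ := by rw [hPv]; simp
      have h2 : (!![0, c 0, d 0; 1, c 1, d 1; 0, 0, z] : M3 F) *ᵥ (Pi.single 0 1) = ![0, 1, 0] := by
        ext i
        fin_cases i <;> simp
      show (M : M3 F) *ᵥ (P *ᵥ Pi.single 0 1) = P *ᵥ (_ *ᵥ Pi.single 0 1)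
      rw [h1, h2, ← he₂, hPv]
      simp
    · have h1 : P *ᵥ (Pi.single 1 1) = e₂ := by rw [hPv]; simp
      have h2 : (!![0, c 0, d 0; 1, c 1, d 1; 0, 0, z] : M3 F) *ᵥ (Pi.single 1 1) = c := by
        ext i
        fin_cases i <;> simp [hc2]
      show (M : M3 F) *ᵥ (P *ᵥ Pi.single 1 1) = P *ᵥ (_ *ᵥ Pi.single 1 1)
      rw [h1, h2, hPc]
    · have h1 : P *ᵥ (Pi.single 2 1) = e := by rw [hPv]; simp
      have h2 : (!![0, c 0, d 0; 1, c 1, d 1; 0, 0, z] : M3 F) *ᵥ (Pi.single 2 1) = d := by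
        ext i
        fin_cases i <;> simp [hd2]
      show (M : M3 F) *ᵥ (P *ᵥ Pi.single 2 1) = P *ᵥ (_ *ᵥ Pi.single 2 1)
      rw [h1, h2, hPd]
  have hpz : c 0 * z = -1 := by
    have h1 := congrArg Matrix.det hMP
    rw [det_mul, det_mul, M.2, one_mul] at h1
    have h2 : (!![0, c 0, d 0; 1, c 1, d 1; 0, 0, z] : M3 F).det = 1 :=
      mul_left_cancel₀ hPdet (by rw [mul_one]; exact h1.symm)
    rw [det_fin_three] at h2
    simp at h2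
    linear_combination -h2
  by_cases hB : z ^ 2 - c 1 * z - c 0 ≠ 0 ∨ d 0 + d 1 * z ≠ 0
  · exact Or.inl ⟨P, c 0, d 0, c 1, d 1, z, hPdet, hpz, hB, hMP⟩
  right
  push Not at hB
  obtain ⟨hB1, hB2⟩ := hB
  refine ⟨z, P *ᵥ ![-z, 1, 0], ![1, c 1 - z, d 1] ᵥ* P⁻¹, ?_, ?_, ?_⟩
  · intro h
    have h1 := congrFun (hPker _ h) 1
    simp at h1
  · intro h
    have h1 : (![1, c 1 - z, d 1] ᵥ* P⁻¹) ᵥ* P = 0 := by rw [h, zero_vecMul]
    rw [vecMul_vecMul, Matrix.nonsing_inv_mul _ hPu, vecMul_one] at h1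
    have h2 := congrFun h1 0
    simp at h2
  · have h1 : (!![0, c 0, d 0; 1, c 1, d 1; 0, 0, z] : M3 F) =
        z • (1 : M3 F) + vecMulVec ![-z, 1, 0] ![1, c 1 - z, d 1] := by
      ext i j
      fin_cases i <;> fin_cases j <;> simp [vecMulVec_apply]
      · linear_combination -hB1
      · linear_combination hB2
    have h2 : (M : M3 F) = (M : M3 F) * P * P⁻¹ := by
      rw [Matrix.mul_assoc, Matrix.mul_nonsing_inv _ hPu, Matrix.mul_one]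
    rw [h2, hMP, h1, Matrix.mul_add, Matrix.add_mul, Matrix.mul_smul, Matrix.mul_one,
      Matrix.smul_mul, Matrix.mul_nonsing_inv _ hPu, Matrix.mul_vecMulVec, Matrix.vecMulVec_mul]

end Pool.Agent.PSL3
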