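import Mathlib

/-! The characteristic polynomial of the element diag(s, N(s)^-1) of SL_3(F), s a generator of the
multiplicative group of the quadratic extension, n = N(s), τ = Tr(s). -/

open Polynomial

namespace Pool.Agent.PSL3

/-- (X - n^-1) (X^2 - τ X + n) -/
noncomputable def chi {F : Type*} [Field F] (n τ : F) : F[X] :=
  (X - C n⁻¹) * (X ^ 2 - C τ * X + C n)

end Pool.Agent.PSL3
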