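import Pool.Agent.PSL3.Defs

/-! A subgroup with an element of type c and an element of type b is transitive on the lines:
counting (helper26). -/

set_option autoImplicit false

namespace Pool.Agent.PSL3

open Matrix

private theorem dvd_card {X : Type*} [Finite X] (σ : Equiv.Perm X) (n m : ℕ)
    (h : ∀ (k : ℕ) (x : X), (σ ^ k) x = x → n ∣ m * k) : n ∣ m * Nat.card X := by
  classical
  have _ := Fintype.ofFinite X
  have _ : Fintype (Quotient (MulAction.orbitRel (Subgroup.zpowers σ) X)) := Fintype.ofFinite _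
  rw [Nat.card_congr (MulAction.selfEquivSigmaOrbits (Subgroup.zpowers σ) X), Nat.card_sigma,
    Finset.mul_sum]
  apply Finset.dvd_sum
  intro ω _
  have h1 := MulAction.minimalPeriod_eq_card (a := σ) (b := ω.out)
  rw [Nat.card_eq_fintype_card, ← h1]
  apply h _ ω.out
  have h2 := Function.iterate_minimalPeriod (f := (σ • · : X → X)) (x := ω.out)
  have h3 : ∀ (k : ℕ) (x : X), (σ • · : X → X)^[k] x = (σ ^ k) x := by
    intro k
    induction k with
    | zero => intro x; rfl
    | succ k ih =>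
      intro x
      rw [Function.iterate_succ_apply, ih, pow_succ]
      rfl
  rw [h3] at h2
  exact h2

private theorem arith (q o : ℕ) (hq : 3 ≤ q) (h1 : q ^ 2 + q + 1 ∣ 3 * o) (h2 : q + 1 ∣ o - 1)
    (h3 : o ≤ q ^ 2 + q + 1) (h4 : 1 ≤ o) : o = q ^ 2 + q + 1 := by
  obtain ⟨s, hs⟩ := h1
  obtain ⟨r, hr⟩ := h2
  have ho : o = (q + 1) * r + 1 := by omega
  have hv : 0 < q ^ 2 + q + 1 := by positivity
  have hs3 : s ≤ 3 := by
    by_contra hc
    have : (q ^ 2 + q + 1) * 4 ≤ (q ^ 2 + q + 1) * s := Nat.mul_le_mul_left _ (by omega)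
    omega
  have hmod : (q + 1) * (3 * r) + 3 = (q + 1) * (q * s) + s := by
    have : 3 * o = (q + 1) * (q * s) + s := by rw [hs]; ring
    rw [ho] at this
    linarith
  have hs3' : s = 3 := by
    by_contra hne
    have h5 : (q + 1) * (3 * r) + (3 - s) = (q + 1) * (q * s) := by
      have := hmod
      omega
    have h6 : q + 1 ∣ 3 - s := by
      have h7 : q + 1 ∣ (q + 1) * (3 * r) + (3 - s) := by rw [h5]; exact Dvd.intro _ rfl
      exact (Nat.dvd_add_right (Dvd.intro _ rfl)).1 h7
    have h8 := Nat.le_of_dvd (by omega) h6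
    omega
  subst hs3'
  omega

private theorem pow_mulVec {F : Type*} [Field F] (b : M3 F) (u : Fin 3 → F) (t : F)
    (h : b *ᵥ u = t • u) (k : ℕ) : (b ^ k) *ᵥ u = t ^ k • u := by
  induction k with
  | zero => rw [pow_zero, pow_zero, one_smul, one_mulVec]
  | succ k ih => rw [pow_succ', ← mulVec_mulVec, ih, mulVec_smul, h, smul_smul, pow_succ]

private theorem pow_vecMul {F : Type*} [Field F] (b : M3 F) (u : Fin 3 → F) (t : F)
    (h : u ᵥ* b = t • u) (k : ℕ) : u ᵥ* (b ^ k) = t ^ k • u := by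
  induction k with
  | zero => rw [pow_zero, pow_zero, one_smul, vecMul_one]
  | succ k ih => rw [pow_succ, ← vecMul_vecMul, ih, smul_vecMul, h, smul_smul, pow_succ]

/-- the fixed points of a power, in terms of vectors -/
private theorem fix_iff {F : Type*} [Field F] (a : SL3 F) (k : ℕ)
    (p : Projectivization F (Fin 3 → F))
    (h : (Matrix.SpecialLinearGroup.toLin' a) ^ k • p = p) :
    ∃ t : F, ((a : M3 F) ^ k) *ᵥ p.rep = t • p.rep := by
  have h1 : (Matrix.SpecialLinearGroup.toLin' a) ^ k = Matrix.SpecialLinearGroup.toLin' (a ^ k) :=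
    (map_pow _ _ _).symm
  rw [h1, ← p.mk_rep, Projectivization.smul_mk, Projectivization.mk_eq_mk_iff'] at h
  obtain ⟨t, ht⟩ := h
  refine ⟨t, ?_⟩
  rw [ht, LinearEquiv.smul_def, Matrix.SpecialLinearGroup.toLin'_apply, Matrix.toLin'_apply,
    Matrix.SpecialLinearGroup.coe_pow]

theorem transFrom {F : Type*} [Field F] [Finite F] (hF : 3 ≤ Nat.card F) (H : Subgroup (SL3 F))
    (γ : F) (hγ : γ ≠ 0) (c b : SL3 F) (hc : c ∈ H) (hb : b ∈ H) (hPc : Pc c)
    (u φ : Fin 3 → F) (hD : DataB γ b u φ) : TransFrom H u := by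
  classical
  let T : SL3 F →* ((Fin 3 → F) ≃ₗ[F] (Fin 3 → F)) := Matrix.SpecialLinearGroup.toLin'
  have hu : u ≠ 0 := by
    rintro rfl
    have := hD.dot
    rw [dotProduct_zero] at this
    exact zero_ne_one this
  let P : Projectivization F (Fin 3 → F) := Projectivization.mk F u hu
  have hfin : Finite (Projectivization F (Fin 3 → F)) := inferInstance
  let O : Projectivization F (Fin 3 → F) → Prop := fun p => ∃ k ∈ H, T k • P = p
  have hO : ∀ a ∈ H, ∀ p, O (MulAction.toPerm (T a) p) ↔ O p := by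
    intro a ha p
    constructor
    · rintro ⟨k, hk, e⟩
      refine ⟨a⁻¹ * k, H.mul_mem (H.inv_mem ha) hk, ?_⟩
      rw [map_mul, mul_smul, e, MulAction.toPerm_apply, map_inv, inv_smul_smul]
    · rintro ⟨k, hk, e⟩
      refine ⟨a * k, H.mul_mem ha hk, ?_⟩
      rw [map_mul, mul_smul, e, MulAction.toPerm_apply]
  -- the orbit
  have h1 : Nat.card F ^ 2 + Nat.card F + 1 ∣ 3 * Nat.card {p // O p} := by
    apply dvd_card ((MulAction.toPerm (T c)).subtypePerm (hO c hc))
    intro k x hx
    rw [Equiv.Perm.subtypePerm_pow] at hx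
    have hx1 : ((MulAction.toPerm (T c) : Equiv.Perm (Projectivization F (Fin 3 → F))) ^ k) x.1 = x.1 :=
      congrArg Subtype.val hx
    have hx2 : (T c) ^ k • x.1 = x.1 := by
      rw [← MulAction.toPermHom_apply, ← map_pow] at hx1
      exact hx1
    obtain ⟨t, ht⟩ := fix_iff c k x.1 hx2
    exact hPc k t _ x.1.rep_nonzero ht
  have hP : O P := ⟨1, H.one_mem, by rw [map_one, one_smul]⟩
  have hbP : T b • P = P := by
    change (T b) • Projectivization.mk F u hu = Projectivization.mk F u hu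
    rw [Projectivization.smul_mk, Projectivization.mk_eq_mk_iff']
    refine ⟨γ⁻¹, ?_⟩
    rw [← hD.eig]
    rfl
  have hO' : ∀ p, (O (MulAction.toPerm (T b) p) ∧ MulAction.toPerm (T b) p ≠ P) ↔ (O p ∧ p ≠ P) := by
    intro p
    rw [hO b hb, MulAction.toPerm_apply]
    constructor
    · rintro ⟨h, h'⟩
      refine ⟨h, ?_⟩
      rintro rfl
      exact h' hbP
    · rintro ⟨h, h'⟩
      refine ⟨h, ?_⟩
      intro h''
      apply h'
      rw [← hbP] at h''
      exact smul_left_cancel _ h''
  have h2 : Nat.card F + 1 ∣ 1 * Nat.card {p // O p ∧ p ≠ P} := by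
    apply dvd_card ((MulAction.toPerm (T b)).subtypePerm hO')
    intro k x hx
    rw [Equiv.Perm.subtypePerm_pow] at hx
    have hx1 : ((MulAction.toPerm (T b) : Equiv.Perm (Projectivization F (Fin 3 → F))) ^ k) x.1 = x.1 :=
      congrArg Subtype.val hx
    have hx2 : (T b) ^ k • x.1 = x.1 := by
      rw [← MulAction.toPermHom_apply, ← map_pow] at hx1
      exact hx1
    obtain ⟨t, ht⟩ := fix_iff b k x.1 hx2
    rw [one_mul]
    set w := x.1.rep with hw
    have e1 := pow_mulVec (b : M3 F) u _ hD.eig k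
    have e2 := pow_vecMul (b : M3 F) φ _ hD.row k
    -- the projection
    have e3 : t * (φ ⬝ᵥ w) = (γ⁻¹) ^ k * (φ ⬝ᵥ w) := by
      have e4 : φ ⬝ᵥ (((b : M3 F) ^ k) *ᵥ w) = (φ ᵥ* ((b : M3 F) ^ k)) ⬝ᵥ w :=
        dotProduct_mulVec _ _ _
      rw [ht, e2, dotProduct_smul, smul_dotProduct, smul_eq_mul, smul_eq_mul] at e4
      exact e4
    apply hD.pow k t (w - (φ ⬝ᵥ w) • u)
    · intro h0
      apply x.2.2
      rw [← x.1.mk_rep]
      change _ = Projectivization.mk F u hu
      rw [Projectivization.mk_eq_mk_iff']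
      exact ⟨φ ⬝ᵥ w, (sub_eq_zero.1 h0).symm⟩
    · rw [dotProduct_sub, dotProduct_smul, hD.dot, smul_eq_mul, mul_one, sub_self]
    · rw [mulVec_sub, ht, mulVec_smul, e1, smul_sub, smul_smul, smul_smul, e3, mul_comm]
  rw [one_mul] at h2
  -- cardinalities
  have hcard : Nat.card (Projectivization F (Fin 3 → F)) = Nat.card F ^ 2 + Nat.card F + 1 := by
    rw [Projectivization.card_of_finrank F (Fin 3 → F) (n := 3) (by simp)]
    rw [Finset.sum_range_succ, Finset.sum_range_succ, Finset.sum_range_one]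
    ring
  have h3 : Nat.card {p // O p} ≤ Nat.card F ^ 2 + Nat.card F + 1 := by
    rw [← hcard]
    exact Nat.card_le_card_of_injective _ Subtype.val_injective
  have h4 : Nat.card {p // O p} = Nat.card {p // O p ∧ p ≠ P} + 1 := by
    have _ := Fintype.ofFinite (Projectivization F (Fin 3 → F))
    rw [Nat.card_eq_fintype_card, Nat.card_eq_fintype_card, Fintype.card_subtype,
      Fintype.card_subtype]
    have e : (Finset.univ.filter fun p => O p ∧ p ≠ P) = (Finset.univ.filter O).erase P := by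
      ext p
      simp only [Finset.mem_filter, Finset.mem_univ, true_and, Finset.mem_erase]
      tauto
    rw [e]
    exact (Finset.card_erase_add_one (Finset.mem_filter.2 ⟨Finset.mem_univ _, hP⟩)).symm
  have h5 := arith (Nat.card F) (Nat.card {p // O p}) hF h1 (by rw [h4]; simpa using h2) h3
    (by omega)
  -- conclusion
  have h6 : ∀ p, O p := by
    by_contra hcon
    push Not at hcon
    obtain ⟨p0, hp0⟩ := hcon
    have _ := Fintype.ofFinite (Projectivization F (Fin 3 → F))
    have h7 := Fintype.card_subtype_lt (p := O) hp0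
    rw [← Nat.card_eq_fintype_card, ← Nat.card_eq_fintype_card, h5, hcard] at h7
    exact lt_irrefl _ h7
  intro w hw
  obtain ⟨k, hk, e⟩ := h6 (Projectivization.mk F w hw)
  refine ⟨k, hk, ?_⟩
  change (T k) • Projectivization.mk F u hu = Projectivization.mk F w hw at e
  rw [Projectivization.smul_mk, Projectivization.mk_eq_mk_iff] at e
  obtain ⟨a, ha⟩ := e
  exact ⟨(a : F), a.ne_zero, ha.symm⟩

end Pool.Agent.PSL3
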