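import Mathlib

/-! Products of two derangements in `PSL_3(q)`, `q ≥ 5`: common definitions (helper87). -/

set_option autoImplicit false

namespace Pool.Agent.PSL3

open Matrix

/-- `SL_3(F)` -/
abbrev SL3 (F : Type*) [CommRing F] := Matrix.SpecialLinearGroup (Fin 3) F

/-- 3 by 3 matrices -/
abbrev M3 (F : Type*) := Matrix (Fin 3) (Fin 3) F

variable {F : Type*} [Field F]

/-- scalar elements -/
def Sc (x : SL3 F) : Prop := ∃ t : F, (x : M3 F) = t • (1 : M3 F)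

/-- `x` has trace `s` and `x⁻¹` has trace `s'` -/
def Ty (s s' : F) (x : SL3 F) : Prop :=
  Matrix.trace (x : M3 F) = s ∧ Matrix.trace ((x⁻¹ : SL3 F) : M3 F) = s'

/-- no conjugate of `x` lies in `K` -/
def Dr (K : Subgroup (SL3 F)) (x : SL3 F) : Prop := ∀ h : SL3 F, h⁻¹ * x * h ∉ K

/-- type c: if a power `x ^ k` has an eigenvector in `F³`, then `q² + q + 1` divides `3 k` -/
def Pc (x : SL3 F) : Prop := ∀ (k : ℕ) (t : F) (w : Fin 3 → F), w ≠ 0 →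
  ((x : M3 F) ^ k) *ᵥ w = t • w → (Nat.card F ^ 2 + Nat.card F + 1) ∣ 3 * k

/-- the data of an element of type b: eigenvector `u`, dual eigenvector `φ` (both for `γ⁻¹`), the
power `q + 1` is a homology, and `x` is `irreducible enough' on the plane `φ = 0` and dually -/
structure DataB (γ : F) (x : SL3 F) (u φ : Fin 3 → F) : Prop where
  dot : φ ⬝ᵥ u = 1
  eig : (x : M3 F) *ᵥ u = γ⁻¹ • u
  row : φ ᵥ* (x : M3 F) = γ⁻¹ • φ
  hom : (x : M3 F) ^ (Nat.card F + 1) = γ • (1 + (γ⁻¹ ^ 3 - 1) • vecMulVec u φ)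
  pow : ∀ (k : ℕ) (t : F) (w : Fin 3 → F), w ≠ 0 → φ ⬝ᵥ w = 0 →
    ((x : M3 F) ^ k) *ᵥ w = t • w → (Nat.card F + 1) ∣ k
  dual : ∀ (t : F) (ψ : Fin 3 → F), ψ ⬝ᵥ u = 0 → ψ ᵥ* (x : M3 F) = t • ψ → ψ = 0

/-- type b -/
def Pb (γ : F) (x : SL3 F) : Prop := ∃ u φ : Fin 3 → F, DataB γ x u φ

/-- `γ` generates the multiplicative group of `F` -/
def Gen (γ : F) : Prop := γ ≠ 0 ∧ ∀ a : F, a ≠ 0 → ∃ i : ℕ, γ ^ i = a

/-- all vectors with a line in the `H`-orbit of the line of `u`: `H` is transitive on the lines -/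
def TransFrom (H : Subgroup (SL3 F)) (u : Fin 3 → F) : Prop :=
  ∀ w : Fin 3 → F, w ≠ 0 → ∃ k ∈ H, ∃ t : F, t ≠ 0 ∧ ((k : SL3 F) : M3 F) *ᵥ u = t • w

/-- the transvection `1 + u ψ` lies in `H` -/
def TvIn (H : Subgroup (SL3 F)) (u ψ : Fin 3 → F) : Prop :=
  ∃ A ∈ H, ((A : SL3 F) : M3 F) = 1 + vecMulVec u ψ

/-- the homology `γ (1 + (γ⁻³ - 1) u φ)` lies in `H` -/
def HomIn (γ : F) (H : Subgroup (SL3 F)) (u φ : Fin 3 → F) : Prop :=
  ∃ A ∈ H, ((A : SL3 F) : M3 F) = γ • (1 + (γ⁻¹ ^ 3 - 1) • vecMulVec u φ)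

end Pool.Agent.PSL3
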