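import Pool.Agent.PSL3.Defs

/-! Explicit factorisation with prescribed traces: a matrix with an invariant plane (helper87). -/

set_option autoImplicit false

namespace Pool.Agent.PSL3

open Matrix

theorem build_two {F : Type*} [Field F] {s s' t t' p x l y z τ u w b12 b13 b23 D v : F}
    (hpz : p * z = -1) (hv : v = s - τ - u) (h12 : b12 = t' - p - l * u - y * w - z * v)
    (hD : D = s' - τ * (s - τ) + b12) (h23 : b23 * w = u * v - D)
    (h13 : b13 * w = b12 * v - τ * D + 1)
    (ht : t = l * z * D + z * (τ * D - 1) - v + w * (p * y - x * l) - x * τ * w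
      - p * (τ * u - b12)) :
    ∃ B : M3 F, B.det = 1 ∧ B.trace = s ∧ B.adjugate.trace = s' ∧
      ((!![0, p, x; 1, l, y; 0, 0, z] : M3 F) * B).trace = t' ∧
      (B.adjugate * (!![0, p, x; 1, l, y; 0, 0, z] : M3 F).adjugate).trace = t := by
  refine ⟨!![τ, b12, b13; 1, u, b23; 0, w, v], ?_, ?_, ?_, ?_, ?_⟩
  · rw [Matrix.det_fin_three]
    simp
    linear_combination (-τ) * h23 + h13
  · rw [Matrix.trace_fin_three]
    simp
    linear_combination hv
  · rw [Matrix.trace_fin_three, Matrix.adjugate_fin_three]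
    simp
    linear_combination (-1 : F) * h23 + τ * hv + hD
  · rw [Matrix.trace_fin_three]
    simp [Matrix.mul_apply, Fin.sum_univ_three]
    linear_combination h12
  · rw [Matrix.trace_fin_three, Matrix.adjugate_fin_three, Matrix.adjugate_fin_three]
    simp [Matrix.mul_apply, Fin.sum_univ_three]
    linear_combination (-(l * z)) * h23 - z * h13 + v * hpz - ht

/-- the constant term of the last trace as a function of `τ` -/
private theorem cubic_ne {F : Type*} [Field F] [Finite F] (hF : 5 ≤ Nat.card F)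
    (z a b c l : F) (hz : z ≠ 0) :
    ∃ τ : F, τ + l ≠ 0 ∧ z * τ ^ 3 + a * τ ^ 2 + b * τ + c ≠ 0 := by
  classical
  have := Fintype.ofFinite F
  by_contra hcon
  push Not at hcon
  open Polynomial in
  let Q : Polynomial F := (X + C l) * (C z * X ^ 3 + C a * X ^ 2 + C b * X + C c)
  have hQ : ∀ τ ∈ (Finset.univ : Finset F), Q.eval τ = 0 := by
    intro τ _
    simp only [Q, Polynomial.eval_mul, Polynomial.eval_add, Polynomial.eval_X,
      Polynomial.eval_C, Polynomial.eval_pow]
    by_cases h : τ + l = 0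
    · rw [h, zero_mul]
    · rw [hcon τ h, mul_zero]
  have hdeg : Q.natDegree < (Finset.univ : Finset F).card := by
    have h1 : Q.natDegree ≤ 4 := by
      simp only [Q]
      refine (Polynomial.natDegree_mul_le).trans ?_
      have h2 : (Polynomial.X + Polynomial.C l).natDegree ≤ 1 := by
        compute_degree
      have h3 : (Polynomial.C z * Polynomial.X ^ 3 + Polynomial.C a * Polynomial.X ^ 2
          + Polynomial.C b * Polynomial.X + Polynomial.C c).natDegree ≤ 3 := by
        compute_degree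
      omega
    have h4 : 5 ≤ (Finset.univ : Finset F).card := by
      rw [Finset.card_univ, ← Nat.card_eq_fintype_card]
      exact hF
    omega
  have h0 : Q = 0 := Polynomial.eq_zero_of_natDegree_lt_card_of_eval_eq_zero' Q _ hQ hdeg
  have h5 : Q.coeff 4 = z := by
    obtain ⟨a', b', c', d', this⟩ : ∃ a' b' c' d' : F, Q = Polynomial.C z * Polynomial.X ^ 4
        + Polynomial.C a' * Polynomial.X ^ 3 + Polynomial.C b' * Polynomial.X ^ 2
        + Polynomial.C c' * Polynomial.X + Polynomial.C d' := by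
      refine ⟨a + l * z, b + l * a, c + l * b, l * c, ?_⟩
      simp only [Q, map_add, map_mul]
      ring
    rw [this]
    simp
  rw [h0, Polynomial.coeff_zero] at h5
  exact hz h5.symm

/-- explicit factorisation with four prescribed traces, invariant plane case -/
theorem fac_two {F : Type*} [Field F] [Finite F] (hF : 5 ≤ Nat.card F) (s s' t t' : F)
    {p x l y z : F} (hpz : p * z = -1) (h : z ^ 2 - l * z - p ≠ 0 ∨ x + y * z ≠ 0) :
    ∃ B : M3 F, B.det = 1 ∧ B.trace = s ∧ B.adjugate.trace = s' ∧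
      ((!![0, p, x; 1, l, y; 0, 0, z] : M3 F) * B).trace = t' ∧
      (B.adjugate * (!![0, p, x; 1, l, y; 0, 0, z] : M3 F).adjugate).trace = t := by
  have hz : z ≠ 0 := by
    rintro rfl
    simp at hpz
  by_cases h1 : z ^ 2 - l * z - p = 0
  · have h2 : x + y * z ≠ 0 := h.resolve_left (fun h3 => h3 h1)
    -- choose `τ`, `w ≠ 0`, `u = 0`
    obtain ⟨τ, hτ, hc⟩ := cubic_ne hF z (z * (z - s + l))
      (z * (s' + t' - p - z * s + l * (z - s)))
      (z * l * (s' + t' - p - z * s) - z - s + p * (t' - p - z * s) - t) l hz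
    set c := z * τ ^ 3 + (z * (z - s + l)) * τ ^ 2
      + (z * (s' + t' - p - z * s + l * (z - s))) * τ
      + (z * l * (s' + t' - p - z * s) - z - s + p * (t' - p - z * s) - t) with hcdef
    have hcw : (τ + l) * (x + y * z) ≠ 0 := mul_ne_zero hτ h2
    have hw : c / ((τ + l) * (x + y * z)) ≠ 0 := div_ne_zero hc hcw
    set w := c / ((τ + l) * (x + y * z)) with hwdef
    have hcw2 : w * ((τ + l) * (x + y * z)) = c := div_mul_cancel₀ _ hcw
    refine build_two (τ := τ) (u := 0) (w := w) (v := s - τ - 0)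
      (b12 := t' - p - l * 0 - y * w - z * (s - τ - 0))
      (D := s' - τ * (s - τ) + (t' - p - l * 0 - y * w - z * (s - τ - 0)))
      (b23 := (0 * (s - τ - 0) - (s' - τ * (s - τ) +
        (t' - p - l * 0 - y * w - z * (s - τ - 0)))) / w)
      (b13 := ((t' - p - l * 0 - y * w - z * (s - τ - 0)) * (s - τ - 0) - τ * (s' - τ * (s - τ) +
        (t' - p - l * 0 - y * w - z * (s - τ - 0))) + 1) / w)
      hpz rfl rfl rfl (div_mul_cancel₀ _ hw) (div_mul_cancel₀ _ hw) ?_
    rw [hcdef] at hcw2
    linear_combination hcw2 - τ * hpz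
  · -- `τ = 1 - l`, `w = 1`
    obtain ⟨u, hu⟩ : ∃ u : F, u * (z ^ 2 - l * z - p) =
        -(z * (1 - l) ^ 3 + (z * (z - s + l)) * (1 - l) ^ 2
      + (z * (s' + t' - p - z * s + l * (z - s))) * (1 - l)
      + (z * l * (s' + t' - p - z * s) - z - s + p * (t' - p - z * s) - t)) + (x + y * z) :=
      ⟨_ / (z ^ 2 - l * z - p), div_mul_cancel₀ _ h1⟩
    refine build_two (τ := 1 - l) (u := u) (w := 1) (v := s - (1 - l) - u)
      (b12 := t' - p - l * u - y * 1 - z * (s - (1 - l) - u))
      (D := s' - (1 - l) * (s - (1 - l)) + (t' - p - l * u - y * 1 - z * (s - (1 - l) - u)))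
      (b23 := (u * (s - (1 - l) - u) - (s' - (1 - l) * (s - (1 - l)) +
        (t' - p - l * u - y * 1 - z * (s - (1 - l) - u)))) / 1)
      (b13 := ((t' - p - l * u - y * 1 - z * (s - (1 - l) - u)) * (s - (1 - l) - u)
        - (1 - l) * (s' - (1 - l) * (s - (1 - l)) +
        (t' - p - l * u - y * 1 - z * (s - (1 - l) - u))) + 1) / 1)
      hpz rfl rfl rfl (div_mul_cancel₀ _ one_ne_zero) (div_mul_cancel₀ _ one_ne_zero) ?_
    linear_combination (-1 : F) * hu - (1 - l + u) * hpz

end Pool.Agent.PSL3
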