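import Pool.Agent.PSL3.Defs
import Pool.Agent.Helper60.Psl.G

/-!
# PSL3 / Fin3: from subgroups of `SL_3(F)` to transitive actions of `PSL_3(F)` (helper35)
-/

set_option autoImplicit false

namespace Pool.Agent.PSL3

open Matrix

private theorem mem_center_of_sc {F : Type*} [Field F] {x : SL3 F} (h : Sc x) :
    x ∈ Subgroup.center (SL3 F) := by
  obtain ⟨t, ht⟩ := h
  rw [Matrix.SpecialLinearGroup.mem_center_iff]
  refine ⟨t, ?_, ?_⟩
  · have h1 : (x : M3 F).det = 1 := x.2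
    rw [ht, Matrix.det_smul, Matrix.det_one, mul_one] at h1
    exact h1
  · rw [ht, Matrix.scalar_apply, Matrix.smul_one_eq_diagonal]

private theorem exists_noncentral (F : Type*) [Field F] :
    ∃ g : SL3 F, g ∉ Subgroup.center (SL3 F) := by
  refine ⟨⟨!![1, 1, 0; 0, 1, 0; 0, 0, 1], by simp [Matrix.det_fin_three]⟩, ?_⟩
  rw [Matrix.SpecialLinearGroup.mem_center_iff]
  rintro ⟨r, -, hr⟩
  have h1 := congrFun (congrFun hr 0) 1
  simp [Matrix.scalar_apply] at h1

/-- from subgroups of `SL_3(F)` to transitive actions of `PSL_3(F)` -/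
theorem fin3 {F G W : Type*} [Field F] [Finite F] [Group G]
    (e : G ≃* Matrix.ProjectiveSpecialLinearGroup (Fin 3) F) [MulAction G W]
    [MulAction.IsPretransitive G W] [Nontrivial W]
    (main : ∀ K : Subgroup (SL3 F), K ≠ ⊤ → ∀ g, ¬ Sc g → ∃ x y, Dr K x ∧ Dr K y ∧ x * y = g)
    (g : G) : ∃ x y : G, (∀ w : W, x • w ≠ w) ∧ (∀ w : W, y • w ≠ w) ∧ x * y = g := by
  refine Pool.Agent.Helper60.Psl.fin_gen (S := SL3 F) e (exists_noncentral F) ?_ g
  intro K hK _ g hg
  obtain ⟨x, y, hx, hy, hxy⟩ := main K hK g fun h => hg (mem_center_of_sc h)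
  refine ⟨x, y, fun h => ?_, fun h => ?_, hxy⟩
  · have h1 := hx h⁻¹
    rwa [inv_inv] at h1
  · have h1 := hy h⁻¹
    rwa [inv_inv] at h1

end Pool.Agent.PSL3
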