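import Mathlib

/-! Transvections generate `SL_n(F)` (helper97 for helper67). -/

set_option autoImplicit false
set_option linter.unusedSimpArgs false

namespace Pool.Agent.PSL3

open Matrix

variable {n F : Type*} [Fintype n] [DecidableEq n] [Field F]

/-- the matrix lies in `K` -/
private def InK (K : Subgroup (SpecialLinearGroup n F)) (M : Matrix n n F) : Prop :=
  ∃ A ∈ K, A.1 = M

private theorem InK.mul {K : Subgroup (SpecialLinearGroup n F)} {M N : Matrix n n F}
    (h1 : InK K M) (h2 : InK K N) : InK K (M * N) := by
  obtain ⟨A, hA, rfl⟩ := h1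
  obtain ⟨B, hB, rfl⟩ := h2
  exact ⟨A * B, K.mul_mem hA hB, Matrix.SpecialLinearGroup.coe_mul A B⟩

private theorem InK.one {K : Subgroup (SpecialLinearGroup n F)} : InK K (1 : Matrix n n F) :=
  ⟨1, K.one_mem, Matrix.SpecialLinearGroup.coe_one⟩

private theorem InK.tv {K : Subgroup (SpecialLinearGroup n F)}
    (hK : ∀ φ u : n → F, φ ⬝ᵥ u = 0 → ∃ g ∈ K, g.1 = 1 + Matrix.vecMulVec u φ)
    (i j : n) (hij : i ≠ j) (c : F) : InK K (transvection i j c) := by
  obtain ⟨A, hA, e⟩ := hK (Pi.single j 1) (Pi.single i c) (by
    rw [single_dotProduct, Pi.single_eq_of_ne hij.symm, mul_zero])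
  refine ⟨A, hA, ?_⟩
  rw [e, transvection]
  congr 1
  ext a b
  rw [vecMulVec_apply, Matrix.single_apply]
  by_cases ha : i = a
  · subst ha
    by_cases hb : j = b
    · subst hb
      simp
    · rw [if_neg (by tauto), Pi.single_eq_of_ne (Ne.symm hb), mul_zero]
  · rw [if_neg (by tauto), Pi.single_eq_of_ne (Ne.symm ha), zero_mul]

private theorem InK.list {K : Subgroup (SpecialLinearGroup n F)}
    (hK : ∀ φ u : n → F, φ ⬝ᵥ u = 0 → ∃ g ∈ K, g.1 = 1 + Matrix.vecMulVec u φ)
    (L : List (TransvectionStruct n F)) :
    InK K (L.map TransvectionStruct.toMatrix).prod := by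
  induction L with
  | nil => simpa using InK.one
  | cons t L ih =>
    rw [List.map_cons, List.prod_cons]
    exact (InK.tv hK t.i t.j t.hij t.c).mul ih

private theorem weyl (i j : n) (hij : i ≠ j) (a b : F) (hab : a * b = -1) :
    transvection i j a * transvection j i b * transvection i j a =
      1 - single i i (1 : F) - single j j 1 + single i j a + single j i b := by
  have hji : j ≠ i := hij.symm
  have e1 : single i j a * single i j a = (0 : Matrix n n F) :=
    Matrix.single_mul_single_of_ne _ _ _ _ hji _
  have e2 : single i j a * single j i b = single i i (-1 : F) := by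
    rw [Matrix.single_mul_single_same, hab]
  have e3 : single j i b * single i j a = single j j (-1 : F) := by
    rw [Matrix.single_mul_single_same, mul_comm, hab]
  have e4 : single i i (-1 : F) * single i j a = -single i j a := by
    rw [Matrix.single_mul_single_same, neg_one_mul, Matrix.single_neg]
  have e5 : single i i (-1 : F) = -single i i (1 : F) := by rw [Matrix.single_neg]
  have e6 : single j j (-1 : F) = -single j j (1 : F) := by rw [Matrix.single_neg]
  simp only [transvection, add_mul, mul_add, one_mul, mul_one]
  rw [e2, e3, e4, e1, e5, e6]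
  abel

private theorem InK.h {K : Subgroup (SpecialLinearGroup n F)}
    (hK : ∀ φ u : n → F, φ ⬝ᵥ u = 0 → ∃ g ∈ K, g.1 = 1 + Matrix.vecMulVec u φ)
    (i j : n) (hij : i ≠ j) (a : F) (ha : a ≠ 0) :
    InK K (diagonal (fun k => if k = i then a else if k = j then a⁻¹ else 1)) := by
  have hji : j ≠ i := hij.symm
  have key : (transvection i j a * transvection j i (-a⁻¹) * transvection i j a) *
      (transvection i j (-1) * transvection j i 1 * transvection i j (-1)) =
      diagonal (fun k => if k = i then a else if k = j then a⁻¹ else 1) := by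
    rw [weyl i j hij a (-a⁻¹) (by field_simp), weyl i j hij (-1) 1 (by ring)]
    have q1 : ∀ (x y : F) (c d : n), single c i x * single j d y = (0 : Matrix n n F) :=
      fun x y c d => Matrix.single_mul_single_of_ne _ _ _ _ hij _
    have q2 : ∀ (x y : F) (c d : n), single c j x * single i d y = (0 : Matrix n n F) :=
      fun x y c d => Matrix.single_mul_single_of_ne _ _ _ _ hji _
    have q3 : ∀ (x y : F) (c d : n), single c i x * single i d y = (single c d (x * y) : Matrix n n F) :=
      fun x y c d => Matrix.single_mul_single_same _ _ _ _ _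
    have q4 : ∀ (x y : F) (c d : n), single c j x * single j d y = (single c d (x * y) : Matrix n n F) :=
      fun x y c d => Matrix.single_mul_single_same _ _ _ _ _
    simp only [mul_add, add_mul, mul_sub, sub_mul, one_mul, mul_one, q1, q2, q3, q4]
    ext x y
    simp only [Matrix.add_apply, Matrix.sub_apply, Matrix.one_apply, Matrix.zero_apply,
      Matrix.single_apply, Matrix.diagonal_apply]
    by_cases hx : i = x
    · subst hx
      by_cases hy : i = y
      · subst hy
        simp [hij, hji]
      · by_cases hy' : j = y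
        · subst hy'; simp [hij, hji]
        · simp [hij, hji, hy, hy']
    · by_cases hx' : j = x
      · subst hx'
        by_cases hy : i = y
        · subst hy
          simp [hij, hji]
        · by_cases hy' : j = y
          · subst hy'; simp [hij, hji]
          · simp [hij, hji, hy, hy']
      · by_cases hxy : x = y
        · subst hxy
          simp [hx, hx', Ne.symm hx, Ne.symm hx', eq_comm]
        · simp [hx, hx', hxy]
  rw [← key]
  exact (((InK.tv hK i j hij a).mul (InK.tv hK j i hji _)).mul (InK.tv hK i j hij a)).mul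
    (((InK.tv hK i j hij _).mul (InK.tv hK j i hji _)).mul (InK.tv hK i j hij _))

private theorem InK.diag {K : Subgroup (SpecialLinearGroup n F)}
    (hK : ∀ φ u : n → F, φ ⬝ᵥ u = 0 → ∃ g ∈ K, g.1 = 1 + Matrix.vecMulVec u φ)
    (i₀ : n) (d : n → F) (hd : ∀ i, d i ≠ 0) (s : Finset n) (hs : i₀ ∉ s) :
    InK K (diagonal (fun k => if k ∈ s then d k else if k = i₀ then (∏ j ∈ s, d j)⁻¹ else 1)) := by
  induction s using Finset.induction_on with
  | empty =>
    have e : (diagonal (fun k => if k ∈ (∅ : Finset n) then d k else
        if k = i₀ then (∏ j ∈ (∅ : Finset n), d j)⁻¹ else 1) : Matrix n n F) = 1 := by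
      simp
    rw [e]
    exact InK.one
  | insert a s ha ih =>
    rw [Finset.mem_insert, not_or] at hs
    have h1 := (InK.h hK a i₀ (Ne.symm hs.1) (d a) (hd a)).mul (ih hs.2)
    rw [Matrix.diagonal_mul_diagonal] at h1
    convert h1 using 3 with k
    by_cases hk : k = a
    · subst hk
      simp [ha, Ne.symm hs.1]
    · by_cases hk0 : k = i₀
      · subst hk0
        rw [if_neg (by simp [hk, hs.2]), if_pos rfl, Finset.prod_insert ha, if_neg hk, if_pos rfl,
          if_neg hs.2, if_pos rfl, mul_inv]
      · by_cases hks : k ∈ s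
        · simp [hk, hk0, hks]
        · simp [hk, hk0, hks]

/-- a subgroup of `SL_n(F)` which contains all transvections is everything -/
theorem genN (K : Subgroup (SpecialLinearGroup n F))
    (hK : ∀ φ u : n → F, φ ⬝ᵥ u = 0 → ∃ g ∈ K, g.1 = 1 + Matrix.vecMulVec u φ) : K = ⊤ := by
  rw [Subgroup.eq_top_iff']
  intro A
  cases isEmpty_or_nonempty n with
  | inl h =>
    have : A = 1 := Subtype.ext (Subsingleton.elim _ _)
    rw [this]
    exact K.one_mem
  | inr h =>
    obtain ⟨i₀⟩ := h
    obtain ⟨L, L', D, hD⟩ := Matrix.Pivot.exists_list_transvec_mul_diagonal_mul_list_transvec A.1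
    have hdet : ∏ i, D i = 1 := by
      have h1 := congrArg Matrix.det hD
      rw [Matrix.det_mul, Matrix.det_mul, TransvectionStruct.det_toMatrix_prod,
        TransvectionStruct.det_toMatrix_prod, Matrix.det_diagonal, A.2, one_mul, mul_one] at h1
      exact h1.symm
    have hne : ∀ i, D i ≠ 0 := fun i hi => by
      rw [Finset.prod_eq_zero (Finset.mem_univ i) hi] at hdet
      exact zero_ne_one hdet
    have h2 := InK.diag hK i₀ D hne (Finset.univ.erase i₀) (Finset.notMem_erase _ _)
    have h3 : (diagonal (fun k => if k ∈ Finset.univ.erase i₀ then D k else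
        if k = i₀ then (∏ j ∈ Finset.univ.erase i₀, D j)⁻¹ else 1) : Matrix n n F) = diagonal D := by
      congr 1
      funext k
      by_cases hk : k = i₀
      · subst hk
        rw [if_neg (Finset.notMem_erase _ _), if_pos rfl]
        rw [← Finset.mul_prod_erase Finset.univ D (Finset.mem_univ k)] at hdet
        exact (eq_inv_of_mul_eq_one_left hdet).symm
      · rw [if_pos (Finset.mem_erase.2 ⟨hk, Finset.mem_univ k⟩)]
    rw [h3] at h2
    have h4 := ((InK.list hK L).mul h2).mul (InK.list hK L')
    rw [← hD] at h4
    obtain ⟨B, hB, e⟩ := h4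
    have : B = A := Subtype.ext e
    exact this ▸ hB

end Pool.Agent.PSL3
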