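import Mathlib

open Matrix

namespace Pool.Agent.PSL3

/-- the trace argument: no symmetric irreflexive relation on a nonempty finite set for which the
number of common neighbours (also of a point with itself) is always -1 modulo p -/
theorem geo2a_trace {V : Type*} [DecidableEq V] (p : ℕ) [Fact p.Prime] (S : Finset V)
    (hS : S.Nonempty) (R : V → V → Prop) [DecidableRel R]
    (hirr : ∀ v ∈ S, ¬ R v v) (hsymm : ∀ v ∈ S, ∀ u ∈ S, R v u → R u v)
    (hcount : ∀ v ∈ S, ∀ u ∈ S,
      (((S.filter (fun w => R v w ∧ R u w)).card : ℕ) : ZMod p) = -1) : False := by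
  classical
  set A : Matrix S S (ZMod p) := Matrix.of fun v u => if R v u then 1 else 0 with hA
  set J : Matrix S S (ZMod p) := Matrix.of fun _ _ => 1 with hJ
  have hcnt : ∀ v u : S, ∑ w : S, (if R v w ∧ R u w then (1 : ZMod p) else 0) = -1 := by
    intro v u
    rw [← hcount v v.2 u u.2, Finset.card_filter]
    push_cast
    rw [Finset.sum_coe_sort S (fun w => if R v w ∧ R u w then (1 : ZMod p) else 0)]
  have hA2 : A * A = -J := by
    ext v u
    rw [Matrix.mul_apply, Matrix.neg_apply]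
    simp only [hA, hJ, Matrix.of_apply]
    rw [← hcnt v u]
    refine Finset.sum_congr rfl fun w _ => ?_
    have h1 : R w u ↔ R u w := ⟨hsymm w w.2 u u.2, hsymm u u.2 w w.2⟩
    by_cases h2 : R v w <;> by_cases h3 : R u w <;> simp [h1, h2, h3]
  have hAJ : A * J = -J := by
    ext v u
    rw [Matrix.mul_apply, Matrix.neg_apply]
    simp only [hA, hJ, Matrix.of_apply]
    rw [← hcnt v v]
    refine Finset.sum_congr rfl fun w _ => ?_
    by_cases h2 : R v w <;> simp [h2]
  have hpow : ∀ m : ℕ, A ^ (m + 2) = ((-1 : ZMod p) ^ (m + 1)) • J := by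
    intro m
    induction m with
    | zero => rw [pow_two, hA2]; simp
    | succ m ih =>
      rw [pow_succ', ih, Matrix.mul_smul, hAJ, pow_succ (-1 : ZMod p) (m + 1)]
      simp
  have hJtr : J.trace = (S.card : ZMod p) := by
    simp [hJ, Matrix.trace]
  have hJJ : J * J = (S.card : ZMod p) • J := by
    ext v u
    rw [Matrix.mul_apply]
    simp [hJ]
  have htr : A.trace = 0 := by
    rw [Matrix.trace]
    refine Finset.sum_eq_zero fun v _ => ?_
    simp [hA, hirr v v.2]
  have hp2 : 2 ≤ p := (Fact.out : p.Prime).two_le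
  have hcard : (S.card : ZMod p) = 0 := by
    have h1 := ZMod.trace_pow_card A
    obtain ⟨m, rfl⟩ : ∃ m, p = m + 2 := ⟨p - 2, by omega⟩
    rw [htr, hpow m, Matrix.trace_smul, hJtr, zero_pow (by omega), smul_eq_mul] at h1
    rcases mul_eq_zero.1 h1 with h | h
    · exact absurd h (pow_ne_zero _ (by simp))
    · exact h
  have h4 : A ^ 4 = -J := by
    have := hpow 2
    rw [this]
    simp [pow_succ]
  have h4' : A ^ 4 = 0 := by
    have : A ^ 4 = (A * A) * (A * A) := by noncomm_ring
    rw [this, hA2, neg_mul_neg, hJJ, hcard, zero_smul]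
  obtain ⟨v, hv⟩ := hS
  have h5 := congrFun (congrFun (h4.symm.trans h4') ⟨v, hv⟩) ⟨v, hv⟩
  simp [hJ] at h5

/-- two linear forms on a space of dimension 3 have a number of common zeros divisible by the
characteristic -/
theorem geo2a_count {F V : Type*} [Field F] [Finite F] [AddCommGroup V] [Module F V] [Fintype V]
    (hV : 2 < Module.finrank F V) (p : ℕ) [CharP F p] (f g : V →ₗ[F] F)
    [DecidablePred fun v : V => f v = 0 ∧ g v = 0] :
    (((Finset.univ.filter (fun v : V => f v = 0 ∧ g v = 0)).card : ℕ) : ZMod p) = 0 := by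
  classical
  have := Fintype.ofFinite F
  have : Module.Finite F V := Module.finite_of_finrank_pos (by omega)
  set U : Submodule F V := LinearMap.ker (f.prod g) with hU
  have hc : (Finset.univ.filter (fun v : V => f v = 0 ∧ g v = 0)).card = Nat.card U := by
    rw [Nat.card_eq_fintype_card, Fintype.card_subtype]
    congr 1
    ext v
    simp [hU]
  have hdim : 0 < Module.finrank F U := by
    have h1 := LinearMap.finrank_range_add_finrank_ker (f.prod g)
    have h2 : Module.finrank F (LinearMap.range (f.prod g)) ≤ Module.finrank F (F × F) :=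
      Submodule.finrank_le _
    have h3 : Module.finrank F (F × F) = 2 := by simp
    rw [← hU] at h1
    omega
  have hpF : p ∣ Nat.card F := by
    rw [Nat.card_eq_fintype_card, ← CharP.cast_eq_zero_iff F p]
    exact Nat.cast_card_eq_zero F
  rw [hc, Module.natCard_eq_pow_finrank (K := F) (V := U), ZMod.natCast_eq_zero_iff]
  exact dvd_pow hpF (by omega)

/-- GEO 2a -/
theorem geo2a {F L : Type*} [Field F] [Finite F] [Field L] [Finite L] [Algebra F L]
    (hL : Module.finrank F L = 2) (n : F) (hn : n ≠ 0) (hn3 : n ^ 3 ≠ 1) (s : L)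
    (hs : s ^ (Nat.card F + 1) = algebraMap F L n)
    (hgen : ∀ x y : L, x ≠ 0 → y ≠ 0 → ∃ j : ℕ, s ^ j * x = y)
    (K : Subgroup ((L × F) ≃ₗ[F] (L × F))) (t : (L × F) ≃ₗ[F] (L × F)) (htK : t ∈ K)
    (ht : ∀ v, t v = (s * v.1, n⁻¹ * v.2))
    (h1 : ∀ k ∈ K, (∀ w : L, (k (w, 0)).2 = 0) ↔ (k (0, 1)).1 = 0)
    (k₀ : (L × F) ≃ₗ[F] (L × F)) (hk₀ : k₀ ∈ K) (hk₀e : (k₀ (0, 1)).2 = 0) : False := by
  classical
  have := Fintype.ofFinite F
  have := Fintype.ofFinite L
  obtain ⟨p, hp⟩ := CharP.exists F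
  have hpp : Fact p.Prime := ⟨CharP.char_is_prime F p⟩
  have htj : ∀ (j : ℕ) (v : L × F), (t ^ j) v = (s ^ j * v.1, n⁻¹ ^ j * v.2) := by
    intro j
    induction j with
    | zero => intro v; simp
    | succ j ih =>
      intro v
      rw [pow_succ', LinearEquiv.mul_apply, ih, ht]
      ext
      · simp only [pow_succ]; ring
      · simp only [pow_succ]; ring
  set q : ℕ := Nat.card F with hq
  have hσ : ∀ v : L × F, (t ^ (q + 1)) v = (n • v.1, (n⁻¹ * n⁻¹) * v.2) := by
    intro v
    rw [htj, hs, Algebra.smul_def]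
    congr 2
    rw [pow_succ, hq, Nat.card_eq_fintype_card, FiniteField.pow_card]
  -- symmetry
  have hsym : ∀ g ∈ K, (g (0, 1)).2 = 0 → (g⁻¹ (0, 1)).2 = 0 := by
    intro g hg hge
    set k : (L × F) ≃ₗ[F] (L × F) := g⁻¹ * t ^ (q + 1) * g with hk
    have hkK : k ∈ K := K.mul_mem (K.mul_mem (K.inv_mem hg) (K.pow_mem htK _)) hg
    have hgk : ∀ v, g (k v) = (t ^ (q + 1)) (g v) := by
      intro v
      rw [← LinearEquiv.mul_apply, hk, ← mul_assoc, ← mul_assoc, mul_inv_cancel, one_mul,
        LinearEquiv.mul_apply]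
    have hke : k (0, 1) = n • ((0, 1) : L × F) := by
      apply g.injective
      rw [hgk, hσ, map_smul]
      ext
      · simp
      · simp [hge]
    have hkW : ∀ w : L, (k (w, 0)).2 = 0 := by
      rw [h1 k hkK, hke]
      simp
    obtain ⟨w, hw⟩ : ∃ w : L, (g (w, 0)).2 ≠ 0 := by
      by_contra hcon
      push Not at hcon
      obtain ⟨⟨a, b⟩, hab⟩ := g.surjective ((0, 1) : L × F)
      have h2 : ((a, b) : L × F) = (a, 0) + b • (0, 1) := by ext <;> simp
      rw [h2, map_add, map_smul] at hab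
      have h3 := congrArg Prod.snd hab
      simp [hcon a, hge] at h3
    set w' : L := (k (w, 0)).1 with hw'
    have hkw : k (w, 0) = (w', 0) := by
      ext
      · rfl
      · exact hkW w
    have h2 : g ((w', 0) - n • (w, 0)) = ((n⁻¹ * n⁻¹ - n) * (g (w, 0)).2) • ((0, 1) : L × F) := by
      rw [map_sub, ← hkw, hgk, hσ, map_smul]
      ext
      · simp
      · simp; ring
    have h3 : ((w', 0) - n • (w, 0) : L × F) =
        ((n⁻¹ * n⁻¹ - n) * (g (w, 0)).2) • g⁻¹ ((0, 1) : L × F) := by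
      apply g.injective
      rw [h2, map_smul]
      congr 1
      exact (g.apply_symm_apply _).symm
    have h4 := congrArg Prod.snd h3
    have h5 : (n⁻¹ * n⁻¹ - n) ≠ 0 := by
      intro h
      apply hn3
      have h6 : n⁻¹ * n⁻¹ = n := sub_eq_zero.1 h
      field_simp at h6
      linear_combination -h6
    simp only [Prod.snd_sub, Prod.smul_snd, smul_eq_mul] at h4
    rw [mul_zero, sub_zero] at h4
    rcases mul_eq_zero.1 h4.symm with h | h
    · exact absurd h (mul_ne_zero h5 hw)
    · exact h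
  -- W minus zero consists of images of e
  have hW : ∀ w : L, w ≠ 0 → ∃ k ∈ K, k (0, 1) = ((w, 0) : L × F) := by
    intro w hw
    have h2 : (k₀ (0, 1)).1 ≠ 0 := by
      intro h
      have h3 : k₀ (0, 1) = 0 := by
        ext
        · exact h
        · exact hk₀e
      have h4 := (LinearEquiv.map_eq_zero_iff k₀).1 h3
      simp at h4
    obtain ⟨j, hj⟩ := hgen _ w h2 hw
    refine ⟨t ^ j * k₀, K.mul_mem (K.pow_mem htK j) hk₀, ?_⟩
    rw [LinearEquiv.mul_apply, htj, hj, hk₀e, mul_zero]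
  set S : Finset (L × F) :=
    Finset.univ.filter (fun v => ∃ k ∈ K, ∃ c : F, c ≠ 0 ∧ c • k (0, 1) = v) with hSdef
  have hSm : ∀ v, v ∈ S ↔ ∃ k ∈ K, ∃ c : F, c ≠ 0 ∧ c • k (0, 1) = v := by
    intro v; simp [hSdef]
  have hS0 : S.Nonempty := ⟨(0, 1), (hSm _).2 ⟨1, K.one_mem, 1, one_ne_zero, by simp⟩⟩
  have hch : ∀ v : L × F, ∃ k : (L × F) ≃ₗ[F] (L × F), v ∈ S →
      k ∈ K ∧ ∃ c : F, c ≠ 0 ∧ c • k (0, 1) = v := by
    intro v
    by_cases hv : v ∈ S
    · obtain ⟨k, hk, h⟩ := (hSm v).1 hv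
      exact ⟨k, fun _ => ⟨hk, h⟩⟩
    · exact ⟨1, fun h => absurd h hv⟩
  choose κ hκ using hch
  refine geo2a_trace p S hS0 (fun v u => ((κ v)⁻¹ u).2 = 0) ?_ ?_ ?_
  · intro v hv h
    obtain ⟨-, c, hc, hcv⟩ := hκ v hv
    have h2 : (κ v)⁻¹ v = c • ((0, 1) : L × F) := by
      apply (κ v).injective
      rw [map_smul, hcv]
      exact (κ v).apply_symm_apply _
    rw [h2] at h
    simp at h
    exact hc h
  · intro v hv u hu h
    obtain ⟨hkv, c, hc, hcv⟩ := hκ v hv
    obtain ⟨hku, d, hd, hdu⟩ := hκ u hu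
    have h2 : (((κ v)⁻¹ * κ u) (0, 1)).2 = 0 := by
      rw [LinearEquiv.mul_apply]
      have h3 : ((κ v)⁻¹ u).2 = d * ((κ v)⁻¹ (κ u (0, 1))).2 := by
        conv_lhs => rw [← hdu, map_smul]
        simp
      rw [h3] at h
      exact (mul_eq_zero.1 h).resolve_left hd
    have h4 := hsym _ (K.mul_mem (K.inv_mem hkv) hku) h2
    rw [_root_.mul_inv_rev, inv_inv, LinearEquiv.mul_apply] at h4
    conv_lhs => rw [← hcv, map_smul]
    rw [Prod.smul_snd, h4, smul_zero]
  · intro v hv u hu
    obtain ⟨hkv, -⟩ := hκ v hv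
    have hdim : 2 < Module.finrank F (L × F) := by
      rw [Module.finrank_prod, hL]; simp
    set f : (L × F) →ₗ[F] F := (LinearMap.snd F L F).comp ((κ v)⁻¹).toLinearMap with hf
    set g : (L × F) →ₗ[F] F := (LinearMap.snd F L F).comp ((κ u)⁻¹).toLinearMap with hg
    have hc := geo2a_count hdim p f g
    have heq : S.filter (fun w => ((κ v)⁻¹ w).2 = 0 ∧ ((κ u)⁻¹ w).2 = 0) =
        (Finset.univ.filter (fun w : L × F => f w = 0 ∧ g w = 0)).erase 0 := by
      ext w
      simp only [Finset.mem_filter, Finset.mem_erase, Finset.mem_univ, true_and]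
      constructor
      · rintro ⟨hw, h2, h3⟩
        refine ⟨?_, h2, h3⟩
        rintro rfl
        obtain ⟨k, -, c, hc, hcw⟩ := (hSm _).1 hw
        rcases smul_eq_zero.1 hcw with h | h
        · exact hc h
        · have h4 := (LinearEquiv.map_eq_zero_iff k).1 h
          simp at h4
      · rintro ⟨hw, h2, h3⟩
        refine ⟨?_, h2, h3⟩
        have h2' : ((κ v)⁻¹ w).2 = 0 := h2
        have h4 : ((κ v)⁻¹ w).1 ≠ 0 := by
          intro h
          have h5 : (κ v)⁻¹ w = 0 := by
            ext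
            · exact h
            · exact h2'
          exact hw ((LinearEquiv.map_eq_zero_iff (κ v)⁻¹).1 h5)
        obtain ⟨k, hk, hkw⟩ := hW _ h4
        refine (hSm _).2 ⟨κ v * k, K.mul_mem hkv hk, 1, one_ne_zero, ?_⟩
        rw [one_smul, LinearEquiv.mul_apply, hkw]
        have h6 : ((((κ v)⁻¹ w).1, 0) : L × F) = (κ v)⁻¹ w := by
          ext
          · rfl
          · exact h2'.symm
        rw [h6]
        exact (κ v).apply_symm_apply _
    rw [heq, Finset.card_erase_of_mem (by simp), Nat.cast_sub, hc]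
    · simp
    · rw [Nat.one_le_iff_ne_zero]
      exact Finset.card_ne_zero_of_mem (a := (0 : L × F)) (by simp)

end Pool.Agent.PSL3
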