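import Pool.Agent.PSL3.Defs

/-! A polarity without absolute points does not exist (module Pol, helper42). -/

set_option autoImplicit false

namespace Pool.Agent.PSL3

open Matrix

private lemma card_sol {F : Type*} [Field F] [Fintype F] [DecidableEq F] (p : ℕ) [Fact p.Prime]
    [CharP F p] (a b : Fin 3 → F) :
    ((Finset.univ.filter fun x : {u : Fin 3 → F // u ≠ 0} =>
      a ⬝ᵥ x.1 = 0 ∧ b ⬝ᵥ x.1 = 0).card : ZMod p) = -1 := by
  classical
  let f : (Fin 3 → F) →ₗ[F] (Fin 2 → F) := (Matrix.of ![a, b]).mulVecLin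
  have hf : ∀ x : Fin 3 → F, x ∈ LinearMap.ker f ↔ a ⬝ᵥ x = 0 ∧ b ⬝ᵥ x = 0 := by
    intro x
    rw [LinearMap.mem_ker]
    constructor
    · intro h
      have h0 := congrFun h 0
      have h1 := congrFun h 1
      exact ⟨h0, h1⟩
    · rintro ⟨h0, h1⟩
      funext i
      fin_cases i
      · exact h0
      · exact h1
  have hrn := LinearMap.finrank_range_add_finrank_ker f
  have hr : Module.finrank F (LinearMap.range f) ≤ 2 := by
    have := Submodule.finrank_le (LinearMap.range f)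
    simpa using this
  have h3 : Module.finrank F (Fin 3 → F) = 3 := by simp
  have hk : 1 ≤ Module.finrank F (LinearMap.ker f) := by omega
  have hc : Fintype.card (LinearMap.ker f) =
      Fintype.card F ^ Module.finrank F (LinearMap.ker f) := Module.card_eq_pow_finrank
  have hp : p ∣ Fintype.card F := by
    have := Nat.cast_card_eq_zero F
    exact (CharP.cast_eq_zero_iff F p _).1 this
  have hp2 : p ∣ Fintype.card (LinearMap.ker f) := by
    rw [hc]
    exact dvd_pow hp (by omega)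
  have hcard : Fintype.card (LinearMap.ker f) =
      (Finset.univ.filter fun x : {u : Fin 3 → F // u ≠ 0} =>
      a ⬝ᵥ x.1 = 0 ∧ b ⬝ᵥ x.1 = 0).card + 1 := by
    rw [← Finset.card_univ]
    have h1 : (Finset.univ : Finset (LinearMap.ker f)) =
        insert 0 (((Finset.univ.filter fun x : {u : Fin 3 → F // u ≠ 0} =>
          a ⬝ᵥ x.1 = 0 ∧ b ⬝ᵥ x.1 = 0)).attach.image fun x =>
            (⟨x.1.1, (hf _).2 (by have h := x.2; rw [Finset.mem_filter] at h; exact h.2)⟩ :
              LinearMap.ker f)) := by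
      ext x
      simp only [Finset.mem_univ, Finset.mem_insert, Finset.mem_image, Finset.mem_attach,
        true_and, true_iff]
      by_cases hx : x = 0
      · exact Or.inl hx
      · refine Or.inr ⟨⟨⟨x.1, fun h => hx (Subtype.ext h)⟩, ?_⟩, ?_⟩
        · rw [Finset.mem_filter]
          exact ⟨Finset.mem_univ _, (hf _).1 x.2⟩
        · rfl
    rw [h1, Finset.card_insert_of_notMem, Finset.card_image_of_injective, Finset.card_attach]
    · intro x y h
      apply Subtype.ext
      apply Subtype.ext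
      exact congrArg (fun z : LinearMap.ker f => z.1) h
    · intro h
      rw [Finset.mem_image] at h
      obtain ⟨x, _, hx⟩ := h
      exact x.1.2 (congrArg (fun z : LinearMap.ker f => z.1) hx)
  have h5 : (Fintype.card (LinearMap.ker f) : ZMod p) = 0 := by
    rw [ZMod.natCast_eq_zero_iff]
    exact hp2
  rw [hcard] at h5
  push_cast at h5
  exact eq_neg_of_add_eq_zero_left h5

/-- module Pol -/
theorem no_pol {F : Type*} [Field F] [Finite F] (Φ : (Fin 3 → F) → (Fin 3 → F))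
    (h1 : ∀ u, u ≠ 0 → Φ u ⬝ᵥ u = 1)
    (h2 : ∀ u w, u ≠ 0 → w ≠ 0 → Φ u ⬝ᵥ w = 0 → Φ w ⬝ᵥ u = 0) : False := by
  classical
  have := Fintype.ofFinite F
  obtain ⟨p, hp⟩ := CharP.exists F
  have hpp : Fact p.Prime := ⟨CharP.char_is_prime F p⟩
  let A : Matrix {u : Fin 3 → F // u ≠ 0} {u : Fin 3 → F // u ≠ 0} (ZMod p) :=
    Matrix.of fun u w => if Φ u.1 ⬝ᵥ w.1 = 0 then 1 else 0
  let J : Matrix {u : Fin 3 → F // u ≠ 0} {u : Fin 3 → F // u ≠ 0} (ZMod p) :=
    Matrix.of fun _ _ => 1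
  have hA : ∀ u w, A u w = if Φ u.1 ⬝ᵥ w.1 = 0 then 1 else 0 := fun _ _ => rfl
  have hJ : ∀ u w, J u w = 1 := fun _ _ => rfl
  have hsq : A * A = -J := by
    ext u w
    rw [Matrix.mul_apply, Matrix.neg_apply, hJ, ← card_sol p (Φ u.1) (Φ w.1),
      Finset.card_filter, Nat.cast_sum]
    refine Finset.sum_congr rfl fun x _ => ?_
    rw [hA, hA]
    have hs : Φ x.1 ⬝ᵥ w.1 = 0 ↔ Φ w.1 ⬝ᵥ x.1 = 0 :=
      ⟨h2 _ _ x.2 w.2, h2 _ _ w.2 x.2⟩
    by_cases ha : Φ u.1 ⬝ᵥ x.1 = 0 <;> by_cases hb : Φ w.1 ⬝ᵥ x.1 = 0 <;>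
      simp [ha, hb, hs]
  have hAJ : A * J = -J := by
    ext u w
    rw [Matrix.mul_apply, Matrix.neg_apply, hJ, ← card_sol p (Φ u.1) (Φ u.1),
      Finset.card_filter, Nat.cast_sum]
    refine Finset.sum_congr rfl fun x _ => ?_
    rw [hA, hJ]
    by_cases ha : Φ u.1 ⬝ᵥ x.1 = 0 <;> simp [ha]
  have hpow : ∀ k : ℕ, A ^ (k + 2) = (-1) ^ (k + 1) • J := by
    intro k
    induction k with
    | zero => rw [zero_add, pow_two, hsq]; simp
    | succ k ih =>
      rw [show k + 1 + 2 = (k + 2) + 1 from rfl, pow_succ', ih, Matrix.mul_smul, hAJ,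
        pow_succ (-1 : ℤ) (k + 1)]
      simp
  have htrJ : Matrix.trace J = -1 := by
    rw [Matrix.trace]
    simp only [Matrix.diag_apply, hJ]
    rw [← card_sol p (0 : Fin 3 → F) 0]
    simp
  have htrA : Matrix.trace A = 0 := by
    rw [Matrix.trace]
    refine Finset.sum_eq_zero fun x _ => ?_
    rw [Matrix.diag_apply, hA, h1 _ x.2]
    simp
  have h2p := hpp.out.two_le
  obtain ⟨k, hk⟩ := Nat.exists_eq_add_of_le h2p
  have ht := ZMod.trace_pow_card A
  rw [htrA, zero_pow hpp.out.ne_zero] at ht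
  have h3 : A ^ p = (-1) ^ (k + 1) • J := by
    rw [← hpow k]
    congr 1
    omega
  rw [h3, Matrix.trace_smul, htrJ] at ht
  rcases neg_one_pow_eq_or ℤ (k + 1) with h | h <;> rw [h] at ht <;> simp at ht

end Pool.Agent.PSL3
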