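import Pool.Agent.PSL3.Chi

/-! The structure of a matrix with characteristic polynomial chi n τ: it is conjugate to the map
(w, a) ↦ (s w, n⁻¹ a) of L × F. -/

open Polynomial Matrix

namespace Pool.Agent.PSL3

theorem struct {F L : Type*} [Field F] [Field L] [Algebra F L] (hL : Module.finrank F L = 2)
    (n τ : F) (s : L) (hn : n ≠ 0) (hs : s ^ 2 - algebraMap F L τ * s + algebraMap F L n = 0)
    (hirr : ∀ c : F, c ^ 2 - τ * c + n ≠ 0)
    (x : Matrix (Fin 3) (Fin 3) F) (hx : x.charpoly = chi n τ) :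
    ∃ Ψ : (Fin 3 → F) ≃ₗ[F] (L × F), ∀ v, Ψ (x *ᵥ v) = (s * (Ψ v).1, n⁻¹ * (Ψ v).2) := by
  classical
  -- Cayley-Hamilton
  have hCH : (x - n⁻¹ • (1 : Matrix (Fin 3) (Fin 3) F)) *
      (x ^ 2 - τ • x + n • (1 : Matrix (Fin 3) (Fin 3) F)) = 0 := by
    have h := Matrix.aeval_self_charpoly x
    rw [hx] at h
    unfold chi at h
    simpa [Algebra.smul_def, Algebra.commutes] using h
  have hCH' : (x ^ 2 - τ • x + n • (1 : Matrix (Fin 3) (Fin 3) F)) *
      (x - n⁻¹ • (1 : Matrix (Fin 3) (Fin 3) F)) = 0 := by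
    rw [← hCH]
    simp only [sub_mul, add_mul, mul_sub, mul_add, smul_mul_assoc, mul_smul_comm, one_mul,
      mul_one, pow_two, Matrix.mul_assoc]
    module
  -- the eigenvector
  obtain ⟨e, he0, he⟩ : ∃ e : Fin 3 → F, e ≠ 0 ∧ x *ᵥ e = n⁻¹ • e := by
    have hdet : (Matrix.scalar (Fin 3) n⁻¹ - x).det = 0 := by
      rw [← Matrix.eval_charpoly, hx]
      unfold chi
      simp
    obtain ⟨e, he0, he⟩ := Matrix.exists_mulVec_eq_zero_iff.2 hdet
    refine ⟨e, he0, ?_⟩
    rw [Matrix.sub_mulVec, sub_eq_zero] at he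
    rw [← he]
    ext i
    simp [Matrix.mulVec, dotProduct, Matrix.diagonal_apply]
  -- the quadratic part
  obtain ⟨w, hw0, hw⟩ : ∃ w : Fin 3 → F, w ≠ 0 ∧ x *ᵥ (x *ᵥ w) = τ • (x *ᵥ w) - n • w := by
    by_cases hsc : x = n⁻¹ • (1 : Matrix (Fin 3) (Fin 3) F)
    · exfalso
      have h1 : x.charpoly = (X - C n⁻¹) ^ 3 := by
        have : n⁻¹ • (1 : Matrix (Fin 3) (Fin 3) F) = Matrix.diagonal fun _ => n⁻¹ := by
          ext i j
          simp [Matrix.diagonal_apply, Matrix.one_apply]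
        rw [hsc, this, Matrix.charpoly_diagonal]
        simp
      rw [h1] at hx
      unfold chi at hx
      have h2 : (X - C n⁻¹ : F[X]) ≠ 0 := X_sub_C_ne_zero _
      have h3 : (X - C n⁻¹ : F[X]) ^ 2 = X ^ 2 - C τ * X + C n := by
        refine mul_left_cancel₀ h2 ?_
        rw [← hx]
        ring
      have h4 := congrArg (Polynomial.eval n⁻¹) h3
      simp only [eval_pow, eval_sub, eval_X, eval_C, sub_self, eval_add, eval_mul] at h4
      exact hirr n⁻¹ (by rw [← h4]; ring)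
    · obtain ⟨v, hv⟩ : ∃ v : Fin 3 → F, (x - n⁻¹ • (1 : Matrix (Fin 3) (Fin 3) F)) *ᵥ v ≠ 0 := by
        by_contra hcon
        push Not at hcon
        apply hsc
        rw [← sub_eq_zero]
        ext i j
        have := congrFun (hcon (Pi.single j 1)) i
        rw [Matrix.mulVec_single_one] at this
        exact this
      refine ⟨_, hv, ?_⟩
      have h5 := congrArg (fun M => M *ᵥ v) hCH'
      simp only [← Matrix.mulVec_mulVec, Matrix.zero_mulVec] at h5
      set w := (x - n⁻¹ • (1 : Matrix (Fin 3) (Fin 3) F)) *ᵥ v with hwdef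
      rw [Matrix.add_mulVec, Matrix.sub_mulVec, pow_two, ← Matrix.mulVec_mulVec,
        Matrix.smul_mulVec, Matrix.smul_mulVec, Matrix.one_mulVec] at h5
      rw [eq_sub_iff_add_eq, ← sub_eq_zero]
      rw [← h5]
      abel
  -- linear independence of w, xw, e
  have key1 : ∀ c : F, x *ᵥ w ≠ c • w := by
    intro c hc
    have h1 := hw
    rw [hc, Matrix.mulVec_smul, hc] at h1
    have h2 : (c ^ 2 - τ * c + n) • w = 0 := by
      have : (c ^ 2 - τ * c + n) • w = c • c • w - (τ • c • w - n • w) := by module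
      rw [this, h1, sub_self]
    rcases smul_eq_zero.1 h2 with h3 | h3
    · exact hirr c h3
    · exact hw0 h3
  have hli : LinearIndependent F ![w, x *ᵥ w, e] := by
    rw [Fintype.linearIndependent_iff]
    intro g hg
    rw [Fin.sum_univ_three] at hg
    change g 0 • w + g 1 • (x *ᵥ w) + g 2 • e = 0 at hg
    have h1 : x *ᵥ (g 0 • w + g 1 • (x *ᵥ w) + g 2 • e) = 0 := by rw [hg, Matrix.mulVec_zero]
    rw [Matrix.mulVec_add, Matrix.mulVec_add, Matrix.mulVec_smul, Matrix.mulVec_smul,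
      Matrix.mulVec_smul, hw, he] at h1
    have h2 : x *ᵥ (g 0 • (x *ᵥ w) + g 1 • (τ • (x *ᵥ w) - n • w) + g 2 • n⁻¹ • e) = 0 := by
      rw [h1, Matrix.mulVec_zero]
    rw [Matrix.mulVec_add, Matrix.mulVec_add, Matrix.mulVec_smul, Matrix.mulVec_smul,
      Matrix.mulVec_smul, Matrix.mulVec_sub, Matrix.mulVec_smul, Matrix.mulVec_smul,
      Matrix.mulVec_smul, hw, he] at h2
    have h3 : (g 2 * (n⁻¹ ^ 2 - τ * n⁻¹ + n)) • e = 0 := by
      have h4 : (g 2 * (n⁻¹ ^ 2 - τ * n⁻¹ + n)) • e =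
        (g 0 • (τ • (x *ᵥ w) - n • w) + g 1 • (τ • (τ • (x *ᵥ w) - n • w) - n • (x *ᵥ w)) +
          g 2 • n⁻¹ • n⁻¹ • e) - τ • (g 0 • (x *ᵥ w) + g 1 • (τ • (x *ᵥ w) - n • w) +
          g 2 • n⁻¹ • e) + n • (g 0 • w + g 1 • (x *ᵥ w) + g 2 • e) := by module
      rw [h4, h2, h1, hg]
      simp
    have hg2 : g 2 = 0 := by
      rcases smul_eq_zero.1 h3 with h4 | h4
      · rcases mul_eq_zero.1 h4 with h5 | h5
        · exact h5
        · exact absurd h5 (hirr n⁻¹)
      · exact absurd h4 he0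
    rw [hg2, zero_smul, add_zero] at hg
    have hg1 : g 1 = 0 := by
      by_contra h4
      apply key1 (-(g 1)⁻¹ * g 0)
      have h5 : x *ᵥ w = (g 1)⁻¹ • (g 0 • w + g 1 • (x *ᵥ w)) - ((g 1)⁻¹ * g 0) • w := by
        rw [smul_add, smul_smul, smul_smul, inv_mul_cancel₀ h4, one_smul]
        abel
      rw [h5, hg]
      module
    rw [hg1, zero_smul, add_zero] at hg
    have hg0 : g 0 = 0 := (smul_eq_zero.1 hg).resolve_right hw0
    intro i
    fin_cases i
    · exact hg0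
    · exact hg1
    · exact hg2
  -- linear independence on the other side
  have hsF : ∀ c : F, s ≠ algebraMap F L c := by
    intro c hc
    rw [hc, ← map_pow, ← map_mul, ← map_sub, ← map_add, map_eq_zero] at hs
    exact hirr c hs
  have hli2 : LinearIndependent F ![((1 : L), (0 : F)), (s, 0), (0, 1)] := by
    rw [Fintype.linearIndependent_iff]
    intro g hg
    rw [Fin.sum_univ_three] at hg
    change g 0 • ((1 : L), (0 : F)) + g 1 • (s, (0 : F)) + g 2 • ((0 : L), (1 : F)) = 0 at hg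
    simp only [Prod.smul_mk, Prod.mk_add_mk, smul_zero, add_zero,
      smul_eq_mul, mul_one, mul_zero, zero_add, Prod.mk_eq_zero] at hg
    obtain ⟨h1, h2⟩ := hg
    have hg1 : g 1 = 0 := by
      by_contra h4
      apply hsF (-(g 1)⁻¹ * g 0)
      have h5 : s = (g 1)⁻¹ • (g 0 • (1 : L) + g 1 • s) - ((g 1)⁻¹ * g 0) • (1 : L) := by
        rw [smul_add, smul_smul, smul_smul, inv_mul_cancel₀ h4, one_smul]
        abel
      rw [h5, h1, smul_zero, zero_sub, Algebra.smul_def, mul_one, neg_mul, map_neg]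
    rw [hg1, zero_smul, add_zero] at h1
    have hg0 : g 0 = 0 := (smul_eq_zero.1 h1).resolve_right one_ne_zero
    intro i
    fin_cases i
    · exact hg0
    · exact hg1
    · exact h2
  have hc1 : Fintype.card (Fin 3) = Module.finrank F (Fin 3 → F) := by simp
  have hfd : Module.Finite F L := Module.finite_of_finrank_pos (by rw [hL]; norm_num)
  have hc2 : Fintype.card (Fin 3) = Module.finrank F (L × F) := by
    rw [Module.finrank_prod, hL]
    simp
  let B1 := basisOfLinearIndependentOfCardEqFinrank hli hc1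
  let B2 := basisOfLinearIndependentOfCardEqFinrank hli2 hc2
  let Ψ : (Fin 3 → F) ≃ₗ[F] (L × F) := B1.equiv B2 (Equiv.refl _)
  have hB1 : ∀ i, B1 i = ![w, x *ᵥ w, e] i := fun i => by
    simp [B1]
  have hB2 : ∀ i, B2 i = ![((1 : L), (0 : F)), (s, 0), (0, 1)] i := fun i => by
    simp [B2]
  have hΨ : ∀ i, Ψ (![w, x *ᵥ w, e] i) = ![((1 : L), (0 : F)), (s, 0), (0, 1)] i := by
    intro i
    rw [← hB1, ← hB2]
    simp [Ψ]
  have hw1 : Ψ w = (1, 0) := hΨ 0
  have hw2 : Ψ (x *ᵥ w) = (s, 0) := hΨ 1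
  have hw3 : Ψ e = (0, 1) := hΨ 2
  let M : (L × F) →ₗ[F] (L × F) := (LinearMap.mulLeft F s).prodMap (LinearMap.mulLeft F n⁻¹)
  have hM : ∀ y : L × F, M y = (s * y.1, n⁻¹ * y.2) := fun y => by simp [M]
  refine ⟨Ψ, ?_⟩
  have hmain : Ψ.toLinearMap ∘ₗ Matrix.toLin' x = M ∘ₗ Ψ.toLinearMap := by
    refine B1.ext fun i => ?_
    rw [LinearMap.comp_apply, LinearMap.comp_apply, Matrix.toLin'_apply, hM, hB1]
    fin_cases i
    · show Ψ (x *ᵥ w) = (s * (Ψ w).1, n⁻¹ * (Ψ w).2)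
      rw [hw1, hw2]
      simp
    · show Ψ (x *ᵥ (x *ᵥ w)) = (s * (Ψ (x *ᵥ w)).1, n⁻¹ * (Ψ (x *ᵥ w)).2)
      rw [hw, map_sub, map_smul, map_smul, hw1, hw2]
      have h1 : s * s = algebraMap F L τ * s - algebraMap F L n := by
        linear_combination hs
      simp only [h1, Prod.smul_mk, smul_zero, Prod.mk_sub_mk, sub_zero, mul_zero]
      rw [Algebra.smul_def, Algebra.smul_def, mul_one]
    · show Ψ (x *ᵥ e) = (s * (Ψ e).1, n⁻¹ * (Ψ e).2)
      rw [he, map_smul, hw3]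
      simp
  intro v
  have h1 := congrArg (fun f => f v) hmain
  simp only [LinearMap.comp_apply, Matrix.toLin'_apply, hM] at h1
  exact h1

end Pool.Agent.PSL3
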