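import Pool.Agent.PSL3.Defs

/-!
# Elements of type b in `SL_3(q)` (helper60)
-/

set_option autoImplicit false

namespace Pool.Agent.PSL3

open Matrix Polynomial

section mat

variable {F : Type*} [Field F]

private theorem adj_gen (A : M3 F) (c : F) : (A - c • (1 : M3 F)).adjugate =
    A * A - (A.trace - c) • A + (A.adjugate.trace - c * A.trace + c * c) • (1 : M3 F) := by
  rw [Matrix.adjugate_fin_three, Matrix.adjugate_fin_three, Matrix.trace_fin_three, Matrix.trace_fin_three]
  ext i j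
  fin_cases i <;> fin_cases j <;> simp [Matrix.mul_apply, Fin.sum_univ_three] <;> ring

private theorem det_gen (A : M3 F) (c : F) : (A - c • (1 : M3 F)).det =
    A.det - A.adjugate.trace * c + A.trace * c ^ 2 - c ^ 3 := by
  rw [Matrix.adjugate_fin_three, Matrix.trace_fin_three, Matrix.trace_fin_three, Matrix.det_fin_three, Matrix.det_fin_three]
  simp
  ring

private theorem minors {R : M3 F} (h : R.adjugate = 0) (i j k l : Fin 3) : R i j * R k l = R i l * R k j := by
  rw [Matrix.adjugate_fin_three] at h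
  have h00 := congrFun (congrFun h 0) 0
  have h01 := congrFun (congrFun h 0) 1
  have h02 := congrFun (congrFun h 0) 2
  have h10 := congrFun (congrFun h 1) 0
  have h11 := congrFun (congrFun h 1) 1
  have h12 := congrFun (congrFun h 1) 2
  have h20 := congrFun (congrFun h 2) 0
  have h21 := congrFun (congrFun h 2) 1
  have h22 := congrFun (congrFun h 2) 2
  simp at h00 h01 h02 h10 h11 h12 h20 h21 h22
  fin_cases i <;> fin_cases k <;> fin_cases j <;> fin_cases l <;> simp <;>
    first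
    | ring1
    | linear_combination h00
    | linear_combination h01
    | linear_combination h02
    | linear_combination h10
    | linear_combination h11
    | linear_combination h12
    | linear_combination h20
    | linear_combination h21
    | linear_combination h22
    | linear_combination -h00
    | linear_combination -h01
    | linear_combination -h02
    | linear_combination -h10
    | linear_combination -h11
    | linear_combination -h12
    | linear_combination -h20
    | linear_combination -h21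
    | linear_combination -h22

private theorem rank_one {R : M3 F} (h : R.adjugate = 0) {u φ : Fin 3 → F} {κ : F} (hκ : κ ≠ 0)
    (hu : R *ᵥ u = κ • u) (hφ : φ ᵥ* R = κ • φ) (hd : φ ⬝ᵥ u = 1) : R = κ • vecMulVec u φ := by
  have h1 : ∀ i j k, R i j * u k = u i * R k j := by
    intro i j k
    have e1 : κ * u k = ∑ l, R k l * u l := by
      have := congrFun hu k
      simp only [Matrix.mulVec, dotProduct, Pi.smul_apply, smul_eq_mul] at this
      exact this.symm
    have e2 : κ * u i = ∑ l, R i l * u l := by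
      have := congrFun hu i
      simp only [Matrix.mulVec, dotProduct, Pi.smul_apply, smul_eq_mul] at this
      exact this.symm
    have e3 : κ * (R i j * u k) = κ * (u i * R k j) := by
      calc κ * (R i j * u k) = R i j * (κ * u k) := by ring
        _ = ∑ l, R i j * (R k l * u l) := by rw [e1, Finset.mul_sum]
        _ = ∑ l, (R i l * u l) * R k j := by
            refine Finset.sum_congr rfl fun l _ => ?_
            have := minors h i j k l
            linear_combination (u l) * this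
        _ = (κ * u i) * R k j := by rw [e2, Finset.sum_mul]
        _ = κ * (u i * R k j) := by ring
    exact mul_left_cancel₀ hκ e3
  ext i j
  have e4 : κ * φ j = ∑ k, φ k * R k j := by
    have := congrFun hφ j
    simp only [Matrix.vecMul, dotProduct, Pi.smul_apply, smul_eq_mul] at this
    exact this.symm
  have e5 : (∑ k, φ k * u k) = 1 := hd
  rw [Matrix.smul_apply, Matrix.vecMulVec_apply, smul_eq_mul]
  calc R i j = R i j * ∑ k, φ k * u k := by rw [e5, mul_one]
    _ = ∑ k, φ k * (R i j * u k) := by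
        rw [Finset.mul_sum]
        exact Finset.sum_congr rfl fun k _ => by ring
    _ = ∑ k, u i * (φ k * R k j) := Finset.sum_congr rfl fun k _ => by rw [h1]; ring
    _ = u i * (κ * φ j) := by rw [← Finset.mul_sum, e4]
    _ = κ * (u i * φ j) := by ring

private theorem pow_mulVec {A : M3 F} {u : Fin 3 → F} {c : F} (h : A *ᵥ u = c • u) (n : ℕ) : (A ^ n) *ᵥ u = c ^ n • u := by
  induction n with
  | zero => simp
  | succ n ih => rw [pow_succ', ← Matrix.mulVec_mulVec, ih, Matrix.mulVec_smul, h, smul_smul, pow_succ]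

private theorem aeval_mulVec {A : M3 F} {u : Fin 3 → F} {c : F} (h : A *ᵥ u = c • u) (p : F[X]) :
    (aeval A p) *ᵥ u = (p.eval c) • u := by
  induction p using Polynomial.induction_on' with
  | add p q hp hq => rw [map_add, Matrix.add_mulVec, hp, hq, eval_add, add_smul]
  | monomial n a =>
    rw [aeval_monomial, eval_monomial, Algebra.algebraMap_eq_smul_one, smul_mul_assoc, one_mul, Matrix.smul_mulVec,
      pow_mulVec h, smul_smul]

/-- the quadratic factor -/
private noncomputable def kx (m γ : F) : F[X] := X ^ 2 - C m * X + C γ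

private theorem aeval_kx (A : M3 F) (m γ : F) : aeval A (kx m γ) = A * A - m • A + γ • (1 : M3 F) := by
  unfold kx
  rw [map_add, map_sub, map_mul, aeval_C, aeval_C, map_pow, aeval_X, Algebra.algebraMap_eq_smul_one,
    Algebra.algebraMap_eq_smul_one, smul_mul_assoc, one_mul, pow_two]

private theorem eval_kx (m γ y : F) : (kx m γ).eval y = y * y - m * y + γ := by
  unfold kx
  simp
  ring

/-- the matrix part -/
private theorem dataB_of [Finite F] {γ m : F} (hγ : γ ≠ 0) (hk : ∀ y : F, y * y - m * y + γ ≠ 0) (hirr : Irreducible (kx m γ))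
    (hdiv : kx m γ ∣ X ^ (Nat.card F + 1) - C γ) (hpow : ∀ (k : ℕ) (t : F), kx m γ ∣ X ^ k - C t → Nat.card F + 1 ∣ k)
    (x : SL3 F) (hx : Ty (γ⁻¹ + m) (γ + m * γ⁻¹) x) : Pb γ x := by
  obtain ⟨hs, hs'⟩ := hx
  rw [Matrix.SpecialLinearGroup.coe_inv] at hs'
  have hd : (x : M3 F).det = 1 := x.2
  set A : M3 F := (x : M3 F) with hA
  have hc : γ⁻¹ * γ = 1 := inv_mul_cancel₀ hγ
  have hadj : (A - γ⁻¹ • (1 : M3 F)).adjugate = aeval A (kx m γ) := by
    rw [adj_gen, aeval_kx, hs, hs']
    congr 2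
    · congr 1; ring
    · ring
  have hdet : (A - γ⁻¹ • (1 : M3 F)).det = 0 := by
    rw [det_gen, hs, hs', hd]
    linear_combination -hc
  have hadj2 : (aeval A (kx m γ)).adjugate = 0 := by
    rw [← hadj, Matrix.adjugate_adjugate _ (by simp), hdet]
    simp
  have hcol : (A - γ⁻¹ • (1 : M3 F)) * aeval A (kx m γ) = 0 := by
    rw [← hadj, Matrix.mul_adjugate, hdet, zero_smul]
  have hrow : aeval A (kx m γ) * (A - γ⁻¹ • (1 : M3 F)) = 0 := by
    rw [← hadj, Matrix.adjugate_mul, hdet, zero_smul]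
  set κ : F := γ⁻¹ * γ⁻¹ - m * γ⁻¹ + γ with hκd
  have hκ : κ ≠ 0 := hk γ⁻¹
  obtain ⟨φ, hφ0, hφ1⟩ := Matrix.exists_vecMul_eq_zero_iff.2 hdet
  have hφA : φ ᵥ* A = γ⁻¹ • φ := by
    rw [Matrix.vecMul_sub, Matrix.vecMul_smul, Matrix.vecMul_one, sub_eq_zero] at hφ1
    exact hφ1
  have hφK : ∀ (ψ : Fin 3 → F) (t : F), ψ ᵥ* A = t • ψ → ψ ᵥ* (aeval A (kx m γ)) = (t * t - m * t + γ) • ψ := by
    intro ψ t h
    rw [aeval_kx, Matrix.vecMul_add, Matrix.vecMul_sub, ← Matrix.vecMul_vecMul, h, Matrix.smul_vecMul, h, Matrix.vecMul_smul,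
      Matrix.vecMul_smul, h, Matrix.vecMul_one, smul_smul, smul_smul, ← sub_smul, ← add_smul]
  have hφK1 := hφK φ γ⁻¹ hφA
  -- a vector with `φ w ≠ 0`
  obtain ⟨w, hw⟩ : ∃ w : Fin 3 → F, φ ⬝ᵥ w ≠ 0 := by
    by_contra hcon
    push Not at hcon
    exact hφ0 (dotProduct_eq_zero φ hcon)
  set u0 := (aeval A (kx m γ)) *ᵥ w with hu0
  have hAu0 : A *ᵥ u0 = γ⁻¹ • u0 := by
    have h1 : (A - γ⁻¹ • (1 : M3 F)) *ᵥ u0 = 0 := by
      rw [hu0, Matrix.mulVec_mulVec, hcol, Matrix.zero_mulVec]
    rw [Matrix.sub_mulVec, Matrix.smul_mulVec, Matrix.one_mulVec, sub_eq_zero] at h1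
    exact h1
  have hφu0 : φ ⬝ᵥ u0 = κ * (φ ⬝ᵥ w) := by
    rw [hu0, Matrix.dotProduct_mulVec, hφK1, smul_dotProduct, smul_eq_mul]
  have hne : φ ⬝ᵥ u0 ≠ 0 := by rw [hφu0]; exact mul_ne_zero hκ hw
  set u := (φ ⬝ᵥ u0)⁻¹ • u0 with hu
  have hdot : φ ⬝ᵥ u = 1 := by
    rw [hu, dotProduct_smul, smul_eq_mul, inv_mul_cancel₀ hne]
  have hAu : A *ᵥ u = γ⁻¹ • u := by
    rw [hu, Matrix.mulVec_smul, hAu0, smul_comm]
  have hKu : (aeval A (kx m γ)) *ᵥ u = κ • u := by
    rw [aeval_mulVec hAu, eval_kx]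
  have hR := rank_one hadj2 hκ hKu hφK1 hdot
  have hq1 : γ ^ (Nat.card F - 1) = 1 := by
    have : Fintype F := Fintype.ofFinite F
    rw [Nat.card_eq_fintype_card]
    exact FiniteField.pow_card_sub_one_eq_one γ hγ
  have hcard : 1 < Nat.card F := Finite.one_lt_card
  refine ⟨u, φ, hdot, hAu, hφA, ?_, ?_, ?_⟩
  · -- the power is a homology
    obtain ⟨h, hh⟩ := hdiv
    have e1 : A ^ (Nat.card F + 1) - γ • (1 : M3 F) = aeval A h * aeval A (kx m γ) := by
      have := congrArg (aeval A) hh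
      rw [map_sub, map_pow, aeval_X, aeval_C, Algebra.algebraMap_eq_smul_one, mul_comm, map_mul] at this
      exact this
    have e2 : (γ⁻¹) ^ (Nat.card F + 1) - γ = κ * h.eval γ⁻¹ := by
      have := congrArg (eval γ⁻¹) hh
      rw [eval_sub, eval_pow, eval_X, eval_C, eval_mul, eval_kx] at this
      exact this
    have e3 : (γ⁻¹) ^ (Nat.card F + 1) = γ⁻¹ ^ 2 := by
      have : Nat.card F + 1 = (Nat.card F - 1) + 2 := by omega
      rw [this, pow_add, inv_pow, hq1, inv_one, one_mul]
    have e4 : A ^ (Nat.card F + 1) = γ • (1 : M3 F) + (κ * h.eval γ⁻¹) • vecMulVec u φ := by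
      rw [← sub_eq_iff_eq_add', e1, hR, Matrix.mul_smul, Matrix.mul_vecMulVec, aeval_mulVec hAu, Matrix.smul_vecMulVec, smul_smul]
    rw [e4, ← e2, e3, smul_add, smul_smul]
    congr 2
    have e5 : γ * γ⁻¹ = 1 := mul_inv_cancel₀ hγ
    linear_combination -(γ⁻¹ ^ 2) * e5
  · intro k t w' hw' hφw hkw
    by_contra hno
    have hnd : ¬ kx m γ ∣ X ^ k - C t := fun h => hno (hpow k t h)
    obtain ⟨a, b, hab⟩ := (hirr.coprime_iff_not_dvd).2 hnd
    have e1 : (aeval A (kx m γ)) *ᵥ w' = 0 := by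
      rw [hR, Matrix.smul_mulVec, Matrix.vecMulVec_mulVec, hφw]
      simp
    have e2 : (aeval A (X ^ k - C t)) *ᵥ w' = 0 := by
      rw [map_sub, map_pow, aeval_X, aeval_C, Algebra.algebraMap_eq_smul_one, Matrix.sub_mulVec, hkw, Matrix.smul_mulVec,
        Matrix.one_mulVec, sub_self]
    have e3 := congrArg (fun p => (aeval A p) *ᵥ w') hab
    simp only [map_add, map_mul, map_one, Matrix.add_mulVec, Matrix.one_mulVec] at e3
    rw [← Matrix.mulVec_mulVec, e1, Matrix.mulVec_zero, zero_add, ← Matrix.mulVec_mulVec, e2, Matrix.mulVec_zero] at e3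
    exact hw' e3.symm
  · intro t ψ hψu hψA
    have h1 := hφK ψ t hψA
    have h2 : ψ ᵥ* (aeval A (kx m γ)) = 0 := by
      rw [hR, Matrix.vecMul_smul, Matrix.vecMul_vecMulVec, hψu]
      simp
    rw [h1] at h2
    rcases smul_eq_zero.1 h2 with h3 | h3
    · exact absurd h3 (hk t)
    · exact h3

end mat

section fld

variable {F : Type*} [Field F] [Finite F]

/-- an element of the algebraic closure fixed by `t ↦ t ^ q` lies in `F` -/
private theorem mem_of_fixed {t : AlgebraicClosure F} (ht : t ^ Nat.card F = t) : ∃ a : F, algebraMap F (AlgebraicClosure F) a = t := by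
  have : Fintype F := Fintype.ofFinite F
  rw [Nat.card_eq_fintype_card] at ht
  have hmon : (X ^ Fintype.card F - X : F[X]).Monic := by
    apply monic_X_pow_sub
    rw [degree_X]
    exact_mod_cast Fintype.one_lt_card
  have hprod := prod_multiset_X_sub_C_of_monic_of_roots_card_eq hmon (by
    rw [FiniteField.roots_X_pow_card_sub_X, FiniteField.X_pow_card_sub_X_natDegree_eq F Fintype.one_lt_card]
    rfl)
  rw [FiniteField.roots_X_pow_card_sub_X] at hprod
  have h3 : aeval t (X ^ Fintype.card F - X : F[X]) = 0 := by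
    simp [ht]
  rw [← hprod, map_multiset_prod, Multiset.map_map, Multiset.prod_eq_zero_iff] at h3
  obtain ⟨a, -, ha⟩ := Multiset.mem_map.1 h3
  refine ⟨a, ?_⟩
  simp only [Function.comp_apply, map_sub, aeval_X, aeval_C] at ha
  exact (sub_eq_zero.1 ha).symm

private theorem frob_add (a b : AlgebraicClosure F) : (a + b) ^ Nat.card F = a ^ Nat.card F + b ^ Nat.card F := by
  have : Fintype F := Fintype.ofFinite F
  rw [Nat.card_eq_fintype_card]
  have h2 := map_add (FiniteField.frobeniusAlgHom F (AlgebraicClosure F)) a b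
  simp only [FiniteField.coe_frobeniusAlgHom] at h2
  exact h2

private theorem exists_root : ∃ z : AlgebraicClosure F, IsPrimitiveRoot z (Nat.card F ^ 2 - 1) := by
  have : Fintype F := Fintype.ofFinite F
  have h1 : ((Nat.card F : ℕ) : F) = 0 := by
    rw [Nat.card_eq_fintype_card]
    exact Nat.cast_card_eq_zero F
  have h2 : ((Nat.card F : ℕ) : AlgebraicClosure F) = 0 := by
    have := congrArg (algebraMap F (AlgebraicClosure F)) h1
    rwa [map_natCast, map_zero] at this
  have hc : 1 < Nat.card F := Finite.one_lt_card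
  have h0 : ((Nat.card F ^ 2 - 1 : ℕ) : AlgebraicClosure F) ≠ 0 := by
    rw [Nat.cast_sub (Nat.one_le_pow _ _ (by omega)), Nat.cast_pow, h2, Nat.cast_one]
    simp
  have : NeZero ((Nat.card F ^ 2 - 1 : ℕ) : AlgebraicClosure F) := ⟨h0⟩
  exact HasEnoughRootsOfUnity.exists_primitiveRoot (AlgebraicClosure F) (Nat.card F ^ 2 - 1)

private theorem alg_inj : Function.Injective (algebraMap F (AlgebraicClosure F)) := (algebraMap F (AlgebraicClosure F)).injective

private theorem card_pow {a : F} (ha : a ≠ 0) : a ^ (Nat.card F - 1) = 1 := by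
  have : Fintype F := Fintype.ofFinite F
  rw [Nat.card_eq_fintype_card]
  exact FiniteField.pow_card_sub_one_eq_one a ha

private theorem cubic_swap {E : Type*} [Field E] {a k a' k' Z : E} (h1 : a * a' = 1) (h2 : k * k' = 1) (hZ : Z ^ 3 = 1)
    (hr : a * k + a' + k' = Z * (a' * k' + a + k)) (y : E) :
    (Z * y - a * k) * (Z * y - a') * (Z * y - k') = (y - a' * k') * (y - a) * (y - k) := by
  linear_combination (y ^ 3 - (a' * k' + a + k) * y ^ 2) * hZ - Z ^ 2 * y ^ 2 * hr - y * hr + y * (Z * k - k') * h1 + y * (Z * a - a') * h2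

/-- module TypesB -/
theorem exists_b {F : Type*} [Field F] [Finite F] (hF : 3 ≤ Nat.card F) (h4 : Nat.card F ≠ 4) :
    ∃ γ m : F, Gen γ ∧ m ≠ 0 ∧ (∀ x : SL3 F, Ty (γ⁻¹ + m) (γ + m * γ⁻¹) x → Pb γ x) ∧
      ∀ z : F, z ^ 3 = 1 →
        ¬ (γ + m * γ⁻¹ = z * (γ⁻¹ + m) ∧ γ⁻¹ + m = z ^ 2 * (γ + m * γ⁻¹)) := by
  obtain ⟨g, hg⟩ := exists_root (F := F)
  set q := Nat.card F with hq
  have hqq : (q - 1) * (q + 1) = q ^ 2 - 1 := by
    obtain ⟨r, hr⟩ : ∃ r, q = r + 1 := ⟨q - 1, by omega⟩
    rw [hr]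
    simp only [Nat.add_sub_cancel]
    have : (r + 1) ^ 2 = r * (r + 1 + 1) + 1 := by ring
    omega
  have hpos : 0 < q ^ 2 - 1 := by
    rw [← hqq]
    exact Nat.mul_pos (by omega) (by omega)
  have hg0 : g ≠ 0 := hg.ne_zero (by omega)
  have hgq2 : g ^ (q ^ 2) = g := by
    have : q ^ 2 = (q ^ 2 - 1) + 1 := by omega
    rw [this, pow_succ, hg.pow_eq_one, one_mul]
  -- membership of powers of `g` in `F`
  have hmem : ∀ k : ℕ, (∃ a : F, algebraMap F (AlgebraicClosure F) a = g ^ k) → q + 1 ∣ k := by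
    rintro k ⟨a, ha⟩
    have ha0 : a ≠ 0 := by
      rintro rfl
      rw [map_zero] at ha
      exact pow_ne_zero k hg0 ha.symm
    have h1 := congrArg (algebraMap F (AlgebraicClosure F)) (card_pow ha0)
    rw [map_pow, ha, map_one, ← pow_mul] at h1
    have h2 := (hg.pow_eq_one_iff_dvd _).1 h1
    rw [← hqq, mul_comm k] at h2
    exact Nat.dvd_of_mul_dvd_mul_left (by omega) h2
  obtain ⟨γ, hγ⟩ : ∃ γ : F, algebraMap F (AlgebraicClosure F) γ = g ^ (q + 1) := by
    apply mem_of_fixed
    rw [← pow_mul, show (q + 1) * q = q ^ 2 + q by ring, pow_add, hgq2, pow_succ, mul_comm]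
  obtain ⟨m, hm⟩ : ∃ m : F, algebraMap F (AlgebraicClosure F) m = g + g ^ q := by
    apply mem_of_fixed
    rw [← hq, frob_add, ← pow_mul, show q * q = q ^ 2 by ring, hgq2, add_comm]
  have hγ0 : γ ≠ 0 := by
    rintro rfl
    rw [map_zero] at hγ
    exact pow_ne_zero _ hg0 hγ.symm
  have hm0 : m ≠ 0 := by
    rintro rfl
    rw [map_zero] at hm
    have h1 : g ^ q = -g := by linear_combination -hm
    have h2 : g ^ (q - 1) * g = -1 * g := by
      rw [← pow_succ, show q - 1 + 1 = q by omega, h1]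
      ring
    have h3 : g ^ (q - 1) = -1 := mul_right_cancel₀ hg0 h2
    have h4 : g ^ ((q - 1) * 2) = 1 := by
      rw [pow_mul, h3]
      ring
    have h5 := (hg.pow_eq_one_iff_dvd _).1 h4
    rw [← hqq] at h5
    have h6 := Nat.le_of_dvd (by norm_num) (Nat.dvd_of_mul_dvd_mul_left (by omega) h5)
    omega
  -- the roots of the quadratic factor
  have hroot : ∀ y : AlgebraicClosure F, y * y - algebraMap F (AlgebraicClosure F) m * y + algebraMap F (AlgebraicClosure F) γ = (y - g) * (y - g ^ q) := by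
    intro y
    rw [hm, hγ, pow_succ]
    ring
  have hk : ∀ y : F, y * y - m * y + γ ≠ 0 := by
    intro y hy
    have h1 := congrArg (algebraMap F (AlgebraicClosure F)) hy
    rw [map_add, map_sub, map_mul, map_mul, map_zero, hroot] at h1
    rcases mul_eq_zero.1 h1 with h | h
    · have := Nat.le_of_dvd (by norm_num) (hmem 1 ⟨y, by rw [pow_one]; exact sub_eq_zero.1 h⟩)
      omega
    · have := Nat.le_of_dvd (by omega) (hmem q ⟨y, sub_eq_zero.1 h⟩)
      omega
  have hdeg : (kx m γ).natDegree = 2 := by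
    unfold kx
    compute_degree!
  have hirr : Irreducible (kx m γ) := by
    apply Polynomial.irreducible_of_degree_le_three_of_not_isRoot
    · rw [hdeg]; decide
    · intro y hy
      rw [Polynomial.IsRoot, eval_kx] at hy
      exact hk y hy
  have haev : ∀ y : AlgebraicClosure F, aeval y (kx m γ) = (y - g) * (y - g ^ q) := by
    intro y
    rw [← hroot]
    unfold kx
    simp
    ring
  -- divisibility by the quadratic factor
  have hdvd : ∀ p : F[X], aeval g p = 0 → kx m γ ∣ p := by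
    intro p hp
    by_contra hno
    obtain ⟨a, b, hab⟩ := (hirr.coprime_iff_not_dvd).2 hno
    have h1 := congrArg (aeval g) hab
    rw [map_add, map_mul, map_mul, hp, haev, map_one] at h1
    simp at h1
  refine ⟨γ, m, ⟨hγ0, ?_⟩, hm0, ?_, ?_⟩
  · -- generator
    intro a ha
    have hp1 : IsPrimitiveRoot (g ^ (q + 1)) (q - 1) := hg.pow hpos (by rw [← hqq, mul_comm])
    rw [← hγ] at hp1
    have hp2 : IsPrimitiveRoot γ (q - 1) := IsPrimitiveRoot.of_map_of_injective (f := algebraMap F (AlgebraicClosure F)) hp1 alg_inj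
    have : NeZero (q - 1) := ⟨by omega⟩
    obtain ⟨i, -, hi⟩ := hp2.eq_pow_of_pow_eq_one (card_pow ha)
    exact ⟨i, hi⟩
  · intro x hx
    refine dataB_of hγ0 hk hirr ?_ ?_ x hx
    · apply hdvd
      rw [map_sub, map_pow, aeval_X, aeval_C, hγ, sub_self]
    · rintro k t ⟨h, hh⟩
      apply hmem
      refine ⟨t, ?_⟩
      have h1 := congrArg (aeval g) hh
      rw [map_sub, map_pow, aeval_X, aeval_C, map_mul, haev, sub_self, zero_mul, zero_mul] at h1
      exact (sub_eq_zero.1 h1).symm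
  · rintro z hz ⟨hz1, -⟩
    have hz0 : z ≠ 0 := by
      rintro rfl
      simp at hz
    set Z := algebraMap F (AlgebraicClosure F) z with hZ
    have hZ3 : Z ^ 3 = 1 := by rw [hZ, ← map_pow, hz, map_one]
    have hZ0 : Z ≠ 0 := by
      intro h
      rw [h] at hZ3
      simp at hZ3
    have hΓ0 : g ^ (q + 1) ≠ 0 := pow_ne_zero _ hg0
    have hgq0 : g ^ q ≠ 0 := pow_ne_zero _ hg0
    -- the relation in the algebraic closure
    have hrel : g ^ (q + 1) + (g + g ^ q) * (g ^ (q + 1))⁻¹ = Z * ((g ^ (q + 1))⁻¹ + (g + g ^ q)) := by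
      have := congrArg (algebraMap F (AlgebraicClosure F)) hz1
      rw [map_add, map_mul, map_mul, map_add, map_inv₀, hγ, hm] at this
      exact this
    have e2 : g ^ (q + 1) = g * g ^ q := by rw [pow_succ, mul_comm]
    have e1 : (g ^ (q + 1))⁻¹ = g⁻¹ * (g ^ q)⁻¹ := by rw [e2, mul_inv]
    have hg1 : g * g⁻¹ = 1 := mul_inv_cancel₀ hg0
    have hk1 : g ^ q * (g ^ q)⁻¹ = 1 := mul_inv_cancel₀ hgq0
    have hrel2 : g * g ^ q + g⁻¹ + (g ^ q)⁻¹ = Z * (g⁻¹ * (g ^ q)⁻¹ + g + g ^ q) := by
      rw [e1, e2] at hrel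
      linear_combination hrel - (g ^ q)⁻¹ * hg1 - g⁻¹ * hk1
    have hfh := fun y => cubic_swap hg1 hk1 hZ3 hrel2 y
    have hbad : ∀ k : ℕ, 0 < k → k < q + 1 → g ^ k ≠ Z⁻¹ * g ^ (q + 1) := by
      intro k hk0 hk1 h
      have := Nat.le_of_dvd hk0 (hmem k ⟨z⁻¹ * γ, by rw [map_mul, map_inv₀, hγ, h]⟩)
      omega
    have hzΓ : Z = (g ^ (q + 1)) ^ 2 := by
      have h1 := hfh (g⁻¹ * (g ^ q)⁻¹)
      rw [sub_self, zero_mul, zero_mul, ← e1, ← e2] at h1
      rcases mul_eq_zero.1 h1 with h2 | h2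
      · rcases mul_eq_zero.1 h2 with h3 | h3
        · have h4 := sub_eq_zero.1 h3
          rw [pow_two]
          exact (mul_inv_eq_iff_eq_mul₀ hΓ0).1 h4
        · exfalso
          have h4 := sub_eq_zero.1 h3
          refine hbad 1 (by norm_num) (by omega) ?_
          have h5 : Z * (g ^ (q + 1))⁻¹ * (g * g ^ (q + 1)) = g⁻¹ * (g * g ^ (q + 1)) := by rw [h4]
          rw [pow_one, eq_comm, inv_mul_eq_iff_eq_mul₀ hZ0]
          field_simp at h5
          exact h5.symm
      · exfalso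
        have h4 := sub_eq_zero.1 h2
        refine hbad q (by omega) (by omega) ?_
        have h5 : Z * (g ^ (q + 1))⁻¹ * (g ^ q * g ^ (q + 1)) = (g ^ q)⁻¹ * (g ^ q * g ^ (q + 1)) := by rw [h4]
        rw [eq_comm, inv_mul_eq_iff_eq_mul₀ hZ0]
        have h6 : Z * (g ^ (q + 1))⁻¹ * (g ^ q * g ^ (q + 1)) = Z * g ^ q * ((g ^ (q + 1))⁻¹ * g ^ (q + 1)) := by ring
        have h7 : (g ^ q)⁻¹ * (g ^ q * g ^ (q + 1)) = ((g ^ q)⁻¹ * g ^ q) * g ^ (q + 1) := by ring
        rw [h6, h7, inv_mul_cancel₀ hΓ0, inv_mul_cancel₀ hgq0, mul_one, one_mul] at h5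
        exact h5.symm
    have h2 := hfh g
    rw [sub_self, mul_zero, zero_mul, ← e2] at h2
    rcases mul_eq_zero.1 h2 with h3 | h3
    · rcases mul_eq_zero.1 h3 with h4 | h4
      · refine hbad 1 (by norm_num) (by omega) ?_
        rw [pow_one, eq_comm, inv_mul_eq_iff_eq_mul₀ hZ0]
        exact (sub_eq_zero.1 h4).symm
      · have h5 : Z * (g * g) = 1 := by
          rw [← mul_assoc, sub_eq_zero.1 h4, inv_mul_cancel₀ hg0]
        have h6 : g ^ 6 = 1 := by
          have : Z ^ 3 * g ^ 6 = (Z * (g * g)) ^ 3 := by ring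
          rw [hZ3, one_mul, h5, one_pow] at this
          exact this
        have h7 := Nat.le_of_dvd (by norm_num) ((hg.pow_eq_one_iff_dvd _).1 h6)
        rw [← hqq] at h7
        have : 2 * 4 ≤ (q - 1) * (q + 1) := Nat.mul_le_mul (by omega) (by omega)
        omega
    · have h5 : Z * g ^ (q + 1) = 1 := by
        rw [e2, ← mul_assoc, sub_eq_zero.1 h3, inv_mul_cancel₀ hgq0]
      rw [hzΓ] at h5
      have h6 : g ^ ((q + 1) * 3) = 1 := by
        rw [pow_mul]
        calc (g ^ (q + 1)) ^ 3 = (g ^ (q + 1)) ^ 2 * g ^ (q + 1) := by ring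
          _ = 1 := h5
      have h7 := (hg.pow_eq_one_iff_dvd _).1 h6
      rw [← hqq, mul_comm (q - 1)] at h7
      have h8 : q - 1 ∣ 3 := Nat.dvd_of_mul_dvd_mul_left (by omega) h7
      rcases (Nat.dvd_prime Nat.prime_three).1 h8 with h9 | h9
      · omega
      · omega

end fld

end Pool.Agent.PSL3
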